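import Pool.Agent.P.MP_2d96df_co.Bip

/-! Strict balance of the bipartite rank function. -/

namespace Pool.Agent.P.MP_2d96df_co

namespace Bal

open Finset

variable {n : ℕ}

/-- move a set of pairs by two permutations -/
def mv (σ τ : Equiv.Perm (Fin n)) (X : Finset (Fin n × Fin n)) : Finset (Fin n × Fin n) :=
  X.map (Equiv.prodCongr σ τ).toEmbedding

lemma mem_mv {σ τ : Equiv.Perm (Fin n)} {X : Finset (Fin n × Fin n)} {e : Fin n × Fin n} :
    e ∈ mv σ τ X ↔ ∃ b ∈ X, (σ b.1, τ b.2) = e := by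
  simp only [mv, mem_map]
  rfl

lemma mv_one (X : Finset (Fin n × Fin n)) : mv 1 1 X = X := by
  ext e
  simp [mem_mv]

lemma avg [NeZero n] (A B : Finset (Fin n × Fin n)) :
    ∑ u : Fin n × Fin n, ((A ∩ mv (Equiv.addRight u.1) (Equiv.addRight u.2) B).card : ℝ)
      = A.card * B.card := by
  have h1 : ∀ u : Fin n × Fin n,
      ((A ∩ mv (Equiv.addRight u.1) (Equiv.addRight u.2) B).card : ℝ)
        = ∑ b ∈ B, if b + u ∈ A then 1 else 0 := fun u => by
    rw [inter_comm, ← filter_mem_eq_inter, mv, filter_map, card_map, card_filter]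
    push_cast
    rfl
  rw [sum_congr rfl fun u _ => h1 u, sum_comm]
  have h2 : ∀ b : Fin n × Fin n,
      ∑ u : Fin n × Fin n, (if b + u ∈ A then (1 : ℝ) else 0) = A.card := fun b => by
    refine (Equiv.sum_comp (Equiv.addLeft b) fun x => if x ∈ A then (1 : ℝ) else 0).trans ?_
    simp
  simp [h2, mul_comm]

lemma exists_ge (hn : 0 < n) (A B : Finset (Fin n × Fin n)) :
    ∃ σ τ, (A.card : ℝ) * B.card / (n : ℝ) ^ 2 ≤ (A ∩ mv σ τ B).card := by
  have : NeZero n := ⟨hn.ne'⟩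
  have h0 : (n : ℝ) ≠ 0 := by positivity
  obtain ⟨u, -, hu⟩ := exists_le_of_sum_le (s := (univ : Finset (Fin n × Fin n))) univ_nonempty
    (f := fun _ => (A.card : ℝ) * B.card / (n : ℝ) ^ 2) (le_of_eq (Eq.trans (by
      simp only [sum_const, card_univ, Fintype.card_prod, Fintype.card_fin, nsmul_eq_mul]
      push_cast
      field_simp) (avg A B).symm))
  exact ⟨_, _, hu⟩

lemma exists_le (hn : 0 < n) (A B : Finset (Fin n × Fin n)) :
    ∃ σ τ, ((A ∩ mv σ τ B).card : ℝ) ≤ (A.card : ℝ) * B.card / (n : ℝ) ^ 2 := by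
  have : NeZero n := ⟨hn.ne'⟩
  have h0 : (n : ℝ) ≠ 0 := by positivity
  obtain ⟨u, -, hu⟩ := exists_le_of_sum_le (s := (univ : Finset (Fin n × Fin n))) univ_nonempty
    (g := fun _ => (A.card : ℝ) * B.card / (n : ℝ) ^ 2) (le_of_eq (Eq.trans (avg A B) (by
      simp only [sum_const, card_univ, Fintype.card_prod, Fintype.card_fin, nsmul_eq_mul]
      push_cast
      field_simp)))
  exact ⟨_, _, hu⟩

lemma ivt (G : Equiv.Perm (Fin n) → ℝ) {m c : ℝ} (hm : 0 ≤ m)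
    (h : ∀ f x y, G f - m ≤ G (Equiv.swap x y * f)) (h1 : c ≤ G 1) (σ : Equiv.Perm (Fin n)) :
    G σ ≤ c → ∃ σ', c - m ≤ G σ' ∧ G σ' ≤ c := by
  induction σ using Equiv.Perm.swap_induction_on with
  | one => exact fun h2 => ⟨1, by linarith, h2⟩
  | swap_mul f x y _ ih =>
    intro h2
    by_cases h3 : G f ≤ c
    · exact ih h3
    · exact ⟨_, by linarith [h f x y], h2⟩

lemma swap_row (A X : Finset (Fin n × Fin n)) (σ τ : Equiv.Perm (Fin n)) (x y : Fin n) :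
    ((A ∩ mv σ τ X).card : ℝ) - 2 * n ≤ (A ∩ mv (Equiv.swap x y * σ) τ X).card := by
  have h : A ∩ mv σ τ X ⊆ (A ∩ mv (Equiv.swap x y * σ) τ X) ∪ ({x, y} ×ˢ univ) := by
    intro e he
    rw [mem_inter, mem_mv] at he
    obtain ⟨h1, b, hb, rfl⟩ := he
    by_cases h2 : σ b.1 = x ∨ σ b.1 = y
    · exact mem_union_right _ (by simpa using h2)
    · push Not at h2
      refine mem_union_left _ (mem_inter.2 ⟨h1, mem_mv.2 ⟨b, hb, ?_⟩⟩)
      rw [Equiv.Perm.mul_apply, Equiv.swap_apply_of_ne_of_ne h2.1 h2.2]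
  have h1 := (card_le_card h).trans (card_union_le _ _)
  rw [card_product, card_univ, Fintype.card_fin] at h1
  have h2 := Nat.mul_le_mul_right n (card_le_two (a := x) (b := y))
  have h3 : (A ∩ mv σ τ X).card ≤ (A ∩ mv (Equiv.swap x y * σ) τ X).card + 2 * n := by omega
  have : ((A ∩ mv σ τ X).card : ℝ) ≤ (A ∩ mv (Equiv.swap x y * σ) τ X).card + 2 * n := by
    exact_mod_cast h3
  linarith

lemma swap_col (A X : Finset (Fin n × Fin n)) (σ τ : Equiv.Perm (Fin n)) (x y : Fin n) :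
    ((A ∩ mv σ τ X).card : ℝ) - 2 * n ≤ (A ∩ mv σ (Equiv.swap x y * τ) X).card := by
  have h : A ∩ mv σ τ X ⊆ (A ∩ mv σ (Equiv.swap x y * τ) X) ∪ (univ ×ˢ {x, y}) := by
    intro e he
    rw [mem_inter, mem_mv] at he
    obtain ⟨h1, b, hb, rfl⟩ := he
    by_cases h2 : τ b.2 = x ∨ τ b.2 = y
    · exact mem_union_right _ (by simpa using h2)
    · push Not at h2
      refine mem_union_left _ (mem_inter.2 ⟨h1, mem_mv.2 ⟨b, hb, ?_⟩⟩)
      rw [Equiv.Perm.mul_apply, Equiv.swap_apply_of_ne_of_ne h2.1 h2.2]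
  have h1 := (card_le_card h).trans (card_union_le _ _)
  rw [card_product, card_univ, Fintype.card_fin] at h1
  have h2 := Nat.mul_le_mul_left n (card_le_two (a := x) (b := y))
  have h3 : (A ∩ mv σ τ X).card ≤ (A ∩ mv σ (Equiv.swap x y * τ) X).card + 2 * n := by omega
  have : ((A ∩ mv σ τ X).card : ℝ) ≤ (A ∩ mv σ (Equiv.swap x y * τ) X).card + 2 * n := by
    exact_mod_cast h3
  linarith

lemma card_le (X : Finset (Fin n × Fin n)) : (X.card : ℝ) ≤ (n : ℝ) ^ 2 := by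
  have := card_le_univ X
  rw [Fintype.card_prod, Fintype.card_fin, ← sq] at this
  exact_mod_cast this

lemma step (hn : 0 < n) {A X : Finset (Fin n × Fin n)} (h : A ⊆ X) :
    ∃ σ τ, (A.card : ℝ) * X.card / (n : ℝ) ^ 2 - 2 * n ≤ (A ∩ mv σ τ X).card ∧
      ((A ∩ mv σ τ X).card : ℝ) ≤ (A.card : ℝ) * X.card / (n : ℝ) ^ 2 := by
  obtain ⟨σ, τ, h1⟩ := exists_le hn A X
  by_cases h2 : ((A ∩ mv σ 1 X).card : ℝ) ≤ (A.card : ℝ) * X.card / (n : ℝ) ^ 2
  · obtain ⟨σ', h3⟩ := ivt (fun f => ((A ∩ mv f 1 X).card : ℝ)) (by positivity)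
      (fun f x y => swap_row A X f 1 x y) (by
        rw [mv_one, inter_eq_left.2 h, div_le_iff₀ (by positivity)]
        gcongr
        exact card_le X) σ h2
    exact ⟨σ', 1, h3⟩
  · obtain ⟨τ', h3⟩ := ivt (fun f => ((A ∩ mv σ f X).card : ℝ)) (by positivity)
      (fun f x y => swap_col A X σ f x y) (not_le.1 h2).le τ h1
    exact ⟨σ, τ', h3⟩

variable {d : ℕ} {W : Type} [AddCommGroup W] [Module ℝ W] {v : Fin n × Fin n → W}

lemma g_nonneg (H : BipOK n d v) (hn : 0 < n) (hd : d ≤ n) (X : Finset (Fin n × Fin n)) :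
    (1 - (1 - (d : ℝ) / n) ^ 2) * X.card ≤ rk v X := by
  obtain ⟨B, -, h1, h2⟩ := exists_basis v univ
  obtain ⟨σ, τ, h3⟩ := exists_ge hn X B
  have h4 : rk v (mv σ τ B) = (mv σ τ B).card := by
    rw [mv, H.perm, card_map, h1]
  have h5 := rk_eq_card_of_subset h4 (inter_subset_right (s₁ := X))
  have h6 := rk_mono v (inter_subset_left (s₁ := X) (s₂ := mv σ τ B))
  rw [h5] at h6
  have h7 : ((n : ℝ)) ^ 2 ≤ B.card + ((n : ℝ) - d) ^ 2 := by
    rw [h2, ← Nat.cast_sub hd]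
    exact_mod_cast H.full
  have h0 : (0 : ℝ) < n := by exact_mod_cast hn
  refine le_trans ?_ (h3.trans (by exact_mod_cast h6))
  rw [mul_comm, mul_div_assoc]
  gcongr
  rw [le_div_iff₀ (by positivity)]
  have : (1 - (1 - (d : ℝ) / n) ^ 2) * (n : ℝ) ^ 2 = (n : ℝ) ^ 2 - ((n : ℝ) - d) ^ 2 := by
    field_simp
  linarith

theorem strict (H : BipOK n d v) {η θ : ℝ} {J : ℕ} (hη : 0 < η) (hJ : θ ^ J ≤ η ^ 2)
    (hn : 0 < n) (hn4 : 4 ≤ η ^ 4 * n) (h1 : η * n ≤ d) (h2 : (d : ℝ) ≤ (1 - η) * n)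
    {X : Finset (Fin n × Fin n)} (h3 : d ^ 2 < X.card) (h4 : (X.card : ℝ) ≤ θ * (n : ℝ) ^ 2) :
    η ^ 6 / (2 * (J + 1)) * (n : ℝ) ^ 2 ≤ rk v X - (1 - (1 - (d : ℝ) / n) ^ 2) * X.card := by
  have h0 : (0 : ℝ) < n := by exact_mod_cast hn
  have hd : d ≤ n := by
    have : (d : ℝ) ≤ n := by nlinarith
    exact_mod_cast this
  set a := 1 - (1 - (d : ℝ) / n) ^ 2 with ha
  set g : Finset (Fin n × Fin n) → ℝ := fun Y => rk v Y - a * Y.card with hg
  have g0 : ∀ Y, 0 ≤ g Y := fun Y => sub_nonneg.2 (g_nonneg H hn hd Y)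
  have g1 : ∀ A σ τ, g (A ∩ mv σ τ X) ≤ g A + g X := fun A σ τ => by
    have b1 : ((rk v (A ∪ mv σ τ X) : ℝ)) + rk v (A ∩ mv σ τ X) ≤ rk v A + rk v X := by
      rw [← H.perm σ τ X]
      exact_mod_cast rk_submod v A (mv σ τ X)
    have b2 : (((A ∪ mv σ τ X).card : ℝ)) + (A ∩ mv σ τ X).card = A.card + X.card := by
      have := card_union_add_card_inter A (mv σ τ X)
      rw [mv, card_map, ← mv] at this
      exact_mod_cast this
    have b3 := g0 (A ∪ mv σ τ X)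
    simp only [hg] at b3 ⊢
    have b4 := congrArg (a * ·) b2
    simp only [mul_add] at b4
    linarith
  set μ := (X.card : ℝ) / (n : ℝ) ^ 2 with hμ
  have h3' : (d : ℝ) ^ 2 < X.card := by exact_mod_cast h3
  have hd2 : η ^ 2 * (n : ℝ) ^ 2 ≤ (d : ℝ) ^ 2 := by
    rw [← mul_pow]
    gcongr
  have μ1 : η ^ 2 ≤ μ := by
    rw [hμ, le_div_iff₀ (by positivity)]
    linarith
  have μ0 : 0 ≤ μ := le_trans (by positivity) μ1
  have μ2 : μ ≤ θ := by rwa [hμ, div_le_iff₀ (by positivity)]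
  have a1 : η ^ 2 ≤ 1 - a := by
    rw [ha, sub_sub_cancel]
    gcongr
    rw [le_sub_comm, div_le_iff₀ h0]
    exact h2
  have key : ∀ t : ℕ, (∃ Y ⊆ X, g Y ≤ (t + 1) * g X ∧ (d : ℝ) ^ 2 < Y.card ∧
      (Y.card : ℝ) ≤ μ ^ t * (n : ℝ) ^ 2) ∨ η ^ 6 / 2 * (n : ℝ) ^ 2 ≤ (t + 1) * g X := by
    intro t
    induction t with
    | zero => exact Or.inl ⟨X, Subset.rfl, by simp, h3', by simpa using card_le X⟩
    | succ t ih =>
      rcases ih with ⟨Y, y1, y2, y3, y4⟩ | ih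
      · obtain ⟨σ, τ, z1, z2⟩ := step hn y1
        rw [mul_div_assoc, ← hμ] at z1 z2
        have z3 : g (Y ∩ mv σ τ X) ≤ ((t + 1 : ℕ) + 1) * g X := by
          have := g1 Y σ τ
          push_cast
          linarith
        by_cases z4 : d ^ 2 < (Y ∩ mv σ τ X).card
        · refine Or.inl ⟨_, inter_subset_left.trans y1, z3, by exact_mod_cast z4, z2.trans ?_⟩
          calc _ ≤ μ ^ t * (n : ℝ) ^ 2 * μ := by gcongr
            _ = _ := by ring
        · refine Or.inr (le_trans ?_ z3)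
          simp only [hg]
          rw [H.small _ (not_lt.1 z4)]
          have z5 : η ^ 2 * (n : ℝ) ^ 2 * η ^ 2 ≤ Y.card * μ := by
            gcongr
            linarith
          have z6 : η ^ 4 / 2 * (n : ℝ) ^ 2 ≤ (Y ∩ mv σ τ X).card := by nlinarith
          calc _ = η ^ 2 * (η ^ 4 / 2 * (n : ℝ) ^ 2) := by ring
            _ ≤ (1 - a) * (Y ∩ mv σ τ X).card := by gcongr; linarith [sq_nonneg η]
            _ = _ := by ring
      · refine Or.inr (ih.trans ?_)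
        have := g0 X
        push_cast
        linarith
  rcases key J with ⟨Y, -, -, y3, y4⟩ | h
  · have : μ ^ J * (n : ℝ) ^ 2 ≤ η ^ 2 * (n : ℝ) ^ 2 := by
      gcongr
      exact (pow_le_pow_left₀ μ0 μ2 J).trans hJ
    linarith
  · change _ ≤ g X
    rw [div_mul_eq_mul_div, div_le_iff₀ (by positivity)]
    linarith

end Bal

end Pool.Agent.P.MP_2d96df_co
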