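import Pool.Agent.P.MP_2d96df_co.Vec

namespace Pool.Agent.P.MP_2d96df_co
open Finset

/-- the three properties of the generic bipartite rigidity vectors that the random part uses -/
structure BipOK (n0 d0 : ℕ) {W : Type} [AddCommGroup W] [Module ℝ W]
    (v : Fin n0 × Fin n0 → W) : Prop where
  perm : ∀ (σ τ : Equiv.Perm (Fin n0)) (X : Finset (Fin n0 × Fin n0)),
    rk v (X.map (Equiv.prodCongr σ τ).toEmbedding) = rk v X
  full : n0 ^ 2 ≤ rk v univ + (n0 - d0) ^ 2
  small : ∀ X : Finset (Fin n0 × Fin n0), X.card ≤ d0 ^ 2 → rk v X = X.card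

end Pool.Agent.P.MP_2d96df_co
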