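import Pool.Agent.P.MP_2d96df_co.Prob

/-! A qualitative influence inequality and the sharp threshold step. -/

namespace Pool.Agent.P.MP_2d96df_co

namespace KKL

open Finset

variable {ι : Type*} [DecidableEq ι]

/-- centred indicator -/
noncomputable def ch (p : ι → ℝ) (e : ι) (X : Finset ι) : ℝ := (if e ∈ X then 1 else 0) - p e

/-- function with prescribed coefficients -/
noncomputable def FF (E : Finset ι) (p : ι → ℝ) (c : Finset ι → ℝ) (X : Finset ι) : ℝ :=
  ∑ S ∈ E.powerset, c S * ∏ e ∈ S, ch p e X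

/-- squared norm of a character -/
noncomputable def NN (p : ι → ℝ) (S : Finset ι) : ℝ := ∏ e ∈ S, p e * (1 - p e)

/-- influence -/
noncomputable def Inf (E : Finset ι) (p : ι → ℝ) (f : Finset ι → ℝ) (e : ι) : ℝ :=
  Ex (E.erase e) p fun X => f (insert e X) - f X

variable {E : Finset ι} {p : ι → ℝ} {a : ι}

lemma FF_ins (ha : a ∉ E) (c : Finset ι → ℝ) (X : Finset ι) :
    FF E p c (insert a X) = FF E p c X := by
  refine sum_congr rfl fun S hS => ?_
  congr 1
  refine prod_congr rfl fun e he => ?_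
  have : e ≠ a := fun h => ha (h ▸ mem_powerset.1 hS he)
  simp [ch, this]

lemma FF_insert (ha : a ∉ E) (c : Finset ι → ℝ) (X : Finset ι) :
    FF (insert a E) p c X = FF E p c X + ch p a X * FF E p (fun S => c (insert a S)) X := by
  unfold FF
  rw [sum_powerset_insert ha, mul_sum]
  congr 1
  refine sum_congr rfl fun S hS => ?_
  rw [prod_insert fun h => ha (mem_powerset.1 hS h)]
  ring

lemma FF_one (ha : a ∉ E) (c : Finset ι → ℝ) (X : Finset ι) :
    FF (insert a E) p c (insert a X)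
      = FF E p c X + (1 - p a) * FF E p (fun S => c (insert a S)) X := by
  rw [FF_insert ha, FF_ins ha, FF_ins ha]
  simp [ch]

lemma FF_zero (ha : a ∉ E) (c : Finset ι → ℝ) {X : Finset ι} (hX : X ⊆ E) :
    FF (insert a E) p c X = FF E p c X - p a * FF E p (fun S => c (insert a S)) X := by
  rw [FF_insert ha, ch, if_neg fun h => ha (hX h)]
  ring

lemma sum_NN_insert (ha : a ∉ E) (φ : Finset ι → ℝ) :
    ∑ S ∈ (insert a E).powerset, NN p S * φ S = ∑ S ∈ E.powerset, NN p S * φ S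
      + p a * (1 - p a) * ∑ S ∈ E.powerset, NN p S * φ (insert a S) := by
  rw [sum_powerset_insert ha, mul_sum]
  congr 1
  refine sum_congr rfl fun S hS => ?_
  rw [NN, prod_insert fun h => ha (mem_powerset.1 hS h), NN]
  ring

lemma exists_FF (E : Finset ι) (p : ι → ℝ) (f : Finset ι → ℝ) :
    ∃ c, ∀ X ⊆ E, f X = FF E p c X := by
  induction E using Finset.induction_on generalizing f with
  | empty => exact ⟨fun _ => f ∅, fun X hX => by simp [FF, subset_empty.1 hX]⟩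
  | insert a E ha ih =>
    obtain ⟨c0, h0⟩ := ih fun X => p a * f (insert a X) + (1 - p a) * f X
    obtain ⟨c1, h1⟩ := ih fun X => f (insert a X) - f X
    set c : Finset ι → ℝ := fun S => if a ∈ S then c1 (S.erase a) else c0 S with hc
    have e0 : ∀ X, FF E p c X = FF E p c0 X := fun X => sum_congr rfl fun S hS => by
      simp only [hc]
      rw [if_neg fun h => ha (mem_powerset.1 hS h)]
    have e1 : ∀ X, FF E p (fun S => c (insert a S)) X = FF E p c1 X :=
      fun X => sum_congr rfl fun S hS => by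
        simp only [hc]
        rw [if_pos (mem_insert_self _ _), erase_insert fun h => ha (mem_powerset.1 hS h)]
    refine ⟨c, fun X hX => ?_⟩
    by_cases haX : a ∈ X
    · have hY : X.erase a ⊆ E := subset_insert_iff.1 hX
      rw [← insert_erase haX, FF_one ha, e0, e1, ← h0 _ hY, ← h1 _ hY]
      ring
    · have hY : X ⊆ E := (subset_insert_iff_of_notMem haX).1 hX
      rw [FF_zero ha _ hY, e0, e1, ← h0 _ hY, ← h1 _ hY, ]
      ring

lemma Ex_FF_insert (ha : a ∉ E) (G : ℝ → ℝ → ℝ) (c c' : Finset ι → ℝ) :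
    Ex (insert a E) p (fun X => G (FF (insert a E) p c X) (FF (insert a E) p c' X))
      = Ex E p fun X =>
        p a * G (FF E p c X + (1 - p a) * FF E p (fun S => c (insert a S)) X)
          (FF E p c' X + (1 - p a) * FF E p (fun S => c' (insert a S)) X)
        + (1 - p a) * G (FF E p c X - p a * FF E p (fun S => c (insert a S)) X)
          (FF E p c' X - p a * FF E p (fun S => c' (insert a S)) X) := by
  rw [Ex_insert ha, Ex_add, Ex_mul_left, Ex_mul_left]
  simp only [FF_one ha]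
  congr 2
  exact Ex_congr fun X hX => by rw [FF_zero ha _ hX, FF_zero ha _ hX]

lemma parseval (E : Finset ι) (p : ι → ℝ) (c c' : Finset ι → ℝ) :
    Ex E p (fun X => FF E p c X * FF E p c' X) = ∑ S ∈ E.powerset, NN p S * (c S * c' S) := by
  induction E using Finset.induction_on generalizing c c' with
  | empty => simp [FF, NN]
  | insert a E ha ih =>
    rw [Ex_FF_insert ha (fun x y => x * y), sum_NN_insert ha, ← ih, ← ih, ← Ex_mul_left, ← Ex_add]
    exact Ex_congr fun X _ => by ring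

lemma Ex_FF (E : Finset ι) (p : ι → ℝ) (c : Finset ι → ℝ) : Ex E p (FF E p c) = c ∅ := by
  induction E using Finset.induction_on generalizing c with
  | empty => simp [FF]
  | insert a E ha ih =>
    rw [← ih c]
    refine (Ex_FF_insert ha (fun x _ => x) c c).trans (Ex_congr fun X _ => by ring)

lemma Ex_cs (hp : ∀ e ∈ E, 0 ≤ p e ∧ p e ≤ 1) (f g : Finset ι → ℝ) :
    Ex E p (fun X => f X * g X) ^ 2 ≤ Ex E p (fun X => f X ^ 2) * Ex E p (fun X => g X ^ 2) := by
  have h := discrim_le_zero (a := Ex E p fun X => f X ^ 2)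
    (b := 2 * Ex E p fun X => f X * g X) (c := Ex E p fun X => g X ^ 2) fun t => by
      have h1 := Ex_nonneg hp (f := fun X => (t * f X + g X) ^ 2) fun X _ => sq_nonneg _
      have h2 : Ex E p (fun X => (t * f X + g X) ^ 2) = Ex E p fun X =>
          t * t * f X ^ 2 + 2 * t * (f X * g X) + g X ^ 2 := Ex_congr fun X _ => by ring
      rw [h2, Ex_add, Ex_add, Ex_mul_left, Ex_mul_left] at h1
      linarith
  rw [discrim] at h
  linarith

lemma le_of_sq_le_sq' {x y : ℝ} (h : x ^ 2 ≤ y ^ 2) (hy : 0 ≤ y) : x ≤ y :=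
  (abs_le_of_sq_le_sq' h hy).2

omit [DecidableEq ι] in
lemma NN_nonneg (hp : ∀ e ∈ E, 0 ≤ p e ∧ p e ≤ 1) {S : Finset ι} (hS : S ∈ E.powerset) :
    0 ≤ NN p S := prod_nonneg fun e he => by
  have := hp e (mem_powerset.1 hS he)
  exact mul_nonneg this.1 (sub_nonneg.2 this.2)

lemma one_var {q ρ : ℝ} (h0 : 0 ≤ q) (h1 : q ≤ 1) (h6 : 6 * ρ ^ 2 ≤ 1)
    (h5 : 5 * ρ ^ 4 ≤ q * (1 - q)) (x y : ℝ) :
    q * (x + (1 - q) * (ρ * y)) ^ 4 + (1 - q) * (x - q * (ρ * y)) ^ 4
      ≤ x ^ 4 + 2 * (q * (1 - q)) * (x ^ 2 * y ^ 2) + (q * (1 - q)) ^ 2 * y ^ 4 := by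
  set s := q * (1 - q) with hs
  have hs0 : 0 ≤ s := mul_nonneg h0 (sub_nonneg.2 h1)
  have e : q * (x + (1 - q) * (ρ * y)) ^ 4 + (1 - q) * (x - q * (ρ * y)) ^ 4
      = x ^ 4 + s * (6 * ρ ^ 2 * (x ^ 2 * y ^ 2) + 4 * ρ ^ 3 * (1 - 2 * q) * (x * y ^ 3)
        + ρ ^ 4 * (1 - 3 * s) * y ^ 4) := by
    rw [hs]
    ring
  have a1 : 4 * ρ ^ 3 * (1 - 2 * q) * (x * y ^ 3)
      ≤ x ^ 2 * y ^ 2 + 4 * (ρ ^ 6 * (1 - 2 * q) ^ 2) * y ^ 4 := by
    nlinarith [sq_nonneg (x * y - 2 * ρ ^ 3 * (1 - 2 * q) * y ^ 2)]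
  have a2 : ρ ^ 6 * (1 - 2 * q) ^ 2 ≤ ρ ^ 4 := by
    have b1 : (1 - 2 * q) ^ 2 ≤ 1 := by nlinarith
    have b2 : ρ ^ 2 ≤ 1 := by nlinarith
    calc _ = ρ ^ 4 * (ρ ^ 2 * (1 - 2 * q) ^ 2) := by ring
      _ ≤ ρ ^ 4 * (1 * 1) := by gcongr
      _ = _ := by ring
  have a3 : 6 * ρ ^ 2 * (x ^ 2 * y ^ 2) ≤ 1 * (x ^ 2 * y ^ 2) := by gcongr
  have a4 : (4 * (ρ ^ 6 * (1 - 2 * q) ^ 2) + ρ ^ 4 * (1 - 3 * s)) * y ^ 4 ≤ s * y ^ 4 := by
    have : 0 ≤ ρ ^ 4 * s := by positivity
    gcongr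
    nlinarith
  have a5 : 6 * ρ ^ 2 * (x ^ 2 * y ^ 2) + 4 * ρ ^ 3 * (1 - 2 * q) * (x * y ^ 3)
      + ρ ^ 4 * (1 - 3 * s) * y ^ 4 ≤ 2 * (x ^ 2 * y ^ 2) + s * y ^ 4 := by linarith
  rw [e]
  nlinarith [mul_le_mul_of_nonneg_left a5 hs0]

lemma bonami {ρ : ℝ} (h6 : 6 * ρ ^ 2 ≤ 1) (E : Finset ι)
    (hp : ∀ e ∈ E, 0 ≤ p e ∧ p e ≤ 1) (h5 : ∀ e ∈ E, 5 * ρ ^ 4 ≤ p e * (1 - p e))
    (c : Finset ι → ℝ) :
    Ex E p (fun X => FF E p (fun S => ρ ^ S.card * c S) X ^ 4)
      ≤ (∑ S ∈ E.powerset, NN p S * c S ^ 2) ^ 2 := by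
  induction E using Finset.induction_on generalizing c with
  | empty => simp [FF, NN, ← pow_mul]
  | insert a E ha ih =>
    have hpE : ∀ e ∈ E, 0 ≤ p e ∧ p e ≤ 1 := fun e he => hp e (mem_insert_of_mem he)
    have ih := ih hpE fun e he => h5 e (mem_insert_of_mem he)
    obtain ⟨h0, h1⟩ := hp a (mem_insert_self _ _)
    have hs0 : 0 ≤ p a * (1 - p a) := mul_nonneg h0 (sub_nonneg.2 h1)
    have e : ∀ X, FF E p (fun S => ρ ^ (insert a S).card * c (insert a S)) X
        = ρ * FF E p (fun S => ρ ^ S.card * c (insert a S)) X := fun X => by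
      unfold FF
      rw [mul_sum]
      refine sum_congr rfl fun S hS => ?_
      beta_reduce
      rw [card_insert_of_notMem fun h => ha (mem_powerset.1 hS h)]
      ring
    rw [Ex_FF_insert ha (fun x _ => x ^ 4) _ c, sum_NN_insert ha]
    simp only [e]
    have i0 := ih c
    have i1 := ih fun S => c (insert a S)
    set A := FF E p fun S => ρ ^ S.card * c S
    set B := FF E p fun S => ρ ^ S.card * c (insert a S)
    set al := ∑ S ∈ E.powerset, NN p S * c S ^ 2
    set be := ∑ S ∈ E.powerset, NN p S * c (insert a S) ^ 2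
    have al0 : 0 ≤ al := sum_nonneg fun S hS => mul_nonneg (NN_nonneg hpE hS) (sq_nonneg _)
    have be0 : 0 ≤ be := sum_nonneg fun S hS => mul_nonneg (NN_nonneg hpE hS) (sq_nonneg _)
    have i2 : Ex E p (fun X => A X ^ 2 * B X ^ 2) ≤ al * be := by
      refine le_of_sq_le_sq' ?_ (mul_nonneg al0 be0)
      refine (Ex_cs hpE _ _).trans ?_
      simp only [← pow_mul]
      rw [mul_pow]
      exact mul_le_mul i0 i1 (Ex_nonneg hpE fun X _ => Even.pow_nonneg (by decide) _)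
        (sq_nonneg _)
    refine (Ex_mono hpE fun X _ =>
      one_var h0 h1 h6 (h5 a (mem_insert_self _ _)) (A X) (B X)).trans ?_
    rw [Ex_add, Ex_add, Ex_mul_left, Ex_mul_left]
    nlinarith [mul_le_mul_of_nonneg_left i2 hs0,
      mul_le_mul_of_nonneg_left i1 (sq_nonneg (p a * (1 - p a)))]

lemma level {ρ : ℝ} (h6 : 6 * ρ ^ 2 ≤ 1)
    (hp : ∀ e ∈ E, 0 ≤ p e ∧ p e ≤ 1) (h5 : ∀ e ∈ E, 5 * ρ ^ 4 ≤ p e * (1 - p e))
    {c g : Finset ι → ℝ} (hg : ∀ X ⊆ E, g X = FF E p c X) (h01 : ∀ X ⊆ E, g X ^ 2 = g X)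
    {t : ℝ} (ht : 0 ≤ t) (hι : Ex E p g ≤ t ^ 2) :
    ∑ S ∈ E.powerset, NN p S * ((ρ ^ 2) ^ S.card * c S ^ 2) ≤ t * Ex E p g := by
  set A := ∑ S ∈ E.powerset, NN p S * ((ρ ^ 2) ^ S.card * c S ^ 2) with hA
  set h := FF E p fun S => ρ ^ S.card * (ρ ^ S.card * c S) with hh
  set μ := Ex E p g with hμ
  have eμ : Ex E p (fun X => g X ^ 2) = μ := Ex_congr h01
  have μ0 : 0 ≤ μ := eμ ▸ Ex_nonneg hp fun X _ => sq_nonneg _
  have h1 : Ex E p (fun X => h X ^ 4) ≤ A ^ 2 := by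
    refine (bonami h6 E hp h5 _).trans (le_of_eq ?_)
    congr 1
    exact sum_congr rfl fun S _ => by ring
  have h2 : Ex E p (fun X => g X * (g X * h X)) = A := by
    rw [Ex_congr (g := fun X => FF E p c X * h X) fun X hX => by
      rw [← mul_assoc, ← sq, h01 X hX, hg X hX], parseval]
    exact sum_congr rfl fun S _ => by ring
  have h3 := Ex_cs hp g fun X => g X * h X
  have h4 := Ex_cs hp g fun X => h X ^ 2
  have h5 : Ex E p (fun X => (g X * h X) ^ 2) = Ex E p fun X => g X * h X ^ 2 :=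
    Ex_congr fun X hX => by rw [mul_pow, h01 X hX]
  simp only [← pow_mul] at h4
  rw [h2, h5, eμ] at h3
  rw [eμ] at h4
  by_contra hlt
  push Not at hlt
  have A0 : 0 < A := lt_of_le_of_lt (mul_nonneg ht μ0) hlt
  set D := Ex E p fun X => g X * h X ^ 2
  have h7 : D ^ 2 ≤ (t * A) ^ 2 := by
    calc _ ≤ μ * A ^ 2 := h4.trans (by gcongr)
      _ ≤ t ^ 2 * A ^ 2 := by gcongr
      _ = _ := by ring
  have h8 : D ≤ t * A := le_of_sq_le_sq' h7 (by positivity)
  have h9 : μ * D ≤ μ * (t * A) := by gcongr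
  nlinarith

lemma sum_infl (r : ℝ) (c : Finset ι → ℝ) :
    ∑ T ∈ E.powerset, NN p T * (T.card * r ^ (T.card - 1) * c T ^ 2) = ∑ e ∈ E,
      p e * (1 - p e) * ∑ S ∈ (E.erase e).powerset, NN p S * (r ^ S.card * c (insert e S) ^ 2) := by
  have h1 : ∀ T ∈ E.powerset, NN p T * (T.card * r ^ (T.card - 1) * c T ^ 2)
      = ∑ e ∈ E, NN p T * (if e ∈ T then r ^ (T.card - 1) * c T ^ 2 else 0) := fun T hT => by
    rw [← mul_sum, ← sum_filter, filter_mem_eq_inter, inter_eq_right.2 (mem_powerset.1 hT),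
      sum_const, nsmul_eq_mul, mul_assoc]
  rw [sum_congr rfl h1, sum_comm]
  refine sum_congr rfl fun e he => ?_
  conv_lhs => rw [← insert_erase he]
  rw [sum_NN_insert (notMem_erase e E), sum_eq_zero fun S hS => by
    rw [if_neg fun h => notMem_erase e E (mem_powerset.1 hS h), mul_zero], zero_add]
  congr 1
  refine sum_congr rfl fun S hS => ?_
  rw [if_pos (mem_insert_self _ _),
    card_insert_of_notMem fun h => notMem_erase e E (mem_powerset.1 hS h), Nat.add_sub_cancel]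

lemma Inf_nonneg (hp : ∀ e ∈ E, 0 ≤ p e ∧ p e ≤ 1) {f : Finset ι → ℝ} (hm : Monotone f) (e : ι) :
    0 ≤ Inf E p f e :=
  Ex_nonneg (fun a ha => hp a (mem_of_mem_erase ha)) fun X _ =>
    sub_nonneg.2 (hm (subset_insert e X))

theorem kkl {η K ζ : ℝ} (hη : 0 < η) (hK : 0 < K) (hζ : 0 < ζ) : ∃ t : ℝ, 0 < t ∧
    ∀ {ι : Type} [DecidableEq ι] (E : Finset ι) (p : ι → ℝ) (f : Finset ι → ℝ),
      (∀ e ∈ E, η ≤ p e ∧ p e ≤ 1 - η) → Monotone f → (∀ X, f X = 0 ∨ f X = 1) →
      ∑ e ∈ E, Inf E p f e ≤ K → (∀ e ∈ E, Inf E p f e ≤ t) →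
      Ex E p f * (1 - Ex E p f) ≤ ζ := by
  obtain ⟨m, hm⟩ := exists_nat_ge (2 * K / ζ)
  have hm0 : (0 : ℝ) < m := lt_of_lt_of_le (by positivity) hm
  set ρ := min η 1 / 4 with hρ
  have ρ0 : 0 < ρ := by positivity
  have ρ1 : ρ ≤ 1 / 4 := by rw [hρ]; linarith [min_le_right η 1]
  have ρ2 : ρ ≤ η / 4 := by rw [hρ]; linarith [min_le_left η 1]
  set u := ζ / 2 * (ρ ^ 2) ^ m / K with hu
  have u0 : 0 < u := by positivity
  refine ⟨u ^ 2, by positivity, fun E p f hp hm' h01 hK' ht => ?_⟩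
  have hp' : ∀ e ∈ E, 0 ≤ p e ∧ p e ≤ 1 := fun e he => by
    constructor <;> linarith [(hp e he).1, (hp e he).2]
  have hs1 : ∀ e ∈ E, 0 ≤ p e * (1 - p e) ∧ p e * (1 - p e) ≤ 1 := fun e he => by
    constructor <;> nlinarith [(hp' e he).1, (hp' e he).2]
  have h6 : 6 * ρ ^ 2 ≤ 1 := by nlinarith
  have h5 : ∀ e ∈ E, 5 * ρ ^ 4 ≤ p e * (1 - p e) := fun e he => by
    have b1 : η * η ≤ p e * (1 - p e) :=
      mul_le_mul (hp e he).1 (by linarith [(hp e he).2]) hη.le (hp' e he).1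
    have b2 : ρ ^ 2 ≤ (η / 4) ^ 2 := by gcongr
    have b3 : ρ ^ 4 = ρ ^ 2 * ρ ^ 2 := by ring
    nlinarith [sq_nonneg ρ]
  obtain ⟨c, hc⟩ := exists_FF E p f
  have hD : ∀ e ∈ E, ∀ X ⊆ E.erase e,
      f (insert e X) - f X = FF (E.erase e) p (fun S => c (insert e S)) X := by
    intro e he X hX
    have b1 := FF_one (p := p) (notMem_erase e E) c X
    have b2 := FF_zero (p := p) (notMem_erase e E) c hX
    rw [insert_erase he] at b1 b2
    rw [hc X (hX.trans (erase_subset _ _)), hc _ (insert_subset he (hX.trans (erase_subset _ _))),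
      b1, b2]
    ring
  have hD2 : ∀ e X, (f (insert e X) - f X) ^ 2 = f (insert e X) - f X := fun e X => by
    have := hm' (subset_insert e X)
    rcases h01 X with h | h <;> rcases h01 (insert e X) with h' | h' <;> rw [h, h'] at this ⊢ <;>
      linarith
  have k1 : ∑ T ∈ E.powerset, NN p T * (T.card * 1 ^ (T.card - 1) * c T ^ 2) ≤ K := by
    rw [sum_infl]
    refine le_trans (sum_le_sum fun e he => ?_) hK'
    have : ∑ S ∈ (E.erase e).powerset, NN p S * (1 ^ S.card * c (insert e S) ^ 2)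
        = Inf E p f e := by
      rw [Inf, Ex_congr (g := fun X => FF (E.erase e) p (fun S => c (insert e S)) X *
        FF (E.erase e) p (fun S => c (insert e S)) X) fun X hX => by
          rw [← hD2, hD e he X hX, sq], parseval]
      exact sum_congr rfl fun S _ => by ring
    rw [this]
    exact mul_le_of_le_one_left (Inf_nonneg hp' hm' e) (hs1 e he).2
  have k2 : ∑ T ∈ E.powerset, NN p T * (T.card * (ρ ^ 2) ^ (T.card - 1) * c T ^ 2) ≤ u * K := by
    rw [sum_infl]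
    refine le_trans (sum_le_sum fun e he => ?_)
      ((mul_sum E (Inf E p f) u).symm.le.trans (by gcongr))
    have := level h6 (fun a ha => hp' a (mem_of_mem_erase ha))
      (fun a ha => h5 a (mem_of_mem_erase ha)) (hD e he) (fun X _ => hD2 e X) u0.le (ht e he)
    refine (mul_le_mul_of_nonneg_left this (hs1 e he).1).trans ?_
    exact mul_le_of_le_one_left (mul_nonneg u0.le (Inf_nonneg hp' hm' e)) (hs1 e he).2
  have e1 : Ex E p f = c ∅ := (Ex_congr hc).trans (Ex_FF E p c)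
  have e2 : Ex E p f = ∑ T ∈ E.powerset, NN p T * (c T * c T) := by
    rw [← parseval]
    refine Ex_congr fun X hX => ?_
    rw [← hc X hX]
    rcases h01 X with h | h <;> simp [h]
  have k3 : ∑ T ∈ E.powerset, NN p T * (c T * c T) ≤ ∑ T ∈ E.powerset,
      ((if T = ∅ then c ∅ * c ∅ else 0)
        + (m : ℝ)⁻¹ * (NN p T * (T.card * 1 ^ (T.card - 1) * c T ^ 2))
        + ((ρ ^ 2) ^ m)⁻¹ * (NN p T * (T.card * (ρ ^ 2) ^ (T.card - 1) * c T ^ 2))) := by
    refine sum_le_sum fun T hT => ?_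
    have n0 := NN_nonneg hp' hT
    by_cases h0 : T = ∅
    · simp [h0, NN]
    rw [if_neg h0, zero_add]
    have c1 : (1 : ℝ) ≤ T.card := by exact_mod_cast card_pos.2 (nonempty_iff_ne_empty.2 h0)
    have key : 1 ≤ (m : ℝ)⁻¹ * T.card + ((ρ ^ 2) ^ m)⁻¹ * (T.card * (ρ ^ 2) ^ (T.card - 1)) := by
      rcases le_total m T.card with h | h
      · refine le_add_of_le_of_nonneg ?_ (by positivity)
        rw [← div_eq_inv_mul, one_le_div hm0]
        exact_mod_cast h
      · refine le_add_of_nonneg_of_le (by positivity) ?_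
        rw [← div_eq_inv_mul, one_le_div (by positivity)]
        exact (pow_le_pow_of_le_one (by positivity) (by nlinarith) (by omega)).trans
          (le_mul_of_one_le_left (by positivity) c1)
    have := mul_le_mul_of_nonneg_left key (mul_nonneg n0 (sq_nonneg (c T)))
    rw [one_pow]
    nlinarith
  rw [sum_add_distrib, sum_add_distrib, ← mul_sum, ← mul_sum, sum_ite_eq',
    if_pos (empty_mem_powerset E), ← e2, ← e1] at k3
  have k4 : (m : ℝ)⁻¹ * K ≤ ζ / 2 := by
    rw [← div_eq_inv_mul, div_le_iff₀ hm0]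
    rw [div_le_iff₀ hζ] at hm
    linarith
  have k5 : ((ρ ^ 2) ^ m)⁻¹ * (u * K) = ζ / 2 := by
    rw [hu]
    field_simp
  have k6 := mul_le_mul_of_nonneg_left k1 (inv_pos.2 hm0).le
  have k7 := mul_le_mul_of_nonneg_left k2 (inv_pos.2 (by positivity : 0 < (ρ ^ 2) ^ m)).le
  nlinarith

lemma russo (E : Finset ι) (w : ι → ℝ) (f : Finset ι → ℝ) (l : ℝ) :
    HasDerivAt (fun l => Ex E (fun e => l * w e) f)
      (∑ e ∈ E, w e * Inf E (fun e => l * w e) f e) l := by
  induction E using Finset.induction_on generalizing f with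
  | empty => simpa using hasDerivAt_const l (f ∅)
  | insert a E ha ih =>
    simp only [Ex_insert ha]
    have h1 := ((hasDerivAt_id' l).mul_const (w a))
    refine ((h1.fun_mul (ih fun X => f (insert a X))).fun_add
      ((h1.const_sub 1).fun_mul (ih f))).congr_deriv ?_
    have e : ∀ e ∈ E, w e * Inf (insert a E) (fun e => l * w e) f e
        = l * w a * (w e * Inf E (fun e => l * w e) (fun X => f (insert a X)) e)
          + (1 - l * w a) * (w e * Inf E (fun e => l * w e) f e) := fun e he => by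
      have hne : a ≠ e := fun h => ha (h ▸ he)
      rw [Inf, erase_insert_of_ne hne, Ex_insert fun h => ha (mem_of_mem_erase h), Inf, Inf]
      simp only [insert_comm e a]
      ring
    rw [sum_insert ha, sum_congr rfl e, sum_add_distrib, ← mul_sum, ← mul_sum, Inf,
      erase_insert ha, Ex_sub]
    ring

lemma Ex_mono_p (E : Finset ι) {p p' : ι → ℝ} (hp : ∀ e ∈ E, 0 ≤ p e ∧ p e ≤ p' e ∧ p' e ≤ 1)
    {f : Finset ι → ℝ} (hf : Monotone f) : Ex E p f ≤ Ex E p' f := by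
  induction E using Finset.induction_on generalizing f with
  | empty => simp
  | insert a E ha ih =>
    have hpE := fun e he => hp e (mem_insert_of_mem (b := a) he)
    obtain ⟨h0, h1, h2⟩ := hp a (mem_insert_self _ _)
    have i1 := ih hpE (f := fun X => f (insert a X)) fun X Y h => hf (insert_subset_insert a h)
    have i2 := ih hpE hf
    have i3 : Ex E p' f ≤ Ex E p' fun X => f (insert a X) :=
      Ex_mono (fun e he => ⟨(hpE e he).1.trans (hpE e he).2.1, (hpE e he).2.2⟩)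
        fun X _ => hf (subset_insert a X)
    rw [Ex_insert ha, Ex_insert ha]
    nlinarith [mul_le_mul_of_nonneg_left i1 h0,
      mul_le_mul_of_nonneg_left i2 (sub_nonneg.2 (h1.trans h2)),
      mul_le_mul_of_nonneg_left i3 (sub_nonneg.2 h1)]

theorem sharp {η h ζ : ℝ} (hη : 0 < η) (hh : 0 < h) (hζ : 0 < ζ) : ∃ R : ℝ, 0 < R ∧
    ∀ {ι : Type} [DecidableEq ι] (E : Finset ι) (w : ι → ℝ) (f : Finset ι → ℝ),
      (∀ e ∈ E, η ≤ w e ∧ w e ≤ 1 - η) → Monotone f → (∀ X, f X = 0 ∨ f X = 1) →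
      (∀ l : ℝ, 0 ≤ l → l ≤ 1 → ∀ e ∈ E, R * Inf E (fun e => l * w e) f e
        ≤ ∑ e ∈ E, Inf E (fun e => l * w e) f e) →
      ∀ l l' : ℝ, 1 / 2 ≤ l → l + h ≤ l' → l' ≤ 1 → ζ < Ex E (fun e => l * w e) f →
        1 - ζ ≤ Ex E (fun e => l' * w e) f := by
  obtain ⟨t, ht, H⟩ := kkl (η := η / 2) (K := 1 / (η * h)) (ζ := ζ ^ 2) (by positivity)
    (by positivity) (by positivity)
  refine ⟨1 / (η * h) / t, by positivity, fun E w f hw hm h01 hs l l' h1 h2 h3 h4 => ?_⟩
  by_contra h5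
  push Not at h5
  have mono : ∀ x y : ℝ, 0 ≤ x → x ≤ y → y ≤ 1 →
      Ex E (fun e => x * w e) f ≤ Ex E (fun e => y * w e) f := fun x y a1 a2 a3 =>
    Ex_mono_p E (fun e he => by
      have := hw e he
      refine ⟨?_, ?_, ?_⟩ <;> nlinarith) hm
  obtain ⟨ξ, hξ, hd⟩ := exists_hasDerivAt_eq_slope (fun l => Ex E (fun e => l * w e) f) _
    (show l < l' by linarith) (fun x _ => (russo E w f x).continuousAt.continuousWithinAt)
    fun x _ => russo E w f x
  have a1 := mono l ξ (by linarith) hξ.1.le (by linarith [hξ.2])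
  have a2 := mono ξ l' (by linarith [hξ.1]) hξ.2.le h3
  have hp : ∀ e ∈ E, η / 2 ≤ ξ * w e ∧ ξ * w e ≤ 1 - η / 2 := fun e he => by
    have := hw e he
    constructor <;> nlinarith [hξ.1, hξ.2]
  have hp' : ∀ e ∈ E, 0 ≤ ξ * w e ∧ ξ * w e ≤ 1 := fun e he => by
    constructor <;> linarith [(hp e he).1, (hp e he).2]
  have a3 : η * ∑ e ∈ E, Inf E (fun e => ξ * w e) f e ≤ 1 / h := by
    rw [mul_sum]
    refine (sum_le_sum fun e he =>
      mul_le_mul_of_nonneg_right (hw e he).1 (Inf_nonneg hp' hm e)).trans ?_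
    rw [hd]
    exact div_le_div₀ zero_le_one (by linarith) hh (by linarith)
  have a4 : ∑ e ∈ E, Inf E (fun e => ξ * w e) f e ≤ 1 / (η * h) := by
    rw [le_div_iff₀ (by positivity)]
    rw [le_div_iff₀ hh] at a3
    linarith
  have a5 := H E _ f hp hm h01 a4 fun e he => by
    have := (hs ξ (by linarith [hξ.1]) (by linarith [hξ.2]) e he).trans a4
    rw [div_mul_eq_mul_div, div_le_iff₀ ht] at this
    exact le_of_mul_le_mul_left this (by positivity)
  nlinarith

lemma Ex_map (φ : ι ≃ ι) (E : Finset ι) (p : ι → ℝ) (f : Finset ι → ℝ) :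
    Ex (E.map φ.toEmbedding) p f = Ex E (fun e => p (φ e)) fun X => f (X.map φ.toEmbedding) := by
  induction E using Finset.induction_on generalizing f with
  | empty => simp
  | insert a E ha ih =>
    rw [map_insert, Ex_insert (by simpa using ha), Ex_insert ha, ih, ih]
    simp only [map_insert, Equiv.coe_toEmbedding]

end KKL

end Pool.Agent.P.MP_2d96df_co
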