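import Pool.Agent.P.MP_2d96df_co.KKL
import Pool.Agent.P.MP_2d96df_co.Bal

/-! Multi-type random bipartite graphs below the rate are almost independent. -/

namespace Pool.Agent.P.MP_2d96df_co

open Finset KKL Bal

namespace MT

variable {n d L : ℕ} {W : Type} [AddCommGroup W] [Module ℝ W] {v : Fin n × Fin n → W}

open Classical in
/-- indicator that `e` is spanned by the other members of `X` -/
noncomputable def fe (v : Fin n × Fin n → W) (e : Fin n × Fin n) (X : Finset (Fin n × Fin n)) :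
    ℝ := if v e ∈ sp v (X.erase e) then 1 else 0

lemma fe01 (e : Fin n × Fin n) (X : Finset (Fin n × Fin n)) : fe v e X = 0 ∨ fe v e X = 1 := by
  unfold fe
  split_ifs <;> simp

lemma fe_nonneg (e : Fin n × Fin n) (X : Finset (Fin n × Fin n)) : 0 ≤ fe v e X := by
  rcases fe01 (v := v) e X with h | h <;> simp [h]

lemma fe_le (e : Fin n × Fin n) (X : Finset (Fin n × Fin n)) : fe v e X ≤ 1 := by
  rcases fe01 (v := v) e X with h | h <;> simp [h]

lemma fe_mono (e : Fin n × Fin n) : Monotone (fe v e) := fun X Y h => by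
  by_cases h1 : v e ∈ sp v (X.erase e)
  · rw [fe, fe, if_pos h1, if_pos (sp_mono v (erase_subset_erase e h) h1)]
  · rw [fe, if_neg h1]
    exact fe_nonneg e Y

lemma fe_map (H : BipOK n d v) (σ τ : Equiv.Perm (Fin n)) (e : Fin n × Fin n)
    (X : Finset (Fin n × Fin n)) :
    fe v (Equiv.prodCongr σ τ e) (X.map (Equiv.prodCongr σ τ).toEmbedding) = fe v e X := by
  have h : v (Equiv.prodCongr σ τ e) ∈ sp v ((X.map (Equiv.prodCongr σ τ).toEmbedding).erase
      (Equiv.prodCongr σ τ e)) ↔ v e ∈ sp v (X.erase e) := by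
    rw [mem_sp_iff_rk, mem_sp_iff_rk, ← H.perm σ τ (insert e _), ← H.perm σ τ (X.erase e),
      map_insert, map_erase]
    rfl
  unfold fe
  rw [propext h]

variable (α β : Fin n → Fin L)

/-- pairs whose type lies in `P` -/
def KP (P : Finset (Fin L × Fin L)) : Finset (Fin n × Fin n) :=
  univ.filter fun e => (α e.1, β e.2) ∈ P

variable {α β}

lemma mem_KP {P : Finset (Fin L × Fin L)} {e : Fin n × Fin n} :
    e ∈ KP α β P ↔ (α e.1, β e.2) ∈ P := by simp [KP]

variable {σ τ : Equiv.Perm (Fin n)} {P : Finset (Fin L × Fin L)}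

lemma KP_map (hσ : ∀ i, α (σ i) = α i) (hτ : ∀ i, β (τ i) = β i) :
    (KP α β P).map (Equiv.prodCongr σ τ).toEmbedding = KP α β P := by
  ext e
  obtain ⟨b, rfl⟩ := (Equiv.prodCongr σ τ).surjective e
  rw [← Equiv.coe_toEmbedding, mem_map', mem_KP, mem_KP]
  simp [hσ, hτ]

lemma beta_symm (H : BipOK n d v) (hσ : ∀ i, α (σ i) = α i) (hτ : ∀ i, β (τ i) = β i)
    (u : Fin L → Fin L → ℝ) (e : Fin n × Fin n) :
    Ex (KP α β P) (fun e => u (α e.1) (β e.2)) (fe v (Equiv.prodCongr σ τ e))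
      = Ex (KP α β P) (fun e => u (α e.1) (β e.2)) (fe v e) := by
  conv_lhs => rw [← KP_map hσ hτ, Ex_map]
  simp only [fe_map H]
  simp [hσ, hτ]

lemma beta_type (H : BipOK n d v) (u : Fin L → Fin L → ℝ) {e e' : Fin n × Fin n}
    (h : (α e.1, β e.2) = (α e'.1, β e'.2)) :
    Ex (KP α β P) (fun e => u (α e.1) (β e.2)) (fe v e')
      = Ex (KP α β P) (fun e => u (α e.1) (β e.2)) (fe v e) := by
  rw [Prod.mk.injEq] at h
  rw [← beta_symm H (Equiv.apply_swap_eq_self h.1) (Equiv.apply_swap_eq_self h.2) u e]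
  congr 2
  ext <;> simp

lemma Inf_symm (H : BipOK n d v) (hσ : ∀ i, α (σ i) = α i) (hτ : ∀ i, β (τ i) = β i)
    (u : Fin L → Fin L → ℝ) {e0 : Fin n × Fin n} (h0 : Equiv.prodCongr σ τ e0 = e0)
    (e : Fin n × Fin n) :
    Inf (KP α β P) (fun e => u (α e.1) (β e.2)) (fe v e0) (Equiv.prodCongr σ τ e)
      = Inf (KP α β P) (fun e => u (α e.1) (β e.2)) (fe v e0) e := by
  have h1 : ∀ X, fe v e0 (X.map (Equiv.prodCongr σ τ).toEmbedding) = fe v e0 X := fun X => by
    conv_lhs => rw [← h0]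
    exact fe_map H σ τ e0 X
  have h2 : (KP α β P).erase (Equiv.prodCongr σ τ e)
      = ((KP α β P).erase e).map (Equiv.prodCongr σ τ).toEmbedding := by
    rw [map_erase, KP_map hσ hτ]
    rfl
  have h3 : ∀ X : Finset (Fin n × Fin n), insert (Equiv.prodCongr σ τ e)
      (X.map (Equiv.prodCongr σ τ).toEmbedding)
      = (insert e X).map (Equiv.prodCongr σ τ).toEmbedding := fun X => (map_insert _ _ _).symm
  rw [Inf, h2, Ex_map, Inf]
  simp only [h3, h1]
  simp [hσ, hτ]

lemma orbit_aux {κ : Type} [DecidableEq κ] {K : Finset κ} {I : κ → ℝ} (hI : ∀ e, 0 ≤ I e)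
    {C : Finset (Fin n)} {R : ℝ} (hC : R + 1 ≤ C.card) (j0 : Fin n) {g : Fin n → κ}
    (hg : Function.Injective g) {e : κ} (h1 : ∀ j ∈ C, j ≠ j0 → g j ∈ K ∧ I (g j) = I e) :
    R * I e ≤ ∑ e ∈ K, I e := by
  have h2 : R ≤ (C.erase j0).card := by
    have : C.card ≤ (C.erase j0).card + 1 := by
      have := pred_card_le_card_erase (s := C) (a := j0)
      omega
    have : (C.card : ℝ) ≤ (C.erase j0).card + 1 := by exact_mod_cast this
    linarith
  calc _ ≤ (C.erase j0).card * I e := mul_le_mul_of_nonneg_right h2 (hI e)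
    _ = ∑ j ∈ C.erase j0, I (g j) := by
        rw [sum_congr rfl fun j hj => (h1 j (mem_of_mem_erase hj) (ne_of_mem_erase hj)).2]
        simp
    _ = ∑ e ∈ (C.erase j0).image g, I e := (sum_image hg.injOn).symm
    _ ≤ _ := by
        refine sum_le_sum_of_subset_of_nonneg (fun x hx => ?_) fun e _ _ => hI e
        obtain ⟨j, hj, rfl⟩ := mem_image.1 hx
        exact (h1 j (mem_of_mem_erase hj) (ne_of_mem_erase hj)).1

lemma orbit (H : BipOK n d v) (u : Fin L → Fin L → ℝ) (hu : ∀ i j, 0 ≤ u i j ∧ u i j ≤ 1) {R : ℝ}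
    (hP : ∀ q ∈ P, R + 1 ≤ (univ.filter fun i => α i = q.1).card ∧
      R + 1 ≤ (univ.filter fun i => β i = q.2).card) (e0 : Fin n × Fin n) {e : Fin n × Fin n}
    (he : e ∈ KP α β P) :
    R * Inf (KP α β P) (fun e => u (α e.1) (β e.2)) (fe v e0) e
      ≤ ∑ e ∈ KP α β P, Inf (KP α β P) (fun e => u (α e.1) (β e.2)) (fe v e0) e := by
  have hI := Inf_nonneg (E := KP α β P) (p := fun e => u (α e.1) (β e.2)) (fun e _ => hu _ _)
    (fe_mono (v := v) e0)
  rw [mem_KP] at he
  by_cases h2 : e.2 = e0.2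
  · by_cases h1 : e.1 = e0.1
    · have : Inf (KP α β P) (fun e => u (α e.1) (β e.2)) (fe v e0) e = 0 := by
        have : ∀ X, fe v e0 (insert e0 X) = fe v e0 X := fun X => by
          unfold fe
          rw [erase_insert_eq_erase]
        rw [Prod.ext h1 h2]
        simp [Inf, this, Ex_const]
      rw [this, mul_zero]
      exact sum_nonneg fun e _ => hI e
    · refine orbit_aux hI (hP _ he).1 e0.1 (g := fun j => (j, e.2))
        (fun _ _ h => congrArg Prod.fst h) fun j hj hj0 => ?_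
      have hj' : α j = α e.1 := (mem_filter.1 hj).2
      refine ⟨mem_KP.2 (by simpa [hj'] using he), ?_⟩
      rw [← Inf_symm H (τ := 1) (Equiv.apply_swap_eq_self hj'.symm) (fun _ => rfl) u (by
        ext <;> simp [Equiv.swap_apply_of_ne_of_ne (Ne.symm h1) hj0.symm]) e]
      congr 1
      ext <;> simp
  · refine orbit_aux hI (hP _ he).2 e0.2 (g := fun j => (e.1, j))
      (fun _ _ h => congrArg Prod.snd h) fun j hj hj0 => ?_
    have hj' : β j = β e.2 := (mem_filter.1 hj).2
    refine ⟨mem_KP.2 (by simpa [hj'] using he), ?_⟩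
    rw [← Inf_symm H (σ := 1) (fun _ => rfl) (Equiv.apply_swap_eq_self hj'.symm) u (by
      ext <;> simp [Equiv.swap_apply_of_ne_of_ne (Ne.symm h2) hj0.symm]) e]
    congr 1
    ext <;> simp

/-- nullity -/
noncomputable def nul (v : Fin n × Fin n → W) (X : Finset (Fin n × Fin n)) : ℝ :=
  (X.card : ℝ) - rk v X

lemma nul_lip (X : Finset (Fin n × Fin n)) (e : Fin n × Fin n) :
    |nul v (insert e X) - nul v X| ≤ 1 := by
  by_cases h : e ∈ X
  · simp [insert_eq_of_mem h]
  · have h1 : (rk v (insert e X) : ℝ) ≤ rk v X + 1 := by exact_mod_cast rk_insert_le v e X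
    have h2 : (rk v X : ℝ) ≤ rk v (insert e X) := by
      exact_mod_cast rk_mono v (subset_insert e X)
    rw [nul, nul, card_insert_of_notMem h, abs_le]
    push_cast
    constructor <;> linarith

lemma nul_drop (X K : Finset (Fin n × Fin n)) :
    nul v X ≤ nul v (X ∩ K) + (X ∩ Kᶜ).card := by
  have h1 : (rk v (X ∩ K) : ℝ) ≤ rk v X := by exact_mod_cast rk_mono v inter_subset_left
  have h2 : ((X ∩ K).card : ℝ) + (X ∩ Kᶜ).card = X.card := by
    rw [← sdiff_eq_inter_compl]
    exact_mod_cast card_inter_add_card_sdiff X K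
  unfold nul
  linarith

lemma nul_block {X K : Finset (Fin n × Fin n)} (hX : X ⊆ K) (K' : Finset (Fin n × Fin n)) :
    nul v X ≤ nul v (X ∩ K') + ∑ e ∈ K \ K', fe v e X := by
  classical
  set B := (X \ K').filter fun e => v e ∉ sp v (X.erase e) with hB
  have hBX : B ⊆ X := (filter_subset _ _).trans sdiff_subset
  have h1 := rk_union_bridges v X (X ∩ K') B inter_subset_left hBX
    (disjoint_left.2 fun e he he' => (mem_sdiff.1 (mem_filter.1 he').1).2 (mem_inter.1 he).2)
    fun e he => (mem_filter.1 he).2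
  have h2 := rk_mono v (union_subset (inter_subset_left (s₁ := X) (s₂ := K')) hBX)
  have h3 : (rk v (X ∩ K') : ℝ) + B.card ≤ rk v X := by exact_mod_cast h1 ▸ h2
  have h4 : ((X ∩ K').card : ℝ) + (X \ K').card = X.card := by
    exact_mod_cast card_inter_add_card_sdiff X K'
  have h5 : ((X \ K').card : ℝ) = B.card + ∑ e ∈ X \ K', fe v e X := by
    rw [hB, card_filter, card_eq_sum_ones]
    push_cast
    rw [← sum_add_distrib]
    refine sum_congr rfl fun e _ => ?_
    unfold fe
    split_ifs <;> simp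
  have h6 : ∑ e ∈ X \ K', fe v e X ≤ ∑ e ∈ K \ K', fe v e X :=
    sum_le_sum_of_subset_of_nonneg (sdiff_subset_sdiff hX Subset.rfl) fun e _ _ => fe_nonneg e X
  unfold nul
  linarith

lemma rk_le (K X : Finset (Fin n × Fin n)) :
    (rk v K : ℝ) ≤ (X ∩ univ).card + ∑ e ∈ K, (1 - fe v e X) := by
  classical
  have h1 := rk_le_add_card_filter v K X
  have h2 := rk_le_card v X
  have h3 : (((K.filter fun e => v e ∉ sp v X).card : ℕ) : ℝ) ≤ ∑ e ∈ K, (1 - fe v e X) := by
    rw [card_filter]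
    push_cast
    refine sum_le_sum fun e _ => ?_
    split_ifs with h
    · linarith [fe_le (v := v) e X]
    · rw [fe, if_neg fun h' => h (sp_mono v (erase_subset _ _) h'), sub_zero]
  have h4 : (rk v K : ℝ) ≤ X.card + ((K.filter fun e => v e ∉ sp v X).card : ℕ) := by
    exact_mod_cast h1.trans (Nat.add_le_add_right h2 _)
  rw [inter_univ]
  linarith

lemma small_class (α : Fin n → Fin L) {c : ℝ} (hc : 0 ≤ c) :
    ∑ i : Fin n, (if ((univ.filter fun j => α j = α i).card : ℝ) < c then (1 : ℝ) else 0)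
      ≤ L * c := by
  rw [← sum_fiberwise univ α]
  calc _ ≤ ∑ _k : Fin L, c := by
        refine sum_le_sum fun k _ => ?_
        rw [sum_congr rfl (g := fun _ =>
          if ((univ.filter fun j => α j = k).card : ℝ) < c then (1 : ℝ) else 0)
          fun i hi => by rw [(mem_filter.1 hi).2], sum_const, nsmul_eq_mul]
        split_ifs with h
        · linarith
        · linarith
    _ = _ := by simp

end MT

open MT

/-- multi-type random bipartite graphs below the rate are almost independent -/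
theorem multi_type (η δ : ℝ) (hη : 0 < η) (hδ : 0 < δ) :
    ∃ γ : ℝ, 0 < γ ∧ ∀ ε : ℝ, 0 < ε → ∀ L : ℕ, ∃ N0 : ℕ, ∀ n0 : ℕ, N0 ≤ n0 → ∀ d0 : ℕ,
      η * n0 ≤ d0 → (d0 : ℝ) ≤ (1 - η) * n0 →
      ∀ {W : Type} [AddCommGroup W] [Module ℝ W] (v : Fin n0 × Fin n0 → W), BipOK n0 d0 v →
      ∀ (α β : Fin n0 → Fin L) (w : Fin L → Fin L → ℝ), (∀ i j, 0 ≤ w i j ∧ w i j ≤ 1) →
      (((univ.filter fun e : Fin n0 × Fin n0 =>
          1 - (1 - (d0 : ℝ) / n0) ^ 2 + γ < w (α e.1) (β e.2)).card : ℝ) ≤ ε * (n0 : ℝ) ^ 2) →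
      (∑ e : Fin n0 × Fin n0, w (α e.1) (β e.2)
          ≤ (1 - (1 - (d0 : ℝ) / n0) ^ 2 - δ) * (n0 : ℝ) ^ 2) →
      Ex univ (fun e : Fin n0 × Fin n0 => w (α e.1) (β e.2))
        (fun X => (X.card : ℝ) - rk v X) ≤ 6 * ε * (n0 : ℝ) ^ 2 := by
  obtain ⟨J, hJ⟩ := exists_pow_lt_of_lt_one (show 0 < η ^ 2 by positivity)
    (show 1 - δ / 2 < 1 by linarith)
  set γ := min (η ^ 6 / (2 * (J + 1)) / 3) (η ^ 2 / 2) with hγ
  have γ0 : 0 < γ := by positivity
  have γ1 : γ ≤ η ^ 6 / (2 * (J + 1)) / 3 := min_le_left _ _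
  have γ2 : γ ≤ η ^ 2 / 2 := min_le_right _ _
  refine ⟨γ, γ0, fun ε hε L => ?_⟩
  set ζ := min (ε / (2 * (L ^ 2 + 1))) (min γ (δ / 4)) with hζ
  have ζ0 : 0 < ζ := by positivity
  have ζ1 : ζ * (2 * (L ^ 2 + 1)) ≤ ε := (le_div_iff₀ (by positivity)).1 (min_le_left _ _)
  have ζ2 : ζ ≤ γ := (min_le_right _ _).trans (min_le_left _ _)
  have ζ3 : ζ ≤ δ / 4 := (min_le_right _ _).trans (min_le_right _ _)
  set M := Fintype.card (Finset (Fin L × Fin L) × (Fin L × Fin L)) + 1 with hM
  have M0 : (0 : ℝ) < M := by positivity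
  obtain ⟨R, R0, hR⟩ := sharp (η := min ε (η ^ 2 / 2)) (h := ε / M) (ζ := ζ) (by positivity)
    (by positivity) ζ0
  obtain ⟨N0, hN0⟩ := exists_nat_ge (1 + 4 / η ^ 4 + (R + 1) * (L + 1) / ε)
  refine ⟨N0, fun n hn d hd1 hd2 W _ _ v H α β w hw h1 h2 => ?_⟩
  have hn' : 1 + 4 / η ^ 4 + (R + 1) * (L + 1) / ε ≤ n := hN0.trans (by exact_mod_cast hn)
  have q1 : 0 < 4 / η ^ 4 := by positivity
  have q2 : 0 < (R + 1) * (L + 1) / ε := by positivity
  have n0 : (0 : ℝ) < n := by linarith
  have n1 : 0 < n := by exact_mod_cast n0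
  have n2 : 4 ≤ η ^ 4 * n := by
    rw [← div_le_iff₀' (by positivity)]
    linarith
  set c := ε * n / (L + 1) with hc
  have c0 : 0 < c := by positivity
  have n3 : R + 1 ≤ c := by
    rw [hc, le_div_iff₀ (by positivity), ← div_le_iff₀' hε]
    linarith
  have hdn : d ≤ n := by
    have : (d : ℝ) ≤ n := by linarith [mul_pos hη n0]
    exact_mod_cast this
  set a := 1 - (1 - (d : ℝ) / n) ^ 2 with ha
  have a1 : η ^ 2 ≤ 1 - a := by
    rw [ha, sub_sub_cancel]
    gcongr
    rw [le_sub_comm, div_le_iff₀ n0]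
    exact hd2
  set N := (n : ℝ) ^ 2 with hN
  have N0' : 0 < N := by positivity
  change Ex univ _ (nul v) ≤ _
  by_contra hcon
  push Not at hcon
  have ε1 : ε ≤ 1 / 2 := by
    have b1 := Ex_mono (E := univ) (p := fun e : Fin n × Fin n => w (α e.1) (β e.2))
      (fun e _ => hw _ _) (f := nul v) (g := fun _ => N) fun X _ => by
        have := card_le X
        have : (0 : ℝ) ≤ rk v X := Nat.cast_nonneg _
        unfold nul
        linarith
    rw [Ex_const] at b1
    linarith [lt_of_mul_lt_mul_right (show 6 * ε * N < 1 * N by linarith) N0'.le]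
  set P0 : Finset (Fin L × Fin L) := univ.filter fun q =>
    c ≤ (univ.filter fun i => α i = q.1).card ∧ c ≤ (univ.filter fun i => β i = q.2).card ∧
      ε ≤ w q.1 q.2 ∧ w q.1 q.2 ≤ a + γ with hP0
  -- dropping the inactive pairs
  have d1 : ∑ e ∈ (KP α β P0)ᶜ, w (α e.1) (β e.2) ≤ 4 * ε * N := by
    have s1 := small_class α c0.le
    have s2 := small_class β c0.le
    have s3 : (L : ℝ) * c ≤ ε * n := by
      rw [hc, mul_div_assoc', div_le_iff₀ (by positivity)]
      linarith [mul_pos hε n0]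
    calc _ ≤ ∑ e : Fin n × Fin n,
          ((if ((univ.filter fun j => α j = α e.1).card : ℝ) < c then (1 : ℝ) else 0)
          + (if ((univ.filter fun j => β j = β e.2).card : ℝ) < c then (1 : ℝ) else 0)
          + ε + if a + γ < w (α e.1) (β e.2) then 1 else 0) := by
          refine le_trans (sum_le_sum fun e he => ?_) (sum_le_sum_of_subset_of_nonneg
            (subset_univ _) fun e _ _ => by positivity)
          rw [mem_compl, mem_KP, hP0, mem_filter] at he
          have := hw (α e.1) (β e.2)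
          split_ifs with b1 b2 b3 <;> try linarith
          by_contra b4
          exact he ⟨mem_univ _, by linarith, by linarith, by linarith, by linarith⟩
      _ ≤ _ := by
          rw [card_filter] at h1
          push_cast at h1
          rw [sum_add_distrib, sum_add_distrib, sum_add_distrib, Fintype.sum_prod_type,
            Fintype.sum_prod_type_right]
          simp only [sum_const, card_univ, Fintype.card_prod, Fintype.card_fin, nsmul_eq_mul]
          rw [← mul_sum, ← mul_sum]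
          push_cast
          linarith [mul_le_mul_of_nonneg_left (s1.trans s3) n0.le,
            mul_le_mul_of_nonneg_left (s2.trans s3) n0.le]
  have d2 : 2 * ε * N ≤ Ex (KP α β P0) (fun e => w (α e.1) (β e.2)) (nul v) := by
    have b1 := Ex_mono (E := univ) (p := fun e : Fin n × Fin n => w (α e.1) (β e.2))
      (fun e _ => hw _ _) fun X _ => nul_drop (v := v) X (KP α β P0)
    rw [Ex_add, Ex_inter, Ex_card_inter, univ_inter, univ_inter] at b1
    linarith
  have lw : ∀ l : ℝ, 0 ≤ l → l ≤ 1 → ∀ i j, 0 ≤ l * w i j ∧ l * w i j ≤ 1 := fun l l0 l1 i j =>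
    ⟨mul_nonneg l0 (hw i j).1, mul_le_one₀ l1 (hw i j).1 (hw i j).2⟩
  -- a good value of the parameter
  have d3 : ∃ l : ℝ, 1 - ε ≤ l ∧ l ≤ 1 ∧ ∀ P ⊆ P0, ∀ e ∈ KP α β P,
      ζ < Ex (KP α β P) (fun e => l * w (α e.1) (β e.2)) (fe v e) →
        1 - ζ ≤ Ex (KP α β P) (fun e => l * w (α e.1) (β e.2)) (fe v e) := by
    by_contra hno
    push Not at hno
    have g1 : ∀ t : Fin M, 1 - ε ≤ 1 - ε + t * (ε / M) ∧ 1 - ε + t * (ε / M) ≤ 1 := fun t => by
      have b1 : (t : ℝ) ≤ M := by exact_mod_cast t.2.le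
      have b2 : (t : ℝ) * (ε / M) ≤ M * (ε / M) := by gcongr
      rw [mul_div_cancel₀ _ M0.ne'] at b2
      exact ⟨le_add_of_nonneg_right (by positivity), by linarith⟩
    choose P hP e he k1 k2 using fun t : Fin M => hno _ (g1 t).1 (g1 t).2
    have key : ∀ t t' : Fin M, t < t' →
        (P t, α (e t).1, β (e t).2) ≠ (P t', α (e t').1, β (e t').2) := by
      intro t t' htt heq
      rw [Prod.mk.injEq] at heq
      have b1 : (t : ℝ) + 1 ≤ t' := by exact_mod_cast htt
      have b2 := hR (KP α β (P t)) (fun e => w (α e.1) (β e.2)) (fe v (e t)) (fun x hx => by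
          have b3 := (mem_filter.1 (hP t (mem_KP.1 hx))).2
          exact ⟨(min_le_left _ _).trans b3.2.2.1, by
            linarith [b3.2.2.2, min_le_right ε (η ^ 2 / 2)]⟩)
        (fe_mono _) (fe01 _) (fun l l0 l1 x hx => orbit H (fun i j => l * w i j) (lw l l0 l1)
          (fun q hq => by
            have b3 := (mem_filter.1 (hP t hq)).2
            exact ⟨n3.trans b3.1, n3.trans b3.2.1⟩) (e t) hx)
        _ (1 - ε + t' * (ε / M)) (by linarith [(g1 t).1])
        (by linarith [mul_le_mul_of_nonneg_right b1 (div_pos hε M0).le]) (g1 t').2 (k1 t)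
      have b4 := k2 t'
      rw [← heq.1, beta_type H (fun i j => (1 - ε + t' * (ε / M)) * w i j) heq.2] at b4
      linarith
    obtain ⟨t, t', b1, b2⟩ := Fintype.exists_ne_map_eq_of_card_lt
      (fun t : Fin M => (P t, α (e t).1, β (e t).2)) (by rw [Fintype.card_fin]; omega)
    rcases lt_or_gt_of_ne b1 with h | h
    · exact key _ _ h b2
    · exact key _ _ h b2.symm
  obtain ⟨l, l1, l2, hl⟩ := d3
  have l0 : 0 ≤ l := by linarith
  set p : Fin n × Fin n → ℝ := fun e => l * w (α e.1) (β e.2) with hp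
  have hp01 : ∀ K : Finset (Fin n × Fin n), ∀ e ∈ K, 0 ≤ p e ∧ p e ≤ 1 :=
    fun K e _ => lw l l0 l2 _ _
  have d4 : ε * N ≤ Ex (KP α β P0) p (nul v) := by
    have b1 := Ex_lipschitz (KP α β P0) (p := fun e => w (α e.1) (β e.2)) (fun e _ => hw _ _)
      (hp01 _) (nul v) nul_lip
    have b2 : ∑ e ∈ KP α β P0, |w (α e.1) (β e.2) - p e| ≤ (KP α β P0).card • ε :=
      sum_le_card_nsmul _ _ _ fun e _ => by
        have := hw (α e.1) (β e.2)
        rw [abs_le]
        simp only [hp]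
        have e1 := mul_le_of_le_one_left this.1 l2
        have e2 := mul_le_mul (show 1 - l ≤ ε by linarith) this.2 this.1 hε.le
        constructor <;> linarith
    rw [nsmul_eq_mul] at b2
    have b3 := mul_le_mul_of_nonneg_right (card_le (KP α β P0)) hε.le
    linarith [(abs_le.1 b1).2]
  obtain ⟨P, hP, hmin⟩ := exists_min_image (P0.powerset.filter fun P =>
    ε * N - ((P0.card : ℝ) - P.card) * ζ * N ≤ Ex (KP α β P) p (nul v)) card
    ⟨P0, mem_filter.2 ⟨mem_powerset_self _, by simpa using d4⟩⟩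
  rw [mem_filter, mem_powerset] at hP
  obtain ⟨hP1, hP2⟩ := hP
  set K := KP α β P with hK
  have d5 : ∀ e ∈ K, 1 - ζ ≤ Ex K p (fe v e) := by
    intro e he
    refine hl P hP1 e he ?_
    by_contra hle
    push Not at hle
    have hq := mem_KP.1 he
    set P' := P.erase (α e.1, β e.2) with hP'
    have b1 : P'.card + 1 = P.card := card_erase_add_one hq
    have b2 : Ex (KP α β P') p (nul v) < ε * N - ((P0.card : ℝ) - P'.card) * ζ * N := by
      by_contra b3
      have := hmin P' (mem_filter.2 ⟨mem_powerset.2 ((erase_subset _ _).trans hP1), not_lt.1 b3⟩)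
      omega
    have b3 := Ex_mono (hp01 K) fun X hX => nul_block (v := v) hX (KP α β P')
    rw [Ex_add, Ex_inter, Ex_sum, inter_eq_right.2 fun x hx =>
      mem_KP.2 (mem_of_mem_erase (mem_KP.1 hx))] at b3
    have b4 : ∑ x ∈ K \ KP α β P', Ex K p (fe v x) ≤ (K \ KP α β P').card • ζ :=
      sum_le_card_nsmul _ _ _ fun x hx => by
        rw [mem_sdiff, hK, mem_KP, mem_KP, hP', mem_erase] at hx
        have : (α e.1, β e.2) = (α x.1, β x.2) := by
          by_contra b5
          exact hx.2 ⟨Ne.symm b5, hx.1⟩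
        exact (beta_type H (fun i j => l * w i j) this).le.trans hle
    rw [nsmul_eq_mul] at b4
    have b5 := mul_le_mul_of_nonneg_right (card_le (K \ KP α β P')) ζ0.le
    have b6 : (P'.card : ℝ) + 1 = P.card := by exact_mod_cast b1
    rw [← b6] at hP2
    linarith
  have d6 : (rk v K : ℝ) ≤ ∑ e ∈ K, w (α e.1) (β e.2) + ζ * N := by
    have b1 := Ex_mono (hp01 K) fun X _ => rk_le (v := v) K X
    rw [Ex_const, Ex_add, Ex_card_inter, Ex_sum, inter_univ] at b1
    have b2 : ∑ e ∈ K, Ex K p (fun X => 1 - fe v e X) ≤ K.card • ζ :=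
      sum_le_card_nsmul _ _ _ fun e he => by
        rw [Ex_sub, Ex_const]
        linarith [d5 e he]
    rw [nsmul_eq_mul] at b2
    have b3 := mul_le_mul_of_nonneg_right (card_le K) ζ0.le
    have b4 : ∑ e ∈ K, p e ≤ ∑ e ∈ K, w (α e.1) (β e.2) :=
      sum_le_sum fun e _ => mul_le_of_le_one_left (hw _ _).1 l2
    linarith
  have d7 : d ^ 2 < K.card := by
    by_contra b0
    have b1 : Ex K p (nul v) = 0 := by
      rw [Ex_congr (g := fun _ => 0) fun X hX => by
        rw [nul, H.small X ((card_le_card hX).trans (not_lt.1 b0)), sub_self], Ex_const]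
    have b2 : (P0.card : ℝ) ≤ (L : ℝ) ^ 2 := by exact_mod_cast card_le P0
    have b3 : (0 : ℝ) ≤ P.card := Nat.cast_nonneg _
    have b4 : ((P0.card : ℝ) - P.card) * ζ < ε := by
      linarith [mul_le_mul_of_nonneg_right
        (show (P0.card : ℝ) - P.card ≤ (L : ℝ) ^ 2 by linarith) ζ0.le,
        mul_nonneg (sq_nonneg (L : ℝ)) ζ0.le]
    linarith [mul_lt_mul_of_pos_right b4 N0']
  by_cases hb : (K.card : ℝ) ≤ (1 - δ / 2) * N
  · have b1 := strict H hη hJ.le n1 n2 hd1 hd2 d7 hb
    have b2 : ∑ e ∈ K, w (α e.1) (β e.2) ≤ K.card • (a + γ) :=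
      sum_le_card_nsmul _ _ _ fun e he => (mem_filter.1 (hP1 (mem_KP.1 he))).2.2.2.2
    rw [nsmul_eq_mul] at b2
    have b3 := mul_le_mul_of_nonneg_right (card_le K) γ0.le
    have b4 := mul_le_mul_of_nonneg_right γ1 N0'.le
    have b5 := mul_le_mul_of_nonneg_right ζ2 N0'.le
    have b6 := mul_pos γ0 N0'
    rw [← ha, ← hN] at b1
    linarith
  · have b1 := g_nonneg H n1 hdn K
    have b2 : ∑ e ∈ K, w (α e.1) (β e.2) ≤ ∑ e : Fin n × Fin n, w (α e.1) (β e.2) :=
      sum_le_sum_of_subset_of_nonneg (subset_univ _) fun e _ _ => (hw _ _).1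
    have b3 : 0 ≤ a := by
      have e1 : (d : ℝ) / n ≤ 1 := (div_le_one n0).2 (by exact_mod_cast hdn)
      have e2 : 0 ≤ (d : ℝ) / n := by positivity
      rw [ha, sub_nonneg]
      exact pow_le_one₀ (by linarith) (by linarith)
    have b4 := mul_le_mul_of_nonneg_left (not_le.1 hb).le b3
    have b5 := mul_le_mul_of_nonneg_right ζ3 N0'.le
    have b6 := mul_pos hδ N0'
    have b7 : a * (δ * N) ≤ 1 * (δ * N) := by
      gcongr
      linarith [sq_nonneg η]
    rw [← ha] at b1
    linarith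

end Pool.Agent.P.MP_2d96df_co
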