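import Mathlib

/-! Supports of low rank matrices are few (zero pattern bound of Ronyai, Babai, Ganapathy). -/

namespace Pool.Agent.P.MP_2d96df_co
open Finset

namespace Pat

/-- exponent vectors of total degree at most D -/
def box (σ : Type) [Fintype σ] [DecidableEq σ] (D : ℕ) : Finset (σ → ℕ) :=
  (Fintype.piFinset fun _ : σ => range (D + 1)).filter fun m => ∑ v, m v ≤ D

lemma card_box (σ : Type) [Fintype σ] [DecidableEq σ] (D : ℕ) {x : ℝ} (h0 : 0 < x) (h1 : x < 1) :
    ((box σ D).card : ℝ) ≤ (x ^ D)⁻¹ * (1 - x)⁻¹ ^ Fintype.card σ := by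
  have hx : 0 < x ^ D := by positivity
  have a1 : ((box σ D).card : ℝ) * x ^ D ≤
      ∑ m ∈ Fintype.piFinset fun _ : σ => range (D + 1), ∏ v, x ^ m v := by
    calc ((box σ D).card : ℝ) * x ^ D = ∑ _m ∈ box σ D, x ^ D := by
          rw [sum_const, nsmul_eq_mul]
      _ ≤ ∑ m ∈ box σ D, ∏ v, x ^ m v := by
          refine sum_le_sum fun m hm => ?_
          rw [prod_pow_eq_pow_sum]
          exact pow_le_pow_of_le_one h0.le h1.le (mem_filter.1 hm).2
      _ ≤ _ := sum_le_sum_of_subset_of_nonneg (filter_subset _ _) fun _ _ _ => by positivity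
  rw [← prod_univ_sum, prod_const, card_univ] at a1
  have a2 : ∑ i ∈ range (D + 1), x ^ i ≤ (1 - x)⁻¹ := by
    rw [← tsum_geometric_of_lt_one h0.le h1]
    exact (summable_geometric_of_lt_one h0.le h1).sum_le_tsum _ fun _ _ => by positivity
  have a3 : (∑ i ∈ range (D + 1), x ^ i) ^ Fintype.card σ ≤ (1 - x)⁻¹ ^ Fintype.card σ :=
    pow_le_pow_left₀ (sum_nonneg fun _ _ => by positivity) a2 _
  rw [← div_eq_inv_mul, le_div_iff₀ hx]
  exact a1.trans a3

/-- the zero pattern bound -/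
lemma patterns {σ ι : Type} [Fintype σ] [DecidableEq σ] [Fintype ι] [DecidableEq ι]
    (F : ι → MvPolynomial σ ℝ) (hF : ∀ e, (F e).totalDegree ≤ 2) (𝒮 : Finset (Finset ι))
    (h : ∀ S ∈ 𝒮, ∃ u : σ → ℝ, ∀ e, e ∈ S ↔ MvPolynomial.eval u (F e) ≠ 0) :
    𝒮.card ≤ (box σ (2 * Fintype.card ι)).card := by
  set D := 2 * Fintype.card ι with hD
  let G : Finset ι → MvPolynomial σ ℝ := fun S => ∏ e ∈ S, F e
  have hG : ∀ S, (G S).totalDegree ≤ D := fun S => by
    refine (MvPolynomial.totalDegree_finsetProd S F).trans ?_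
    calc ∑ e ∈ S, (F e).totalDegree ≤ S.card • 2 := sum_le_card_nsmul _ _ _ fun e _ => hF e
      _ = 2 * S.card := by rw [smul_eq_mul, mul_comm]
      _ ≤ D := Nat.mul_le_mul_left 2 (card_le_univ S)
  let Φ : 𝒮 → (box σ D → ℝ) := fun S b =>
    MvPolynomial.coeff (Finsupp.equivFunOnFinite.symm b.1) (G S.1)
  have hli : LinearIndependent ℝ Φ := by
    rw [Fintype.linearIndependent_iff]
    intro a ha
    have hz : ∑ S : 𝒮, a S • G S.1 = 0 := by
      ext m
      rw [MvPolynomial.coeff_sum, MvPolynomial.coeff_zero]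
      by_cases hm : (m : σ → ℕ) ∈ box σ D
      · have := congrFun ha ⟨m, hm⟩
        simpa [Φ] using this
      · refine sum_eq_zero fun S _ => ?_
        rw [MvPolynomial.coeff_smul]
        have : MvPolynomial.coeff m (G S.1) = 0 := by
          by_contra hc
          have h1 := (MvPolynomial.le_totalDegree (MvPolynomial.mem_support_iff.2 hc)).trans (hG S.1)
          rw [Finsupp.sum_fintype _ _ (fun _ => rfl)] at h1
          refine hm (mem_filter.2 ⟨Fintype.mem_piFinset.2 fun v => mem_range.2 ?_, h1⟩)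
          have := single_le_sum (f := fun v => m v) (fun _ _ => Nat.zero_le _) (mem_univ v)
          omega
        rw [this, smul_zero]
    by_contra hne
    push Not at hne
    obtain ⟨S, hS, hmin⟩ := exists_min_image (univ.filter fun S : 𝒮 => a S ≠ 0) (fun S => S.1.card)
      (let ⟨S, hS⟩ := hne; ⟨S, mem_filter.2 ⟨mem_univ _, hS⟩⟩)
    obtain ⟨u, hu⟩ := h S.1 S.2
    have he := congrArg (MvPolynomial.eval u) hz
    rw [map_sum, map_zero, sum_eq_single S] at he
    · rw [MvPolynomial.smul_eval, map_prod] at he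
      exact mul_ne_zero (mem_filter.1 hS).2 (prod_ne_zero_iff.2 fun e he' => (hu e).1 he') he
    · intro T _ hT
      rw [MvPolynomial.smul_eval, map_prod]
      by_contra hc
      have hsub : T.1 ⊆ S.1 := fun e he' =>
        (hu e).2 (prod_ne_zero_iff.1 (right_ne_zero_of_mul hc) e he')
      have hle := hmin T (mem_filter.2 ⟨mem_univ _, left_ne_zero_of_mul hc⟩)
      exact hT (Subtype.ext (eq_of_subset_of_card_le hsub hle))
    · intro hh
      exact absurd (mem_univ _) hh
  have := hli.fintype_card_le_finrank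
  simpa using this

lemma factor {n r : ℕ} (M : Matrix (Fin n) (Fin n) ℝ) (h : M.rank ≤ r) :
    ∃ (A : Fin n → Fin r → ℝ) (B : Fin r → Fin n → ℝ), ∀ i j, M i j = ∑ l, A i l * B l j := by
  rw [Matrix.rank_eq_finrank_span_cols] at h
  set W := Submodule.span ℝ (Set.range M.col) with hW
  have h' : Module.finrank ℝ W ≤ Module.finrank ℝ (Fin r → ℝ) := by simpa using h
  obtain ⟨f, hf⟩ := finrank_le_iff_exists_linearMap.1 h'
  obtain ⟨g, hg⟩ := f.exists_leftInverse_of_injective (LinearMap.ker_eq_bot.2 hf)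
  let c : Fin n → W := fun j => ⟨M.col j, Submodule.subset_span ⟨j, rfl⟩⟩
  refine ⟨fun i l => (g (Pi.single l 1) : Fin n → ℝ) i, fun l j => f (c j) l, fun i j => ?_⟩
  have h1 : g (f (c j)) = c j := by
    have := LinearMap.congr_fun hg (c j)
    simpa using this
  have h2 : f (c j) = ∑ l, f (c j) l • (Pi.single l 1 : Fin r → ℝ) := by
    ext l
    simp [Finset.sum_apply, Pi.single_apply]
  have h3 : M i j = (c j : Fin n → ℝ) i := rfl
  rw [h3, ← h1, h2, map_sum]
  simp only [map_smul, AddSubmonoidClass.coe_finsetSum, Finset.sum_apply, SetLike.val_smul,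
    Pi.smul_apply, smul_eq_mul]
  exact sum_congr rfl fun l _ => mul_comm _ _

end Pat

open Pat in
/-- supports of low rank matrices are few (Ronyai-Babai-Ganapathy). -/
theorem few_supports (κ : ℝ) (hκ : 0 < κ) : ∃ c : ℝ, 0 < c ∧ ∃ n₁ : ℕ, ∀ n : ℕ, n₁ ≤ n →
    ∃ 𝒮 : Finset (Finset (Fin n × Fin n)), (𝒮.card : ℝ) ≤ Real.exp (κ * (n : ℝ) ^ 2) ∧
      ∀ M : Matrix (Fin n) (Fin n) ℝ, (M.rank : ℝ) ≤ c * n →
        (univ.filter fun e : Fin n × Fin n => M e.1 e.2 ≠ 0) ∈ 𝒮 := by
  classical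
  set x := Real.exp (-(κ / 4)) with hx
  have h0 : 0 < x := Real.exp_pos _
  have h1 : x < 1 := Real.exp_lt_one_iff.2 (by linarith)
  set L := Real.log (1 - x)⁻¹ with hL
  have hL0 : 0 < L := Real.log_pos (one_lt_inv₀ (by linarith) |>.2 (by linarith))
  refine ⟨κ / (4 * L), by positivity, 0, fun n _ => ?_⟩
  set r := ⌊κ / (4 * L) * n⌋₊ with hr
  let σ := (Fin n × Fin r) ⊕ (Fin r × Fin n)
  let F : Fin n × Fin n → MvPolynomial σ ℝ := fun e =>
    ∑ l : Fin r, MvPolynomial.X (Sum.inl (e.1, l)) * MvPolynomial.X (Sum.inr (l, e.2))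
  have hF : ∀ e, (F e).totalDegree ≤ 2 := fun e => by
    refine (MvPolynomial.totalDegree_finsetSum _ _).trans (Finset.sup_le fun l _ => ?_)
    refine (MvPolynomial.totalDegree_mul _ _).trans ?_
    simp
  refine ⟨univ.filter fun S => ∃ u : σ → ℝ, ∀ e, e ∈ S ↔ MvPolynomial.eval u (F e) ≠ 0, ?_, ?_⟩
  · have a1 := patterns F hF
      (univ.filter fun S => ∃ u : σ → ℝ, ∀ e, e ∈ S ↔ MvPolynomial.eval u (F e) ≠ 0)
      (fun S hS => (mem_filter.1 hS).2)
    have a2 := card_box σ (2 * Fintype.card (Fin n × Fin n)) h0 h1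
    have a1' := (Nat.cast_le (α := ℝ)).2 a1
    refine a1'.trans (a2.trans ?_)
    have e1 : (x ^ (2 * Fintype.card (Fin n × Fin n)))⁻¹ = Real.exp (κ / 2 * (n : ℝ) ^ 2) := by
      rw [hx, ← Real.exp_nat_mul, ← Real.exp_neg]
      congr 1
      simp only [Fintype.card_prod, Fintype.card_fin]
      push_cast; ring
    have e2 : (1 - x)⁻¹ ^ Fintype.card σ = Real.exp (2 * n * r * L) := by
      have : (1 - x)⁻¹ = Real.exp L := by
        rw [hL, Real.exp_log (inv_pos.2 (by linarith))]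
      rw [this, ← Real.exp_nat_mul]
      congr 1
      simp only [σ, Fintype.card_sum, Fintype.card_prod, Fintype.card_fin]
      push_cast; ring
    rw [e1, e2, ← Real.exp_add]
    apply Real.exp_le_exp.2
    have a3 : (r : ℝ) ≤ κ / (4 * L) * n := Nat.floor_le (by positivity)
    have a4 : 2 * n * (r : ℝ) * L ≤ 2 * n * (κ / (4 * L) * n) * L := by gcongr
    have a5 : 2 * n * (κ / (4 * L) * n) * L = κ / 2 * (n : ℝ) ^ 2 := by field_simp; ring
    linarith
  · intro M hM
    obtain ⟨A, B, hAB⟩ := factor (r := r) M (Nat.le_floor hM)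
    refine mem_filter.2 ⟨mem_univ _, Sum.elim (fun p => A p.1 p.2) (fun p => B p.1 p.2), fun e => ?_⟩
    simp [F, hAB]

end Pool.Agent.P.MP_2d96df_co
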