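import Mathlib

/-! Independent random subsets of a finite set: weights, expectation, basic recursion. -/

namespace Pool.Agent.P.MP_2d96df_co

open Finset

variable {ι : Type*} [DecidableEq ι]

/-- weight of `X ⊆ E` when every `e ∈ E` is kept independently with probability `p e` -/
noncomputable def wt (E : Finset ι) (p : ι → ℝ) (X : Finset ι) : ℝ :=
  (∏ e ∈ X, p e) * ∏ e ∈ E \ X, (1 - p e)

/-- expectation of `f` for the random subset of `E` -/
noncomputable def Ex (E : Finset ι) (p : ι → ℝ) (f : Finset ι → ℝ) : ℝ :=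
  ∑ X ∈ E.powerset, wt E p X * f X

open Classical in
/-- probability of the event `A` -/
noncomputable def Pr (E : Finset ι) (p : ι → ℝ) (A : Finset ι → Prop) : ℝ :=
  Ex E p (fun X => if A X then 1 else 0)

@[simp] lemma Ex_empty (p : ι → ℝ) (f : Finset ι → ℝ) : Ex ∅ p f = f ∅ := by
  simp [Ex, wt]

lemma Ex_insert {E : Finset ι} {e : ι} (he : e ∉ E) (p : ι → ℝ) (f : Finset ι → ℝ) :
    Ex (insert e E) p f = p e * Ex E p (fun X => f (insert e X)) + (1 - p e) * Ex E p f := by
  unfold Ex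
  rw [Finset.sum_powerset_insert he, Finset.mul_sum, Finset.mul_sum, add_comm]
  congr 1
  · refine Finset.sum_congr rfl fun X hX => ?_
    have hXE := Finset.mem_powerset.1 hX
    have heX : e ∉ X := fun h => he (hXE h)
    have : insert e E \ insert e X = E \ X := by
      ext a; simp only [Finset.mem_sdiff, Finset.mem_insert]
      constructor
      · rintro ⟨h1 | h1, h2⟩
        · exact absurd (Or.inl h1) h2
        · exact ⟨h1, fun h => h2 (Or.inr h)⟩
      · rintro ⟨h1, h2⟩
        refine ⟨Or.inr h1, ?_⟩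
        rintro (h | h)
        · exact he (h ▸ h1)
        · exact h2 h
    unfold wt
    rw [this, Finset.prod_insert heX]; ring
  · refine Finset.sum_congr rfl fun X hX => ?_
    have hXE := Finset.mem_powerset.1 hX
    have heX : e ∉ X := fun h => he (hXE h)
    have : insert e E \ X = insert e (E \ X) := by
      rw [Finset.insert_sdiff_of_notMem _ heX]
    unfold wt
    rw [this, Finset.prod_insert (by simp [he])]; ring

lemma wt_nonneg {E : Finset ι} {p : ι → ℝ} (hp : ∀ e ∈ E, 0 ≤ p e ∧ p e ≤ 1) {X : Finset ι}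
    (hX : X ⊆ E) : 0 ≤ wt E p X :=
  mul_nonneg (Finset.prod_nonneg fun e he => (hp e (hX he)).1)
    (Finset.prod_nonneg fun e he => sub_nonneg.2 (hp e (Finset.mem_sdiff.1 he).1).2)

lemma Ex_const (E : Finset ι) (p : ι → ℝ) (c : ℝ) : Ex E p (fun _ => c) = c := by
  induction E using Finset.induction_on with
  | empty => simp
  | insert e E he ih => rw [Ex_insert he, ih]; ring

lemma Ex_congr {E : Finset ι} {p : ι → ℝ} {f g : Finset ι → ℝ} (h : ∀ X ⊆ E, f X = g X) :
    Ex E p f = Ex E p g :=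
  Finset.sum_congr rfl fun X hX => by rw [h X (Finset.mem_powerset.1 hX)]

lemma Ex_mono {E : Finset ι} {p : ι → ℝ} (hp : ∀ e ∈ E, 0 ≤ p e ∧ p e ≤ 1)
    {f g : Finset ι → ℝ} (h : ∀ X ⊆ E, f X ≤ g X) : Ex E p f ≤ Ex E p g :=
  Finset.sum_le_sum fun X hX =>
    mul_le_mul_of_nonneg_left (h X (Finset.mem_powerset.1 hX))
      (wt_nonneg hp (Finset.mem_powerset.1 hX))

lemma Ex_add (E : Finset ι) (p : ι → ℝ) (f g : Finset ι → ℝ) :
    Ex E p (fun X => f X + g X) = Ex E p f + Ex E p g := by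
  simp [Ex, mul_add, Finset.sum_add_distrib]

lemma Ex_sub (E : Finset ι) (p : ι → ℝ) (f g : Finset ι → ℝ) :
    Ex E p (fun X => f X - g X) = Ex E p f - Ex E p g := by
  simp [Ex, mul_sub, Finset.sum_sub_distrib]

lemma Ex_mul_left (E : Finset ι) (p : ι → ℝ) (c : ℝ) (f : Finset ι → ℝ) :
    Ex E p (fun X => c * f X) = c * Ex E p f := by
  simp only [Ex, Finset.mul_sum]; exact Finset.sum_congr rfl fun X _ => by ring

lemma Ex_sum {κ : Type*} (s : Finset κ) (E : Finset ι) (p : ι → ℝ) (f : κ → Finset ι → ℝ) :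
    Ex E p (fun X => ∑ k ∈ s, f k X) = ∑ k ∈ s, Ex E p (f k) := by
  simp only [Ex, Finset.mul_sum]; exact Finset.sum_comm

lemma Ex_nonneg {E : Finset ι} {p : ι → ℝ} (hp : ∀ e ∈ E, 0 ≤ p e ∧ p e ≤ 1)
    {f : Finset ι → ℝ} (h : ∀ X ⊆ E, 0 ≤ f X) : 0 ≤ Ex E p f := by
  have := Ex_mono hp (f := fun _ => 0) h
  rwa [Ex_const] at this

lemma Ex_congr_p {E : Finset ι} {p p' : ι → ℝ} (h : ∀ e ∈ E, p e = p' e) (f : Finset ι → ℝ) :
    Ex E p f = Ex E p' f := by
  refine Finset.sum_congr rfl fun X hX => ?_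
  have hXE := Finset.mem_powerset.1 hX
  unfold wt
  have h1 : ∏ e ∈ X, p e = ∏ e ∈ X, p' e := Finset.prod_congr rfl fun e he => h e (hXE he)
  have h2 : ∏ e ∈ E \ X, (1 - p e) = ∏ e ∈ E \ X, (1 - p' e) :=
    Finset.prod_congr rfl fun e he => by rw [h e (Finset.mem_sdiff.1 he).1]
  rw [h1, h2]

/-- expected size of `X ∩ S` -/
lemma Ex_card_inter (E : Finset ι) (p : ι → ℝ) (S : Finset ι) :
    Ex E p (fun X => ((X ∩ S).card : ℝ)) = ∑ e ∈ E ∩ S, p e := by
  induction E using Finset.induction_on with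
  | empty => simp
  | insert e E he ih =>
    rw [Ex_insert he, ih]
    by_cases hS : e ∈ S
    · rw [Finset.insert_inter_of_mem hS, Finset.sum_insert (by simp [he])]
      have : Ex E p (fun X => (((insert e X) ∩ S).card : ℝ))
          = Ex E p (fun X => ((X ∩ S).card : ℝ) + 1) := by
        refine Ex_congr fun X hX => ?_
        rw [Finset.insert_inter_of_mem hS, Finset.card_insert_of_notMem
          (fun h => he (hX (Finset.mem_inter.1 h).1))]
        push_cast; ring
      rw [this, Ex_add, ih, Ex_const]; ring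
    · simp only [Finset.insert_inter_of_notMem hS]
      rw [ih]; ring

/-- a function that only looks at `X ∩ S` -/
lemma Ex_inter (E S : Finset ι) (p : ι → ℝ) (f : Finset ι → ℝ) :
    Ex E p (fun X => f (X ∩ S)) = Ex (E ∩ S) p f := by
  induction E using Finset.induction_on generalizing f with
  | empty => simp
  | insert e E he ih =>
    rw [Ex_insert he]
    by_cases hS : e ∈ S
    · rw [Finset.insert_inter_of_mem hS, Ex_insert (by simp [he]), ← ih, ← ih]
      simp only [Finset.insert_inter_of_mem hS]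
    · simp only [Finset.insert_inter_of_notMem hS]
      rw [ih]; ring

/-- changing the probabilities changes the mean of a 1-Lipschitz function by at most the
total change -/
lemma Ex_lipschitz (E : Finset ι) {p p' : ι → ℝ} (hp : ∀ e ∈ E, 0 ≤ p e ∧ p e ≤ 1)
    (hp' : ∀ e ∈ E, 0 ≤ p' e ∧ p' e ≤ 1) (f : Finset ι → ℝ)
    (hf : ∀ X e, |f (insert e X) - f X| ≤ 1) :
    |Ex E p f - Ex E p' f| ≤ ∑ e ∈ E, |p e - p' e| := by
  induction E using Finset.induction_on generalizing f with
  | empty => simp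
  | insert e E he ih =>
    have hpE : ∀ a ∈ E, 0 ≤ p a ∧ p a ≤ 1 := fun a ha => hp a (Finset.mem_insert_of_mem ha)
    have hpE' : ∀ a ∈ E, 0 ≤ p' a ∧ p' a ≤ 1 := fun a ha => hp' a (Finset.mem_insert_of_mem ha)
    have h1 := ih hpE hpE' (fun X => f (insert e X)) (fun X a => by
      rw [Finset.insert_comm]; exact hf _ _)
    have h2 := ih hpE hpE' f hf
    have h3 : |Ex E p' (fun X => f (insert e X)) - Ex E p' f| ≤ 1 := by
      rw [← Ex_sub, abs_le]
      constructor
      · have := Ex_mono hpE' (f := fun _ => (-1 : ℝ)) (g := fun X => f (insert e X) - f X)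
          (fun X _ => (abs_le.1 (hf X e)).1)
        rwa [Ex_const] at this
      · have := Ex_mono hpE' (g := fun _ => (1 : ℝ)) (f := fun X => f (insert e X) - f X)
          (fun X _ => (abs_le.1 (hf X e)).2)
        rwa [Ex_const] at this
    rw [Ex_insert he, Ex_insert he, Finset.sum_insert he]
    obtain ⟨h0, h1'⟩ := hp e (Finset.mem_insert_self _ _)
    set A := Ex E p (fun X => f (insert e X))
    set A' := Ex E p' (fun X => f (insert e X))
    set B := Ex E p f
    set B' := Ex E p' f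
    have : p e * A + (1 - p e) * B - (p' e * A' + (1 - p' e) * B')
        = p e * (A - A') + (1 - p e) * (B - B') + (p e - p' e) * (A' - B') := by ring
    rw [this]
    have e1 : |p e * (A - A')| ≤ p e * ∑ a ∈ E, |p a - p' a| := by
      rw [abs_mul, abs_of_nonneg h0]; exact mul_le_mul_of_nonneg_left h1 h0
    have e2 : |(1 - p e) * (B - B')| ≤ (1 - p e) * ∑ a ∈ E, |p a - p' a| := by
      rw [abs_mul, abs_of_nonneg (sub_nonneg.2 h1')]
      exact mul_le_mul_of_nonneg_left h2 (sub_nonneg.2 h1')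
    have e3 : |(p e - p' e) * (A' - B')| ≤ |p e - p' e| := by
      rw [abs_mul]; exact mul_le_of_le_one_right (abs_nonneg _) h3
    have := abs_add_le (p e * (A - A') + (1 - p e) * (B - B')) ((p e - p' e) * (A' - B'))
    have := abs_add_le (p e * (A - A')) ((1 - p e) * (B - B'))
    linarith

section PrLemmas

lemma Pr_nonneg {E : Finset ι} {p : ι → ℝ} (hp : ∀ e ∈ E, 0 ≤ p e ∧ p e ≤ 1)
    (A : Finset ι → Prop) : 0 ≤ Pr E p A :=
  Ex_nonneg hp fun X _ => by split_ifs <;> norm_num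

lemma Pr_mono {E : Finset ι} {p : ι → ℝ} (hp : ∀ e ∈ E, 0 ≤ p e ∧ p e ≤ 1)
    {A B : Finset ι → Prop} (h : ∀ X ⊆ E, A X → B X) : Pr E p A ≤ Pr E p B :=
  Ex_mono hp fun X hX => by
    by_cases hA : A X
    · simp [hA, h X hX hA]
    · simp only [hA, if_false]; split_ifs <;> norm_num

lemma Pr_le_one {E : Finset ι} {p : ι → ℝ} (hp : ∀ e ∈ E, 0 ≤ p e ∧ p e ≤ 1)
    (A : Finset ι → Prop) : Pr E p A ≤ 1 := by
  have := Ex_mono hp (f := fun X => by classical exact if A X then (1 : ℝ) else 0)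
    (g := fun _ => 1) (fun X _ => by split_ifs <;> norm_num)
  rwa [Ex_const] at this

lemma Pr_not (E : Finset ι) (p : ι → ℝ) (A : Finset ι → Prop) :
    Pr E p (fun X => ¬ A X) = 1 - Pr E p A := by
  unfold Pr
  rw [← Ex_const E p 1, ← Ex_sub]
  refine Ex_congr fun X _ => ?_
  by_cases hA : A X <;> simp [hA, Ex_const]

lemma Pr_or_le {E : Finset ι} {p : ι → ℝ} (hp : ∀ e ∈ E, 0 ≤ p e ∧ p e ≤ 1)
    (A B : Finset ι → Prop) : Pr E p (fun X => A X ∨ B X) ≤ Pr E p A + Pr E p B := by
  unfold Pr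
  rw [← Ex_add]
  refine Ex_mono hp fun X _ => ?_
  by_cases hA : A X <;> by_cases hB : B X <;> simp [hA, hB]

lemma Pr_exists_le {κ : Type*} {E : Finset ι} {p : ι → ℝ} (hp : ∀ e ∈ E, 0 ≤ p e ∧ p e ≤ 1)
    (s : Finset κ) (A : κ → Finset ι → Prop) :
    Pr E p (fun X => ∃ k ∈ s, A k X) ≤ ∑ k ∈ s, Pr E p (A k) := by
  classical
  unfold Pr
  rw [← Ex_sum]
  refine Ex_mono hp fun X _ => ?_
  split_ifs with h
  · obtain ⟨k, hk, hA⟩ := h
    have := Finset.single_le_sum (f := fun k => if A k X then (1 : ℝ) else 0)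
      (fun k _ => by split_ifs <;> norm_num) hk
    simpa [hA] using this
  · exact Finset.sum_nonneg fun k _ => by split_ifs <;> norm_num

/-- Markov -/
lemma Pr_le_Ex {E : Finset ι} {p : ι → ℝ} (hp : ∀ e ∈ E, 0 ≤ p e ∧ p e ≤ 1)
    (A : Finset ι → Prop) (f : Finset ι → ℝ) (h0 : ∀ X ⊆ E, 0 ≤ f X)
    (h1 : ∀ X ⊆ E, A X → 1 ≤ f X) : Pr E p A ≤ Ex E p f :=
  Ex_mono hp fun X hX => by
    split_ifs with h
    · exact h1 X hX h
    · exact h0 X hX

end PrLemmas

end Pool.Agent.P.MP_2d96df_co
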