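import Pool.Agent.P.MP_2d96df_co.SampleC
import Pool.Agent.P.MP_2d96df_co.MT

namespace Pool.Agent.P.MP_2d96df_co
open Finset

/-- samples of an upper regular graph of density below the rate are almost independent. -/
theorem sample_null (η δ : ℝ) (hη : 0 < η) (hδ : 0 < δ) :
    ∃ γ : ℝ, 0 < γ ∧ ∀ ε : ℝ, 0 < ε → ∃ ε₁ : ℝ, 0 < ε₁ ∧ ∃ Nmax : ℕ,
      ∀ (V : Type) [Fintype V] [DecidableEq V] [Nonempty V] (ψ : V → V → Prop) [DecidableRel ψ],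
      (∀ a b, ψ a b → ψ b a) → ∀ x : ℝ, 2 * η ≤ x → x ≤ 1 - η →
      (∀ A B : Finset V, (((A ×ˢ B).filter fun e => ψ e.1 e.2).card : ℝ)
          ≤ (1 - (1 - x) ^ 2 + γ) * A.card * B.card + ε₁ * (Fintype.card V : ℝ) ^ 2) →
      (((univ.filter fun e : V × V => ψ e.1 e.2).card : ℝ)
          ≤ (1 - (1 - x) ^ 2 - δ) * (Fintype.card V : ℝ) ^ 2) →
      ∃ n0 : ℕ, 1 ≤ ε * n0 ∧ n0 ≤ Nmax ∧
        ∀ {W : Type} [AddCommGroup W] [Module ℝ W] (v : Fin n0 × Fin n0 → W),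
        BipOK n0 ⌊x * n0⌋₊ v →
        ∑ a : Fin n0 → V, ∑ b : Fin n0 → V,
          (((univ.filter fun e : Fin n0 × Fin n0 => ψ (a e.1) (b e.2)).card : ℝ)
            - rk v (univ.filter fun e : Fin n0 × Fin n0 => ψ (a e.1) (b e.2)))
          ≤ ε * (n0 : ℝ) ^ 2 * (Fintype.card V : ℝ) ^ (2 * n0) :=
  Smp.sample_null_of η δ hη hδ (multi_type η (δ / 2) hη (by positivity))

end Pool.Agent.P.MP_2d96df_co
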