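import Pool.Agent.P.MP_2d96df_co.Bip

/-! Energy increment and resampling lemmas for the sampling step. -/

namespace Pool.Agent.P.MP_2d96df_co.Smp
open Finset

variable {V : Type} [Fintype V] (ψ : V → V → Prop) [DecidableRel ψ]

/-- indicator of the relation -/
def ind (u v : V) : ℝ := if ψ u v then 1 else 0

/-- class of a type -/
def cls {T : Type} [DecidableEq T] (τ : V → T) (i : T) : Finset V := univ.filter fun v => τ v = i

/-- density of the relation on a rectangle -/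
noncomputable def dn (A B : Finset V) : ℝ :=
  (((A ×ˢ B).filter fun e => ψ e.1 e.2).card : ℝ) / (A.card * B.card)

/-- density between two types -/
noncomputable def wd {T : Type} [DecidableEq T] (τ : V → T) (i j : T) : ℝ :=
  dn ψ (cls τ i) (cls τ j)

/-- energy of a type map -/
noncomputable def en {T : Type} [DecidableEq T] (τ : V → T) : ℝ :=
  ∑ u, ∑ v, wd ψ τ (τ u) (τ v) ^ 2

omit [Fintype V] in
lemma ind_mem (u v : V) : 0 ≤ ind ψ u v ∧ ind ψ u v ≤ 1 := by
  unfold ind; split_ifs <;> norm_num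

omit [Fintype V] in
lemma card_eq_sum (A B : Finset V) :
    (((A ×ˢ B).filter fun e => ψ e.1 e.2).card : ℝ) = ∑ u ∈ A, ∑ v ∈ B, ind ψ u v := by
  rw [card_filter, ← sum_product' A B (fun u v => ind ψ u v)]
  push_cast
  rfl

omit [Fintype V] in
lemma dn_mem (A B : Finset V) : 0 ≤ dn ψ A B ∧ dn ψ A B ≤ 1 := by
  unfold dn
  refine ⟨by positivity, div_le_one_of_le₀ ?_ (by positivity)⟩
  have := card_filter_le (A ×ˢ B) (fun e => ψ e.1 e.2)
  rw [card_product] at this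
  exact_mod_cast this

omit [Fintype V] in
lemma dn_mul (A B : Finset V) : (A.card * B.card : ℝ) * dn ψ A B = ∑ u ∈ A, ∑ v ∈ B, ind ψ u v := by
  rw [← card_eq_sum]
  unfold dn
  by_cases h : (A.card * B.card : ℝ) = 0
  · rw [h, zero_mul]
    have h2 := card_filter_le (A ×ˢ B) (fun e => ψ e.1 e.2)
    rw [card_product] at h2
    have h3 : A.card * B.card = 0 := by exact_mod_cast h
    rw [h3] at h2
    simp [Nat.le_zero.1 h2]
  · exact mul_div_cancel₀ _ h

lemma wd_mem {T : Type} [DecidableEq T] (τ : V → T) (i j : T) :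
    0 ≤ wd ψ τ i j ∧ wd ψ τ i j ≤ 1 := dn_mem ψ _ _

lemma sum_fib {T : Type} [Fintype T] [DecidableEq T] (τ : V → T) (F : V → V → ℝ) :
    ∑ u, ∑ v, F u v = ∑ i, ∑ j, ∑ u ∈ cls τ i, ∑ v ∈ cls τ j, F u v := by
  unfold cls
  rw [← sum_fiberwise univ τ]
  refine sum_congr rfl fun i _ => ?_
  rw [sum_comm (s := univ)]
  refine sum_congr rfl fun u _ => ?_
  rw [← sum_fiberwise univ τ]

lemma cond_exp {T : Type} [Fintype T] [DecidableEq T] (τ : V → T) (g : T → T → ℝ) :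
    ∑ u, ∑ v, ind ψ u v * g (τ u) (τ v) = ∑ u, ∑ v, wd ψ τ (τ u) (τ v) * g (τ u) (τ v) := by
  rw [sum_fib τ, sum_fib τ]
  refine sum_congr rfl fun i _ => sum_congr rfl fun j _ => ?_
  have h1 : ∑ u ∈ cls τ i, ∑ v ∈ cls τ j, ind ψ u v * g (τ u) (τ v) =
      (∑ u ∈ cls τ i, ∑ v ∈ cls τ j, ind ψ u v) * g i j := by
    rw [sum_mul]
    refine sum_congr rfl fun u hu => ?_
    rw [sum_mul]
    refine sum_congr rfl fun v hv => ?_
    rw [(mem_filter.1 hu).2, (mem_filter.1 hv).2]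
  have h2 : ∑ u ∈ cls τ i, ∑ v ∈ cls τ j, wd ψ τ (τ u) (τ v) * g (τ u) (τ v) =
      ∑ u ∈ cls τ i, ∑ v ∈ cls τ j, wd ψ τ i j * g i j := by
    refine sum_congr rfl fun u hu => sum_congr rfl fun v hv => ?_
    rw [(mem_filter.1 hu).2, (mem_filter.1 hv).2]
  rw [h1, h2, ← dn_mul]
  simp only [sum_const, nsmul_eq_mul, wd]
  ring

lemma en_le {T : Type} [DecidableEq T] (τ : V → T) : en ψ τ ≤ (Fintype.card V : ℝ) ^ 2 := by
  unfold en
  calc _ ≤ ∑ u : V, ∑ v : V, (1 : ℝ) := sum_le_sum fun u _ => sum_le_sum fun v _ =>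
        pow_le_one₀ (wd_mem ψ τ _ _).1 (wd_mem ψ τ _ _).2
    _ = _ := by simp [sq]

lemma en_nonneg {T : Type} [DecidableEq T] (τ : V → T) : 0 ≤ en ψ τ :=
  sum_nonneg fun _ _ => sum_nonneg fun _ _ => sq_nonneg _

lemma en_equiv {T T' : Type} [DecidableEq T] [DecidableEq T'] (τ : V → T) (e : T ≃ T') :
    en ψ (fun v => e (τ v)) = en ψ τ := by
  unfold en wd cls
  simp only [Equiv.apply_eq_iff_eq]

lemma en_diff {T T' : Type} [Fintype T] [DecidableEq T] [Fintype T'] [DecidableEq T']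
    (σ : V → T') (π : T' → T) :
    ∑ u, ∑ v, (wd ψ σ (σ u) (σ v) - wd ψ (fun v => π (σ v)) (π (σ u)) (π (σ v))) ^ 2 =
      en ψ σ - en ψ (fun v => π (σ v)) := by
  have h1 := cond_exp ψ σ (fun s t => wd ψ (fun v => π (σ v)) (π s) (π t))
  have h2 := cond_exp ψ (fun v => π (σ v)) (wd ψ (fun v => π (σ v)))
  unfold en
  simp only [sub_sq, sum_add_distrib, sum_sub_distrib, mul_assoc, ← mul_sum]
  simp only [sq]
  rw [← h1, h2]
  ring

/-- small energy gain gives a small correlation with every function of the refined types -/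
lemma cut_bound [Nonempty V] {T T' : Type} [Fintype T] [DecidableEq T] [Fintype T'] [DecidableEq T']
    (σ : V → T') (π : T' → T) (ε : ℝ) (hε : 0 ≤ ε)
    (h : en ψ σ ≤ en ψ (fun v => π (σ v)) + ε ^ 2 * (Fintype.card V : ℝ) ^ 2)
    (c : V → V → ℝ) (hc : ∀ u v, |c u v| ≤ 1)
    (hm : ∀ u u' v v', σ u = σ u' → σ v = σ v' → c u v = c u' v') :
    |∑ u, ∑ v, (wd ψ (fun v => π (σ v)) (π (σ u)) (π (σ v)) - ind ψ u v) * c u v| ≤
      ε * (Fintype.card V : ℝ) ^ 2 := by
  set g : T' → T' → ℝ := fun s t => c (Function.invFun σ s) (Function.invFun σ t) with hg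
  have hcg : ∀ u v, c u v = g (σ u) (σ v) := fun u v =>
    hm _ _ _ _ (Function.invFun_eq ⟨u, rfl⟩).symm (Function.invFun_eq ⟨v, rfl⟩).symm
  have h1 := cond_exp ψ σ g
  simp only [← hcg] at h1
  set D : V × V → ℝ := fun e =>
    wd ψ σ (σ e.1) (σ e.2) - wd ψ (fun v => π (σ v)) (π (σ e.1)) (π (σ e.2)) with hD
  have h2 : ∑ u, ∑ v, (wd ψ (fun v => π (σ v)) (π (σ u)) (π (σ v)) - ind ψ u v) * c u v =
      -∑ e : V × V, D e * c e.1 e.2 := by
    rw [Fintype.sum_prod_type]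
    simp only [hD, sub_mul, sum_sub_distrib]
    rw [h1]; ring
  have h3 : ∑ e : V × V, D e ^ 2 ≤ ε ^ 2 * (Fintype.card V : ℝ) ^ 2 := by
    rw [Fintype.sum_prod_type]
    simp only [hD]
    rw [en_diff]; linarith
  have h4 : ∑ e : V × V, c e.1 e.2 ^ 2 ≤ (Fintype.card V : ℝ) ^ 2 := by
    calc _ ≤ ∑ e : V × V, (1 : ℝ) := sum_le_sum fun e _ => by
          rw [← sq_abs]; exact pow_le_one₀ (abs_nonneg _) (hc _ _)
      _ = _ := by simp [sq]
  have h5 := sum_mul_sq_le_sq_mul_sq univ D (fun e => c e.1 e.2)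
  rw [h2, abs_neg]
  refine abs_le_of_sq_le_sq' ?_ (by positivity) |> abs_le.2
  calc _ ≤ _ := h5
    _ ≤ (ε ^ 2 * (Fintype.card V : ℝ) ^ 2) * (Fintype.card V : ℝ) ^ 2 :=
        mul_le_mul h3 h4 (sum_nonneg fun _ _ => sq_nonneg _) (by positivity)
    _ = _ := by ring

/-- refinement of the types by the adjacency to the sample points -/
def refine {T : Type} {n : ℕ} (τ : V → T) (a b : Fin n → V) (v : V) :
    T × (Fin n → Bool) × (Fin n → Bool) :=
  (τ v, fun i => decide (ψ v (a i)), fun j => decide (ψ v (b j)))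

/-- the numbers of types -/
def Ls (N : ℕ → ℕ) : ℕ → ℕ
  | 0 => 1
  | t + 1 => Ls N t * (2 ^ N (Ls N t) * 2 ^ N (Ls N t))

lemma exists_good_aux (N : ℕ → ℕ) (ε : ℝ) (t : ℕ) :
    (∃ s ≤ t, ∃ τ : V → Fin (Ls N s), ∀ a b : Fin (N (Ls N s)) → V,
      en ψ (refine ψ τ a b) ≤ en ψ τ + ε ^ 2 * (Fintype.card V : ℝ) ^ 2) ∨
    ∃ τ : V → Fin (Ls N t), t * (ε ^ 2 * (Fintype.card V : ℝ) ^ 2) ≤ en ψ τ := by
  induction t with
  | zero =>
    right
    exact ⟨fun _ => ⟨0, Nat.one_pos⟩, by simpa using en_nonneg ψ _⟩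
  | succ t ih =>
    rcases ih with ⟨s, hs, h⟩ | ⟨τ, hτ⟩
    · exact Or.inl ⟨s, hs.trans (Nat.le_succ t), h⟩
    · by_cases h : ∀ a b : Fin (N (Ls N t)) → V,
        en ψ (refine ψ τ a b) ≤ en ψ τ + ε ^ 2 * (Fintype.card V : ℝ) ^ 2
      · exact Or.inl ⟨t, Nat.le_succ t, τ, h⟩
      · right
        push Not at h
        obtain ⟨a, b, hab⟩ := h
        have hc : Fintype.card (Fin (Ls N t) × (Fin (N (Ls N t)) → Bool) × (Fin (N (Ls N t)) → Bool))
            = Ls N (t + 1) := by simp [Ls]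
        refine ⟨fun v => Fintype.equivFinOfCardEq hc (refine ψ τ a b v), ?_⟩
        rw [en_equiv]
        push_cast
        linarith

lemma exists_good [Nonempty V] (N : ℕ → ℕ) (ε : ℝ) (t : ℕ) (ht : 1 < t * ε ^ 2) :
    ∃ s ≤ t, ∃ τ : V → Fin (Ls N s), ∀ a b : Fin (N (Ls N s)) → V,
      en ψ (refine ψ τ a b) ≤ en ψ τ + ε ^ 2 * (Fintype.card V : ℝ) ^ 2 := by
  rcases exists_good_aux ψ N ε t with h | ⟨τ, hτ⟩
  · exact h
  · exfalso
    have h1 := en_le ψ τ
    have h2 : (0 : ℝ) < (Fintype.card V : ℝ) ^ 2 := by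
      have : 0 < Fintype.card V := Fintype.card_pos
      positivity
    nlinarith

lemma resample {n : ℕ} (i : Fin n) (G : (Fin n → V) → ℝ) :
    ∑ a : Fin n → V, ∑ u : V, G (Function.update a i u) = (Fintype.card V : ℝ) * ∑ a, G a := by
  let f : (Fin n → V) × V → (Fin n → V) × V := fun p => (Function.update p.1 i p.2, p.1 i)
  have hf : Function.Involutive f := fun p => by simp [f]
  have h := Equiv.sum_comp hf.toPerm (fun p => G p.1)
  simp only [Function.Involutive.coe_toPerm, f, Fintype.sum_prod_type, sum_const, card_univ,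
    nsmul_eq_mul] at h
  rw [h, mul_sum]

lemma resample2 {n : ℕ} (i j : Fin n) (G : (Fin n → V) → (Fin n → V) → ℝ) :
    ∑ a : Fin n → V, ∑ b : Fin n → V, ∑ u : V, ∑ v : V,
      G (Function.update a i u) (Function.update b j v) =
      (Fintype.card V : ℝ) ^ 2 * ∑ a, ∑ b, G a b := by
  have h1 : ∀ a : Fin n → V, ∑ b : Fin n → V, ∑ u : V, ∑ v : V,
      G (Function.update a i u) (Function.update b j v) =
      ∑ u : V, (Fintype.card V : ℝ) * ∑ b, G (Function.update a i u) b := by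
    intro a
    rw [sum_comm]
    exact sum_congr rfl fun u _ => resample j (G (Function.update a i u))
  simp only [h1]
  rw [resample i (fun a => (Fintype.card V : ℝ) * ∑ b, G a b), ← mul_sum]
  ring

lemma sum_one {n : ℕ} (c : ℝ) :
    ∑ _a : Fin n → V, ∑ _b : Fin n → V, c = (Fintype.card V : ℝ) ^ (2 * n) * c := by
  simp only [sum_const, card_univ, Fintype.card_fun, Fintype.card_fin, nsmul_eq_mul]
  push_cast
  ring

/-- an average bound after resampling gives an average bound -/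
lemma le_of_resample [Nonempty V] {n : ℕ} (i j : Fin n) (G : (Fin n → V) → (Fin n → V) → ℝ) (c : ℝ)
    (h : ∀ a b, ∑ u : V, ∑ v : V, G (Function.update a i u) (Function.update b j v) ≤
      c * (Fintype.card V : ℝ) ^ 2) :
    ∑ a, ∑ b, G a b ≤ (Fintype.card V : ℝ) ^ (2 * n) * c := by
  have h2 : (0 : ℝ) < (Fintype.card V : ℝ) ^ 2 := by
    have : 0 < Fintype.card V := Fintype.card_pos
    positivity
  refine le_of_mul_le_mul_left ?_ h2
  rw [← resample2 i j G]
  calc _ ≤ ∑ _a : Fin n → V, ∑ _b : Fin n → V, c * (Fintype.card V : ℝ) ^ 2 :=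
        sum_le_sum fun a _ => sum_le_sum fun b _ => h a b
    _ = _ := by rw [sum_one]; ring

end Pool.Agent.P.MP_2d96df_co.Smp
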