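import Pool.Agent.P.MP_2d96df_co.SampleA

/-! Hybrid argument and second moment bounds for the sampling step. -/

namespace Pool.Agent.P.MP_2d96df_co.Smp
open Finset

lemma Ex_ind {ι : Type*} [DecidableEq ι] (E : Finset ι) (P : ι → Prop) [DecidablePred P]
    (φ : Finset ι → ℝ) : Ex E (fun e => if P e then 1 else 0) φ = φ (E.filter P) := by
  induction E using Finset.induction_on generalizing φ with
  | empty => simp
  | insert e E he ih =>
    rw [Ex_insert he, ih, ih, filter_insert]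
    by_cases h : P e <;> simp [h]

lemma abs_Ex_le {ι : Type*} [DecidableEq ι] {E : Finset ι} {p : ι → ℝ}
    (hp : ∀ e ∈ E, 0 ≤ p e ∧ p e ≤ 1) {f : Finset ι → ℝ} (hf : ∀ X, |f X| ≤ 1) :
    |Ex E p f| ≤ 1 := by
  rw [abs_le]
  constructor
  · have := Ex_mono hp (f := fun _ => (-1 : ℝ)) (g := f) (fun X _ => (abs_le.1 (hf X)).1)
    rwa [Ex_const] at this
  · have := Ex_mono hp (g := fun _ => (1 : ℝ)) (f := f) (fun X _ => (abs_le.1 (hf X)).2)
    rwa [Ex_const] at this

variable {V : Type} [Fintype V] (ψ : V → V → Prop) [DecidableRel ψ]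
variable {T : Type} [DecidableEq T] (τ : V → T) {n : ℕ}

/-- the hybrid probabilities -/
noncomputable def pS (S : Finset (Fin n × Fin n)) (a b : Fin n → V) (e : Fin n × Fin n) : ℝ :=
  if e ∈ S then wd ψ τ (τ (a e.1)) (τ (b e.2)) else ind ψ (a e.1) (b e.2)

lemma pS_mem (S : Finset (Fin n × Fin n)) (a b : Fin n → V) (e : Fin n × Fin n) :
    0 ≤ pS ψ τ S a b e ∧ pS ψ τ S a b e ≤ 1 := by
  unfold pS
  split_ifs
  · exact wd_mem ψ τ _ _
  · exact ind_mem ψ _ _

lemma pS_meas (hs : ∀ a b, ψ a b → ψ b a) (S : Finset (Fin n × Fin n)) (a b : Fin n → V)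
    (i j : Fin n) {u u' v v' : V} (hu : refine ψ τ a b u = refine ψ τ a b u')
    (hv : refine ψ τ a b v = refine ψ τ a b v') (e : Fin n × Fin n) (he : e ≠ (i, j)) :
    pS ψ τ S (Function.update a i u) (Function.update b j v) e =
      pS ψ τ S (Function.update a i u') (Function.update b j v') e := by
  obtain ⟨k, l⟩ := e
  simp only [refine, Prod.mk.injEq] at hu hv
  obtain ⟨hu1, -, hu3⟩ := hu
  obtain ⟨hv1, hv2, -⟩ := hv
  have hu3' : ∀ l, ψ u (b l) ↔ ψ u' (b l) := fun l => by simpa using congrFun hu3 l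
  have hv2' : ∀ k, ψ (a k) v ↔ ψ (a k) v' := fun k => by
    have : ψ v (a k) ↔ ψ v' (a k) := by simpa using congrFun hv2 k
    exact ⟨fun h => hs _ _ (this.1 (hs _ _ h)), fun h => hs _ _ (this.2 (hs _ _ h))⟩
  unfold pS ind
  by_cases hk : k = i
  · have hl : l ≠ j := fun h => he (by rw [hk, h])
    subst hk
    simp only [Function.update_self, Function.update_of_ne hl, hu1, hu3']
  · by_cases hl : l = j
    · subst hl
      simp only [Function.update_self, Function.update_of_ne hk, hv1, hv2']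
    · simp only [Function.update_of_ne hk, Function.update_of_ne hl]

variable [Fintype T] [Nonempty V]

lemma hybrid_step (hs : ∀ a b, ψ a b → ψ b a) (ε : ℝ) (hε : 0 ≤ ε)
    (hg : ∀ a b : Fin n → V, en ψ (refine ψ τ a b) ≤ en ψ τ + ε ^ 2 * (Fintype.card V : ℝ) ^ 2)
    (φ : Finset (Fin n × Fin n) → ℝ) (hφ : ∀ X e, |φ (insert e X) - φ X| ≤ 1)
    (S : Finset (Fin n × Fin n)) (e : Fin n × Fin n) (he : e ∉ S) :
    ∑ a, ∑ b, (Ex univ (pS ψ τ S a b) φ - Ex univ (pS ψ τ (insert e S) a b) φ) ≤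
      (Fintype.card V : ℝ) ^ (2 * n) * ε := by
  obtain ⟨i, j⟩ := e
  set c : (Fin n → V) → (Fin n → V) → ℝ := fun a b =>
    Ex (univ.erase (i, j)) (pS ψ τ S a b) (fun X => φ (insert (i, j) X) - φ X) with hc
  have key : ∀ a b, Ex univ (pS ψ τ S a b) φ - Ex univ (pS ψ τ (insert (i, j) S) a b) φ =
      -((wd ψ τ (τ (a i)) (τ (b j)) - ind ψ (a i) (b j)) * c a b) := by
    intro a b
    have e1 : (univ : Finset (Fin n × Fin n)) = insert (i, j) (univ.erase (i, j)) :=
      (insert_erase (mem_univ _)).symm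
    have e2 : ∀ f, Ex (univ.erase (i, j)) (pS ψ τ (insert (i, j) S) a b) f =
        Ex (univ.erase (i, j)) (pS ψ τ S a b) f := fun f =>
      Ex_congr_p (fun e he' => by simp only [pS, mem_insert, (mem_erase.1 he').1, false_or]) f
    have e3 : pS ψ τ S a b (i, j) = ind ψ (a i) (b j) := by simp only [pS, he, if_false]
    have e4 : pS ψ τ (insert (i, j) S) a b (i, j) = wd ψ τ (τ (a i)) (τ (b j)) := by
      simp only [pS, mem_insert_self, if_true]
    rw [e1, Ex_insert (notMem_erase _ _), Ex_insert (notMem_erase _ _), e2, e2, e3, e4]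
    simp only [hc, Ex_sub]
    ring
  simp only [key]
  refine le_of_resample i j _ ε fun a b => ?_
  simp only [Function.update_self, sum_neg_distrib]
  have h := cut_bound ψ (refine ψ τ a b) Prod.fst ε hε (hg a b)
    (fun u v => c (Function.update a i u) (Function.update b j v))
    (fun u v => abs_Ex_le (fun e _ => pS_mem ψ τ S _ _ e) (fun X => hφ X _))
    (fun u u' v v' hu hv => Ex_congr_p
      (fun e he' => pS_meas ψ τ hs S a b i j hu hv e (mem_erase.1 he').1) _)
  exact (neg_le_abs _).trans h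

lemma hybrid (hs : ∀ a b, ψ a b → ψ b a) (ε : ℝ) (hε : 0 ≤ ε)
    (hg : ∀ a b : Fin n → V, en ψ (refine ψ τ a b) ≤ en ψ τ + ε ^ 2 * (Fintype.card V : ℝ) ^ 2)
    (φ : Finset (Fin n × Fin n) → ℝ) (hφ : ∀ X e, |φ (insert e X) - φ X| ≤ 1) :
    ∑ a : Fin n → V, ∑ b : Fin n → V, φ (univ.filter fun e => ψ (a e.1) (b e.2)) ≤
      ∑ a : Fin n → V, ∑ b : Fin n → V, Ex univ (fun e => wd ψ τ (τ (a e.1)) (τ (b e.2))) φ +
        (Fintype.card V : ℝ) ^ (2 * n) * (ε * (n : ℝ) ^ 2) := by
  have h : ∀ S : Finset (Fin n × Fin n),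
      ∑ a : Fin n → V, ∑ b : Fin n → V, φ (univ.filter fun e => ψ (a e.1) (b e.2)) ≤
      ∑ a : Fin n → V, ∑ b : Fin n → V, Ex univ (pS ψ τ S a b) φ +
        (Fintype.card V : ℝ) ^ (2 * n) * (ε * S.card) := by
    intro S
    induction S using Finset.induction_on with
    | empty =>
      simp only [card_empty, Nat.cast_zero, mul_zero, add_zero]
      refine le_of_eq (sum_congr rfl fun a _ => sum_congr rfl fun b _ => ?_)
      rw [← Ex_ind univ (fun e : Fin n × Fin n => ψ (a e.1) (b e.2)) φ]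
      exact Ex_congr_p (fun e _ => by simp [pS, ind]) _
    | insert e S he ih =>
      have h1 := hybrid_step ψ τ hs ε hε hg φ hφ S e he
      simp only [sum_sub_distrib] at h1
      rw [card_insert_of_notMem he]
      push_cast
      linarith
  have h2 := h univ
  simp only [card_univ, Fintype.card_prod, Fintype.card_fin] at h2
  have e : ∀ a b : Fin n → V, pS ψ τ univ a b = fun e => wd ψ τ (τ (a e.1)) (τ (b e.2)) :=
    fun a b => funext fun e => by simp [pS]
  simp only [e] at h2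
  push_cast at h2
  rwa [← sq] at h2

omit [DecidableEq T] [Fintype T] in
/-- first moment -/
lemma mean_le (h : V → V → ℝ) (c : ℝ) (hc : ∑ u, ∑ v, h u v ≤ c * (Fintype.card V : ℝ) ^ 2) :
    ∑ a : Fin n → V, ∑ b : Fin n → V, ∑ e : Fin n × Fin n, h (a e.1) (b e.2) ≤
      (Fintype.card V : ℝ) ^ (2 * n) * (c * (n : ℝ) ^ 2) := by
  have h1 : ∑ a : Fin n → V, ∑ b : Fin n → V, ∑ e : Fin n × Fin n, h (a e.1) (b e.2) =
      ∑ e : Fin n × Fin n, ∑ a : Fin n → V, ∑ b : Fin n → V, h (a e.1) (b e.2) := by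
    rw [sum_comm (s := (univ : Finset (Fin n × Fin n)))]
    exact sum_congr rfl fun a _ => sum_comm
  rw [h1]
  calc _ ≤ ∑ _e : Fin n × Fin n, (Fintype.card V : ℝ) ^ (2 * n) * c :=
        sum_le_sum fun e _ => le_of_resample e.1 e.2 _ c fun a b => by
          simpa only [Function.update_self] using hc
    _ = _ := by simp [sq]; ring

omit [DecidableEq T] [Fintype T] in
/-- second moment -/
lemma var_le (h : V → V → ℝ) (h1 : ∀ u v, |h u v| ≤ 1) (h0 : ∑ u, ∑ v, h u v = 0) :
    ∑ a : Fin n → V, ∑ b : Fin n → V, (∑ e : Fin n × Fin n, h (a e.1) (b e.2)) ^ 2 ≤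
      (Fintype.card V : ℝ) ^ (2 * n) * (2 * (n : ℝ) ^ 3) := by
  have e1 : ∑ a : Fin n → V, ∑ b : Fin n → V, (∑ e : Fin n × Fin n, h (a e.1) (b e.2)) ^ 2 =
      ∑ e : Fin n × Fin n, ∑ e' : Fin n × Fin n, ∑ a : Fin n → V, ∑ b : Fin n → V,
        h (a e.1) (b e.2) * h (a e'.1) (b e'.2) := by
    simp only [sq, sum_mul_sum]
    rw [← sum_product' univ univ (fun (e : Fin n × Fin n) (e' : Fin n × Fin n) =>
      ∑ a : Fin n → V, ∑ b : Fin n → V, h (a e.1) (b e.2) * h (a e'.1) (b e'.2))]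
    simp only [← sum_product' univ univ (fun (e : Fin n × Fin n) (e' : Fin n × Fin n) => _)]
    rw [sum_comm (s := (univ : Finset (Fin n × Fin n)) ×ˢ univ)]
    exact sum_congr rfl fun a _ => sum_comm
  have e2 : ∀ e e' : Fin n × Fin n, ∑ a : Fin n → V, ∑ b : Fin n → V,
      h (a e.1) (b e.2) * h (a e'.1) (b e'.2) ≤ (Fintype.card V : ℝ) ^ (2 * n) *
        ((if e'.1 = e.1 then 1 else 0) + (if e'.2 = e.2 then 1 else 0)) := by
    intro e e'
    by_cases hh : e'.1 = e.1 ∨ e'.2 = e.2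
    · rw [← sum_one]
      refine sum_le_sum fun a _ => sum_le_sum fun b _ => ?_
      have : h (a e.1) (b e.2) * h (a e'.1) (b e'.2) ≤ 1 := by
        refine (le_abs_self _).trans ?_
        rw [abs_mul]
        exact mul_le_one₀ (h1 _ _) (abs_nonneg _) (h1 _ _)
      refine this.trans ?_
      rcases hh with hh | hh <;> simp only [hh, if_true] <;> split_ifs <;> norm_num
    · push Not at hh
      simp only [hh.1, hh.2, if_false, add_zero]
      refine le_of_resample e.1 e.2 _ 0 fun a b => ?_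
      simp only [Function.update_self, Function.update_of_ne hh.1, Function.update_of_ne hh.2,
        ← sum_mul, h0]
      simp
  rw [e1]
  refine (sum_le_sum fun e _ => sum_le_sum fun e' _ => e2 e e').trans (le_of_eq ?_)
  simp only [← mul_sum, sum_add_distrib]
  congr 1
  have f1 : ∀ e : Fin n × Fin n, ∑ e' : Fin n × Fin n, (if e'.1 = e.1 then (1 : ℝ) else 0) = n := by
    intro e
    rw [Fintype.sum_prod_type_right]
    simp
  have f2 : ∀ e : Fin n × Fin n, ∑ e' : Fin n × Fin n, (if e'.2 = e.2 then (1 : ℝ) else 0) = n := by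
    intro e
    rw [Fintype.sum_prod_type]
    simp
  simp only [f1, f2, sum_const, card_univ, Fintype.card_prod, Fintype.card_fin, nsmul_eq_mul]
  push_cast
  ring

omit [Nonempty V] in
/-- few points lie in small classes -/
lemma small_card (θ : ℝ) (hθ : 0 ≤ θ) :
    ∑ u : V, (if ((cls τ (τ u)).card : ℝ) < θ then (1 : ℝ) else 0) ≤ Fintype.card T * θ := by
  rw [← sum_fiberwise univ τ]
  calc _ ≤ ∑ _i : T, θ := sum_le_sum fun i _ => ?_
    _ = _ := by simp
  have : ∑ u ∈ univ.filter (fun u => τ u = i), (if ((cls τ (τ u)).card : ℝ) < θ then (1 : ℝ) else 0)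
      = ∑ u ∈ cls τ i, (if ((cls τ i).card : ℝ) < θ then (1 : ℝ) else 0) :=
    sum_congr rfl fun u hu => by rw [(mem_filter.1 hu).2]
  rw [this, sum_const, nsmul_eq_mul]
  split_ifs with h
  · linarith
  · simpa using hθ

end Pool.Agent.P.MP_2d96df_co.Smp
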