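import Pool.Agent.P.MP_2d96df_co.SampleB

/-! The sampling theorem from the multi-type theorem. -/

namespace Pool.Agent.P.MP_2d96df_co.Smp
open Finset

lemma abar_near (x : ℝ) (n : ℕ) (hx0 : 0 ≤ x) (hn : 0 < n) :
    1 - (1 - x) ^ 2 ≤ 1 - (1 - (⌊x * n⌋₊ : ℝ) / n) ^ 2 + 2 / n := by
  have hn' : (0 : ℝ) < n := by exact_mod_cast hn
  have h1 : (⌊x * n⌋₊ : ℝ) / n ≤ x := by
    rw [div_le_iff₀ hn']; exact Nat.floor_le (by positivity)
  have h2 : x - 1 / n ≤ (⌊x * n⌋₊ : ℝ) / n := by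
    rw [le_div_iff₀ hn', sub_mul, one_div_mul_cancel hn'.ne']
    linarith [Nat.lt_floor_add_one (x * n)]
  have h3 : 0 ≤ (⌊x * n⌋₊ : ℝ) / n := by positivity
  have h4 : (2 : ℝ) / n = 2 * (1 / n) := by ring
  have h5 : (0 : ℝ) ≤ 1 / n := by positivity
  rw [h4]
  set y := (⌊x * n⌋₊ : ℝ) / n
  set r := (1 : ℝ) / n
  nlinarith [mul_nonneg (sub_nonneg.2 h1) h3, mul_nonneg (sub_nonneg.2 h1) hx0]

theorem sample_null_of (η δ : ℝ) (hη : 0 < η) (hδ : 0 < δ)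
    (hMT : ∃ γ : ℝ, 0 < γ ∧ ∀ ε : ℝ, 0 < ε → ∀ L : ℕ, ∃ N0 : ℕ, ∀ n0 : ℕ, N0 ≤ n0 → ∀ d0 : ℕ,
      η * n0 ≤ d0 → (d0 : ℝ) ≤ (1 - η) * n0 →
      ∀ {W : Type} [AddCommGroup W] [Module ℝ W] (v : Fin n0 × Fin n0 → W), BipOK n0 d0 v →
      ∀ (α β : Fin n0 → Fin L) (w : Fin L → Fin L → ℝ), (∀ i j, 0 ≤ w i j ∧ w i j ≤ 1) →
      (((univ.filter fun e : Fin n0 × Fin n0 =>
          1 - (1 - (d0 : ℝ) / n0) ^ 2 + γ < w (α e.1) (β e.2)).card : ℝ) ≤ ε * (n0 : ℝ) ^ 2) →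
      (∑ e : Fin n0 × Fin n0, w (α e.1) (β e.2)
          ≤ (1 - (1 - (d0 : ℝ) / n0) ^ 2 - δ / 2) * (n0 : ℝ) ^ 2) →
      Ex univ (fun e : Fin n0 × Fin n0 => w (α e.1) (β e.2))
        (fun X => (X.card : ℝ) - rk v X) ≤ 6 * ε * (n0 : ℝ) ^ 2) :
    ∃ γ : ℝ, 0 < γ ∧ ∀ ε : ℝ, 0 < ε → ∃ ε₁ : ℝ, 0 < ε₁ ∧ ∃ Nmax : ℕ,
      ∀ (V : Type) [Fintype V] [DecidableEq V] [Nonempty V] (ψ : V → V → Prop) [DecidableRel ψ],
      (∀ a b, ψ a b → ψ b a) → ∀ x : ℝ, 2 * η ≤ x → x ≤ 1 - η →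
      (∀ A B : Finset V, (((A ×ˢ B).filter fun e => ψ e.1 e.2).card : ℝ)
          ≤ (1 - (1 - x) ^ 2 + γ) * A.card * B.card + ε₁ * (Fintype.card V : ℝ) ^ 2) →
      (((univ.filter fun e : V × V => ψ e.1 e.2).card : ℝ)
          ≤ (1 - (1 - x) ^ 2 - δ) * (Fintype.card V : ℝ) ^ 2) →
      ∃ n0 : ℕ, 1 ≤ ε * n0 ∧ n0 ≤ Nmax ∧
        ∀ {W : Type} [AddCommGroup W] [Module ℝ W] (v : Fin n0 × Fin n0 → W),
        BipOK n0 ⌊x * n0⌋₊ v →
        ∑ a : Fin n0 → V, ∑ b : Fin n0 → V,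
          (((univ.filter fun e : Fin n0 × Fin n0 => ψ (a e.1) (b e.2)).card : ℝ)
            - rk v (univ.filter fun e : Fin n0 × Fin n0 => ψ (a e.1) (b e.2)))
          ≤ ε * (n0 : ℝ) ^ 2 * (Fintype.card V : ℝ) ^ (2 * n0) := by
  obtain ⟨γ, hγ, hMT⟩ := hMT
  refine ⟨γ / 2, by positivity, fun ε hε => ?_⟩
  set κ : ℝ := ε / 10 with hκ
  have hκ0 : 0 < κ := by positivity
  choose N0 hN0 using hMT κ hκ0
  set M : ℕ := ⌈1 / η + 1 / ε + 8 / γ + 8 / δ + 32 / (δ ^ 2 * κ)⌉₊ with hM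
  set N : ℕ → ℕ := fun L => max (N0 L) M with hN
  set t : ℕ := ⌈1 / κ ^ 2⌉₊ + 1 with ht
  have ht1 : 1 < t * κ ^ 2 := by
    rw [← div_lt_iff₀ (by positivity), ht]
    push_cast
    linarith [Nat.le_ceil (1 / κ ^ 2)]
  set Lmax : ℕ := (range (t + 1)).sup (Ls N) + 1 with hLmax
  have hLmax0 : (0 : ℝ) < Lmax := by rw [hLmax]; positivity
  refine ⟨γ * κ ^ 4 / (4 * (Lmax : ℝ) ^ 2), by positivity,
    (range (t + 1)).sup (fun s => N (Ls N s)), ?_⟩
  intro V _ _ _ ψ _ hs x hx1 hx2 hreg hden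
  obtain ⟨s, hst, τ, hg⟩ := exists_good ψ N κ t ht1
  have hsr : s ∈ range (t + 1) := mem_range.2 (Nat.lt_succ_of_le hst)
  have hLle : Ls N s ≤ Lmax := (le_sup (f := Ls N) hsr).trans (Nat.le_succ _)
  have hNle : N (Ls N s) ≤ (range (t + 1)).sup (fun s => N (Ls N s)) :=
    le_sup (f := fun s => N (Ls N s)) hsr
  have hMT' := hN0 (Ls N s) (N (Ls N s)) (le_max_left _ _)
  have hMn : M ≤ N (Ls N s) := le_max_right _ _
  generalize N (Ls N s) = n at hg hNle hMT' hMn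
  generalize Ls N s = L at τ hg hLle hMT'
  have hL0 : (0 : ℝ) < L := by
    obtain ⟨u⟩ := ‹Nonempty V›
    exact_mod_cast (τ u).pos
  have hLle' : (L : ℝ) ≤ Lmax := by exact_mod_cast hLle
  have hV : (0 : ℝ) < Fintype.card V := by exact_mod_cast Fintype.card_pos
  have hMn' : 1 / η + 1 / ε + 8 / γ + 8 / δ + 32 / (δ ^ 2 * κ) ≤ (n : ℝ) :=
    (Nat.le_ceil _).trans (by exact_mod_cast hMn)
  have p1 : 0 < 1 / η := by positivity
  have p2 : 0 < 1 / ε := by positivity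
  have p3 : 0 < 8 / γ := by positivity
  have p4 : 0 < 8 / δ := by positivity
  have p5 : 0 < 32 / (δ ^ 2 * κ) := by positivity
  have hn0 : (0 : ℝ) < n := by linarith
  have hn0' : 0 < n := by exact_mod_cast hn0
  have q1 : 1 ≤ η * n := by
    have : 1 / η ≤ n := by linarith
    rwa [div_le_iff₀ hη, mul_comm] at this
  have q2 : 1 ≤ ε * n := by
    have : 1 / ε ≤ n := by linarith
    rwa [div_le_iff₀ hε, mul_comm] at this
  have q3 : 2 / (n : ℝ) ≤ γ / 4 := by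
    have : 8 / γ ≤ n := by linarith
    rw [div_le_iff₀ hγ] at this
    rw [div_le_iff₀ hn0]; linarith
  have q4 : 2 / (n : ℝ) ≤ δ / 4 := by
    have : 8 / δ ≤ n := by linarith
    rw [div_le_iff₀ hδ] at this
    rw [div_le_iff₀ hn0]; linarith
  have q5 : 32 ≤ n * (δ ^ 2 * κ) := by
    have : 32 / (δ ^ 2 * κ) ≤ n := by linarith
    rwa [div_le_iff₀ (by positivity)] at this
  refine ⟨n, q2, hNle, ?_⟩
  intro W _ _ v hv
  have hx0 : 0 ≤ x := by linarith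
  have hab := abar_near x n hx0 hn0'
  have hd1 : η * n ≤ (⌊x * n⌋₊ : ℝ) := by
    have := Nat.lt_floor_add_one (x * n)
    nlinarith
  have hd2 : (⌊x * n⌋₊ : ℝ) ≤ (1 - η) * n :=
    (Nat.floor_le (by positivity)).trans (by gcongr)
  set φ : Finset (Fin n × Fin n) → ℝ := fun X => (X.card : ℝ) - rk v X with hφ
  have hφ1 : ∀ X e, |φ (insert e X) - φ X| ≤ 1 := by
    intro X e
    by_cases he : e ∈ X
    · rw [insert_eq_of_mem he]; simp
    · have a1 : (rk v (insert e X) : ℝ) ≤ rk v X + 1 := by exact_mod_cast rk_insert_le v e X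
      have a2 : (rk v X : ℝ) ≤ rk v (insert e X) := by exact_mod_cast rk_mono v (subset_insert e X)
      simp only [hφ, card_insert_of_notMem he]
      push_cast
      rw [abs_le]; constructor <;> linarith
  have hφ2 : ∀ X, φ X ≤ (n : ℝ) ^ 2 := by
    intro X
    have a1 : (X.card : ℝ) ≤ (n : ℝ) ^ 2 := by
      have := card_le_univ X
      rw [Fintype.card_prod, Fintype.card_fin, ← sq] at this
      exact_mod_cast this
    have a2 : (0 : ℝ) ≤ rk v X := Nat.cast_nonneg _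
    simp only [hφ]; linarith
  have hH := hybrid ψ τ hs κ hκ0.le hg φ hφ1
  -- the coin model
  set θ : ℝ := κ ^ 2 * Fintype.card V / L with hθ
  have hθ0 : 0 < θ := by positivity
  set sm : V → ℝ := fun u => if ((cls τ (τ u)).card : ℝ) < θ then 1 else 0 with hsm
  have hsm0 : ∀ u, 0 ≤ sm u := fun u => by simp only [hsm]; split_ifs <;> norm_num
  have hsm1 : ∑ u, sm u ≤ κ ^ 2 * Fintype.card V := by
    have := small_card τ θ hθ0.le
    rw [Fintype.card_fin] at this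
    refine this.trans (le_of_eq ?_)
    rw [hθ]; field_simp
  have hmean := mean_le (n := n) (fun u v => sm u + sm v) (2 * κ ^ 2) (by
    simp only [sum_add_distrib, sum_const, card_univ, nsmul_eq_mul, ← mul_sum]
    nlinarith)
  set m : ℝ := (∑ u, ∑ v, wd ψ τ (τ u) (τ v)) / (Fintype.card V : ℝ) ^ 2 with hm
  have hsum : ∑ u, ∑ v, wd ψ τ (τ u) (τ v) = ((univ.filter fun e : V × V => ψ e.1 e.2).card : ℝ) := by
    have a1 := cond_exp ψ τ (fun _ _ => 1)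
    simp only [mul_one] at a1
    rw [← a1, ← card_eq_sum, univ_product_univ]
  have hm1 : m ≤ 1 - (1 - x) ^ 2 - δ := by
    rw [hm, div_le_iff₀ (by positivity), hsum]; exact hden
  have hm0 : 0 ≤ m := by rw [hm, hsum]; positivity
  have hvar := var_le (n := n) (fun u v => wd ψ τ (τ u) (τ v) - m) (fun u v => by
    have := wd_mem ψ τ (τ u) (τ v)
    rw [abs_le]; constructor <;> nlinarith [sq_nonneg (1 - x)]) (by
    simp only [sum_sub_distrib, sum_const, card_univ, nsmul_eq_mul]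
    rw [hm]; field_simp; ring)
  have hbig : ∀ u v, sm u + sm v < 1 →
      wd ψ τ (τ u) (τ v) ≤ 1 - (1 - (⌊x * n⌋₊ : ℝ) / n) ^ 2 + γ := by
    intro u v huv
    have a1 : θ ≤ (cls τ (τ u)).card := by
      by_contra h
      have : sm u = 1 := by simp only [hsm, not_le.1 h, if_true]
      linarith [hsm0 v]
    have a2 : θ ≤ (cls τ (τ v)).card := by
      by_contra h
      have : sm v = 1 := by simp only [hsm, not_le.1 h, if_true]
      linarith [hsm0 u]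
    have a3 := hreg (cls τ (τ u)) (cls τ (τ v))
    have a4 : γ * κ ^ 4 / (4 * (Lmax : ℝ) ^ 2) * (Fintype.card V : ℝ) ^ 2 ≤
        γ / 4 * ((cls τ (τ u)).card * (cls τ (τ v)).card) := by
      calc _ ≤ γ * κ ^ 4 / (4 * (L : ℝ) ^ 2) * (Fintype.card V : ℝ) ^ 2 := by gcongr
        _ = γ / 4 * (θ * θ) := by rw [hθ]; field_simp
        _ ≤ _ := by gcongr
    have a5 : (0 : ℝ) < (cls τ (τ u)).card * (cls τ (τ v)).card :=
      mul_pos (hθ0.trans_le a1) (hθ0.trans_le a2)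
    have a6 : wd ψ τ (τ u) (τ v) ≤ 1 - (1 - x) ^ 2 + γ / 2 + γ / 4 := by
      unfold wd dn
      rw [div_le_iff₀ a5]
      linarith
    linarith
  have hpt : ∀ a b : Fin n → V, Ex univ (fun e : Fin n × Fin n => wd ψ τ (τ (a e.1)) (τ (b e.2))) φ ≤
      6 * κ * (n : ℝ) ^ 2 + 1 / κ * ∑ e : Fin n × Fin n, (sm (a e.1) + sm (b e.2)) +
        16 / (δ ^ 2 * (n : ℝ) ^ 2) *
          (∑ e : Fin n × Fin n, (wd ψ τ (τ (a e.1)) (τ (b e.2)) - m)) ^ 2 := by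
    intro a b
    have c0 : Ex univ (fun e : Fin n × Fin n => wd ψ τ (τ (a e.1)) (τ (b e.2))) φ ≤ (n : ℝ) ^ 2 := by
      have := Ex_mono (E := univ) (p := fun e : Fin n × Fin n => wd ψ τ (τ (a e.1)) (τ (b e.2)))
        (fun e _ => wd_mem ψ τ _ _) (f := φ) (g := fun _ => (n : ℝ) ^ 2) (fun X _ => hφ2 X)
      rwa [Ex_const] at this
    set C : ℝ := ∑ e : Fin n × Fin n, (sm (a e.1) + sm (b e.2)) with hC
    set Y : ℝ := ∑ e : Fin n × Fin n, (wd ψ τ (τ (a e.1)) (τ (b e.2)) - m) with hY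
    have c1 : 0 ≤ C := sum_nonneg fun e _ => add_nonneg (hsm0 _) (hsm0 _)
    have c2 : 0 ≤ 1 / κ * C := by positivity
    have c3 : 0 ≤ 16 / (δ ^ 2 * (n : ℝ) ^ 2) * Y ^ 2 := by positivity
    have c4 : 0 ≤ 6 * κ * (n : ℝ) ^ 2 := by positivity
    by_cases h1 : C ≤ κ * (n : ℝ) ^ 2
    · by_cases h2 : Y ≤ δ / 4 * (n : ℝ) ^ 2
      · have := hMT' ⌊x * n⌋₊ hd1 hd2 v hv (fun i => τ (a i)) (fun j => τ (b j)) (wd ψ τ)
          (wd_mem ψ τ) ?_ ?_
        · linarith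
        · refine le_trans ?_ h1
          rw [card_filter]
          push_cast
          refine sum_le_sum fun e _ => ?_
          split_ifs with h
          · by_contra h'
            exact absurd (hbig _ _ (not_le.1 h')) (not_le.2 h)
          · exact add_nonneg (hsm0 _) (hsm0 _)
        · have e1 : Y = ∑ e : Fin n × Fin n, wd ψ τ (τ (a e.1)) (τ (b e.2)) - (n : ℝ) ^ 2 * m := by
            rw [hY, sum_sub_distrib]; simp [sq]
          have e2 : (0 : ℝ) ≤ (n : ℝ) ^ 2 := by positivity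
          nlinarith
      · push Not at h2
        have : (n : ℝ) ^ 2 ≤ 16 / (δ ^ 2 * (n : ℝ) ^ 2) * Y ^ 2 := by
          calc (n : ℝ) ^ 2 = 16 / (δ ^ 2 * (n : ℝ) ^ 2) * (δ / 4 * (n : ℝ) ^ 2) ^ 2 := by
                field_simp; norm_num
            _ ≤ _ := by gcongr
        linarith
    · push Not at h1
      have : (n : ℝ) ^ 2 ≤ 1 / κ * C := by
        rw [one_div_mul_eq_div, le_div_iff₀ hκ0]; linarith
      linarith
  have hsumpt := sum_le_sum (s := univ) fun a _ => sum_le_sum (s := univ) fun b _ => hpt a b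
  simp only [sum_add_distrib (s := (univ : Finset (Fin n → V))), ← mul_sum, sum_one] at hsumpt
  set Q : ℝ := (Fintype.card V : ℝ) ^ (2 * n) with hQ
  have hQ0 : 0 < Q := by positivity
  have f1 : 1 / κ * (Q * (2 * κ ^ 2 * (n : ℝ) ^ 2)) = 2 * κ * (n : ℝ) ^ 2 * Q := by field_simp
  have f2 : 16 / (δ ^ 2 * (n : ℝ) ^ 2) * (Q * (2 * (n : ℝ) ^ 3)) ≤ κ * (n : ℝ) ^ 2 * Q := by
    calc _ = 32 * (n / δ ^ 2 * Q) := by field_simp; norm_num
      _ ≤ n * (δ ^ 2 * κ) * (n / δ ^ 2 * Q) := by gcongr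
      _ = _ := by field_simp
  have f3 := mul_le_mul_of_nonneg_left hmean (by positivity : 0 ≤ 1 / κ)
  have f4 := mul_le_mul_of_nonneg_left hvar (by positivity : 0 ≤ 16 / (δ ^ 2 * (n : ℝ) ^ 2))
  have f5 : ε = 10 * κ := by rw [hκ]; ring
  rw [f5]
  refine hH.trans ?_
  linarith

end Pool.Agent.P.MP_2d96df_co.Smp
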