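import Mathlib

/-! Independent tensors for sparse sets of pairs, and Gale type dual configurations. -/

namespace Pool.Agent.P.MP_2d96df_co
open Finset

namespace Ten

variable {V : Type} [Fintype V] [DecidableEq V]

lemma vand {a : V → ℝ} (ha : Function.Injective a) {k0 : ℕ} (S : Finset V) (hS : S.card ≤ k0)
    (ω : V → ℝ) (hω : ∀ v, v ∉ S → ω v = 0) (h : ∀ j : Fin k0, ∑ v, ω v * a v ^ (j : ℕ) = 0) (v0 : V) :
    ω v0 = 0 := by
  by_cases hv : v0 ∈ S
  swap
  · exact hω v0 hv
  set P : Polynomial ℝ := ∏ v ∈ S.erase v0, (Polynomial.X - Polynomial.C (a v)) with hP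
  have hdeg : P.natDegree < k0 := by
    have h1 : P.natDegree = (S.erase v0).card := by
      rw [hP, Polynomial.natDegree_finsetProd_X_sub_C_eq_card]
    have h2 := card_erase_add_one hv
    omega
  have h1 : ∑ v, ω v * P.eval (a v) = 0 := by
    simp_rw [Polynomial.eval_eq_sum_range' hdeg, mul_sum]
    rw [sum_comm]
    refine sum_eq_zero fun j hj => ?_
    have := h ⟨j, mem_range.1 hj⟩
    calc ∑ v, ω v * (P.coeff j * a v ^ j) = P.coeff j * ∑ v, ω v * a v ^ j := by
          rw [mul_sum]; exact sum_congr rfl fun v _ => by ring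
      _ = 0 := by rw [this, mul_zero]
  rw [sum_eq_single v0] at h1
  · refine (mul_eq_zero.1 h1).resolve_right ?_
    rw [hP, Polynomial.eval_prod]
    refine prod_ne_zero_iff.2 fun v hv' => ?_
    simp only [Polynomial.eval_sub, Polynomial.eval_X, Polynomial.eval_C]
    exact sub_ne_zero.2 fun e => (mem_erase.1 hv').1 (ha e).symm
  · intro v _ hv'
    by_cases hvS : v ∈ S
    · rw [hP, Polynomial.eval_prod, prod_eq_zero (mem_erase.2 ⟨hv', hvS⟩) (by simp), mul_zero]
    · rw [hω v hvS, zero_mul]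
  · intro hh
    exact absurd (mem_univ _) hh

lemma same_colour {m : ℕ} (hm : 0 < m) (u u' : V) :
    ∑ c : V → Fin m, (if c u = c u' then (1 : ℝ) else 0) ≤
      (m : ℝ) ^ Fintype.card V * (if u = u' then 1 else 1 / (m : ℝ)) := by
  have hm' : (0 : ℝ) < m := by exact_mod_cast hm
  split_ifs with h
  · subst h; simp
  · rw [sum_boole, mul_one_div, le_div_iff₀ hm']
    have : ((univ.filter fun c : V → Fin m => c u = c u') ×ˢ (univ : Finset (Fin m))).card ≤
        (univ : Finset (V → Fin m)).card := by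
      refine card_le_card_of_injOn (fun p => Function.update p.1 u p.2) (fun _ _ => mem_coe.2 (mem_univ _)) ?_
      rintro ⟨c, i⟩ hp ⟨c', i'⟩ hp' hh
      have e1 : c u = c u' := (mem_filter.1 (mem_product.1 hp).1).2
      have e2 : c' u = c' u' := (mem_filter.1 (mem_product.1 hp').1).2
      have hh' : Function.update c u i = Function.update c' u i' := hh
      have e3 : ∀ v, v ≠ u → c v = c' v := fun v hv => by
        have := congrFun hh' v
        rwa [Function.update_of_ne hv, Function.update_of_ne hv] at this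
      have e4 : i = i' := by
        have := congrFun hh' u
        rwa [Function.update_self, Function.update_self] at this
      refine Prod.ext (funext fun v => ?_) e4
      by_cases hv : v = u
      · subst hv
        exact e1.trans ((e3 u' (Ne.symm h)).trans e2.symm)
      · exact e3 v hv
    rw [card_product, card_univ, card_univ, Fintype.card_fun, Fintype.card_fin] at this
    exact_mod_cast this

lemma colourings (H : Finset (V × V)) {D : ℕ} (hD : 0 < D) (hH : H.card ≤ D ^ 2)
    (hout : ∀ u, (H.filter fun e => e.1 = u).card ≤ D) (hin : ∀ u, (H.filter fun e => e.2 = u).card ≤ D) :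
    ∃ c c' : V → Fin (8 * D),
      ((H.filter fun e => ∃ e' ∈ H, e' ≠ e ∧ c e'.1 = c e.1 ∧ c' e'.2 = c' e.2).card : ℝ) ≤
        H.card / 2 := by
  have hm : 0 < 8 * D := by omega
  have hD' : (0 : ℝ) < D := by exact_mod_cast hD
  have : Nonempty (Fin (8 * D)) := ⟨⟨0, hm⟩⟩
  set m := 8 * D with hmdef
  have hm' : (m : ℝ) = 8 * D := by rw [hmdef]; push_cast; ring
  have key : ∑ p : (V → Fin m) × (V → Fin m),
      ((H.filter fun e => ∃ e' ∈ H, e' ≠ e ∧ p.1 e'.1 = p.1 e.1 ∧ p.2 e'.2 = p.2 e.2).card : ℝ) ≤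
      ∑ _p : (V → Fin m) × (V → Fin m), (H.card : ℝ) / 2 := by
    calc ∑ p : (V → Fin m) × (V → Fin m),
        ((H.filter fun e => ∃ e' ∈ H, e' ≠ e ∧ p.1 e'.1 = p.1 e.1 ∧ p.2 e'.2 = p.2 e.2).card : ℝ)
        ≤ ∑ p : (V → Fin m) × (V → Fin m), ∑ e ∈ H, ∑ e' ∈ H.erase e,
            (if p.1 e'.1 = p.1 e.1 then (1 : ℝ) else 0) * (if p.2 e'.2 = p.2 e.2 then (1 : ℝ) else 0) := by
          refine sum_le_sum fun p _ => ?_
          rw [← sum_boole]
          refine sum_le_sum fun e _ => ?_
          have hnn : ∀ e' ∈ H.erase e, (0 : ℝ) ≤ (if p.1 e'.1 = p.1 e.1 then (1 : ℝ) else 0) *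
              (if p.2 e'.2 = p.2 e.2 then (1 : ℝ) else 0) := fun e' _ => by positivity
          split_ifs with hb
          · obtain ⟨e', b1, b2, b3, b4⟩ := hb
            have := single_le_sum hnn (mem_erase.2 ⟨b2, b1⟩)
            rwa [if_pos b3, if_pos b4, one_mul] at this
          · exact sum_nonneg hnn
      _ = ∑ e ∈ H, ∑ e' ∈ H.erase e, (∑ c : V → Fin m, (if c e'.1 = c e.1 then (1 : ℝ) else 0)) *
            ∑ c : V → Fin m, (if c e'.2 = c e.2 then (1 : ℝ) else 0) := by
          rw [sum_comm]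
          refine sum_congr rfl fun e _ => ?_
          rw [sum_comm]
          refine sum_congr rfl fun e' _ => ?_
          rw [sum_mul_sum, Fintype.sum_prod_type]
      _ ≤ ∑ e ∈ H, ∑ e' ∈ H.erase e, ((m : ℝ) ^ Fintype.card V) ^ 2 *
            ((if e'.1 = e.1 then 1 / (m : ℝ) else 0) + (if e'.2 = e.2 then 1 / (m : ℝ) else 0) +
              (1 / (m : ℝ)) ^ 2) := by
          refine sum_le_sum fun e _ => sum_le_sum fun e' he' => ?_
          have b1 := same_colour hm e'.1 e.1
          have b2 := same_colour hm e'.2 e.2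
          have b3 := mul_le_mul b1 b2 (sum_nonneg fun _ _ => by positivity) (by positivity)
          refine b3.trans ?_
          have b4 : (if e'.1 = e.1 then 1 else 1 / (m : ℝ)) * (if e'.2 = e.2 then 1 else 1 / (m : ℝ)) ≤
              (if e'.1 = e.1 then 1 / (m : ℝ) else 0) + (if e'.2 = e.2 then 1 / (m : ℝ) else 0) +
                (1 / (m : ℝ)) ^ 2 := by
            have p1 : 0 ≤ (1 / (m : ℝ)) ^ 2 := by positivity
            split_ifs with c1 c2 c2
            · exact absurd (Prod.ext c1 c2) (mem_erase.1 he').1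
            · linarith
            · linarith
            · nlinarith
          calc _ = ((m : ℝ) ^ Fintype.card V) ^ 2 * ((if e'.1 = e.1 then 1 else 1 / (m : ℝ)) *
                (if e'.2 = e.2 then 1 else 1 / (m : ℝ))) := by ring
            _ ≤ _ := by gcongr
      _ ≤ ∑ _e ∈ H, ((m : ℝ) ^ Fintype.card V) ^ 2 * (1 / 2) := by
          refine sum_le_sum fun e _ => ?_
          rw [← mul_sum]
          refine mul_le_mul_of_nonneg_left ?_ (by positivity)
          calc _ ≤ ∑ e' ∈ H, ((if e'.1 = e.1 then 1 / (m : ℝ) else 0) +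
                (if e'.2 = e.2 then 1 / (m : ℝ) else 0) + (1 / (m : ℝ)) ^ 2) :=
                sum_le_sum_of_subset_of_nonneg (erase_subset _ _) fun _ _ _ => by positivity
            _ = ((H.filter fun e' => e'.1 = e.1).card : ℝ) * (1 / (m : ℝ)) +
                ((H.filter fun e' => e'.2 = e.2).card : ℝ) * (1 / (m : ℝ)) +
                (H.card : ℝ) * (1 / (m : ℝ)) ^ 2 := by
                rw [sum_add_distrib, sum_add_distrib, ← sum_filter, ← sum_filter]
                simp only [sum_const, nsmul_eq_mul]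
            _ ≤ (D : ℝ) * (1 / (m : ℝ)) + (D : ℝ) * (1 / (m : ℝ)) + (D : ℝ) ^ 2 * (1 / (m : ℝ)) ^ 2 := by
                have c1 : ((H.filter fun e' => e'.1 = e.1).card : ℝ) ≤ D := by exact_mod_cast hout e.1
                have c2 : ((H.filter fun e' => e'.2 = e.2).card : ℝ) ≤ D := by exact_mod_cast hin e.2
                have c3 : (H.card : ℝ) ≤ (D : ℝ) ^ 2 := by exact_mod_cast hH
                gcongr
            _ = 17 / 64 := by rw [hm']; field_simp; ring
            _ ≤ 1 / 2 := by norm_num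
      _ = _ := by
          simp only [sum_const, card_univ, Fintype.card_prod, Fintype.card_fun, Fintype.card_fin,
            nsmul_eq_mul]
          push_cast; ring
  obtain ⟨p, _, hp⟩ := exists_le_of_sum_le univ_nonempty key
  exact ⟨p.1, p.2, hp⟩

lemma few_heavy (H : Finset (V × V)) (f : V × V → V) {D : ℕ} (hD : 0 < D) (hH : H.card ≤ D ^ 2) :
    (univ.filter fun u => D ≤ (H.filter fun e => f e = u).card).card ≤ D := by
  have h1 : H.card = ∑ u, (H.filter fun e => f e = u).card :=
    card_eq_sum_card_fiberwise fun _ _ => mem_coe.2 (mem_univ _)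
  have h2 : (univ.filter fun u => D ≤ (H.filter fun e => f e = u).card).card • D ≤
      ∑ u ∈ univ.filter fun u => D ≤ (H.filter fun e => f e = u).card,
        (H.filter fun e => f e = u).card :=
    card_nsmul_le_sum _ _ _ fun u hu => (mem_filter.1 hu).2
  have h3 : ∑ u ∈ univ.filter fun u => D ≤ (H.filter fun e => f e = u).card,
      (H.filter fun e => f e = u).card ≤ ∑ u, (H.filter fun e => f e = u).card :=
    sum_le_sum_of_subset (filter_subset _ _)
  rw [smul_eq_mul] at h2
  have h4 : (univ.filter fun u => D ≤ (H.filter fun e => f e = u).card).card * D ≤ D * D := by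
    rw [← pow_two]; omega
  exact Nat.le_of_mul_le_mul_right h4 hD

lemma core {a : V → ℝ} (ha : Function.Injective a) (k0 : ℕ) (n : ℕ) : ∀ H : Finset (V × V), H.card = n →
    (∀ u, (H.filter fun e => e.1 = u).card ≤ k0) → (∀ u, (H.filter fun e => e.2 = u).card ≤ k0) →
    ∃ (κ : Type) (_ : Fintype κ) (w : V → κ → ℝ), (Fintype.card κ : ℝ) ≤ 128 * √(H.card : ℝ) ∧
      ∀ ω : V × V → ℝ, (∀ e, e ∉ H → ω e = 0) →
        (∀ (i : Fin k0) j, ∑ e : V × V, ω e * a e.1 ^ (i : ℕ) * w e.2 j = 0) →
        (∀ i (j : Fin k0), ∑ e : V × V, ω e * w e.1 i * a e.2 ^ (j : ℕ) = 0) →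
        (∀ i j, ∑ e : V × V, ω e * w e.1 i * w e.2 j = 0) → ∀ e, ω e = 0 := by
  induction n using Nat.strong_induction_on with
  | _ n ih =>
  intro H hn hout hin
  rcases Nat.eq_zero_or_pos n with h0 | h0
  · refine ⟨Empty, inferInstance, fun _ i => i.elim, by simp, fun ω hω _ _ _ e => hω e ?_⟩
    rw [card_eq_zero.1 (hn.trans h0)]
    exact notMem_empty _
  have hn1 : (1 : ℝ) ≤ H.card := by rw [hn]; exact_mod_cast h0
  set s := √(H.card : ℝ) with hs
  have hs1 : 1 ≤ s := Real.one_le_sqrt.2 hn1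
  have hss : s ^ 2 = H.card := Real.sq_sqrt (by linarith)
  set D := ⌈s⌉₊ with hDdef
  have hD1 : s ≤ D := Nat.le_ceil s
  have hD2 : (D : ℝ) ≤ 2 * s := by
    have := Nat.ceil_lt_add_one (by linarith : 0 ≤ s)
    linarith
  have hD : 0 < D := Nat.ceil_pos.2 (by linarith)
  have hH : H.card ≤ D ^ 2 := by
    have : (H.card : ℝ) ≤ (D : ℝ) ^ 2 := by rw [← hss]; gcongr
    exact_mod_cast this
  set T := (univ.filter fun u => D ≤ (H.filter fun e => e.1 = u).card) ∪
    (univ.filter fun u => D ≤ (H.filter fun e => e.2 = u).card) with hT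
  have hTc : T.card ≤ 2 * D := by
    have b1 := few_heavy H Prod.fst hD hH
    have b2 := few_heavy H Prod.snd hD hH
    have b3 := card_union_le (univ.filter fun u => D ≤ (H.filter fun e => e.1 = u).card)
      (univ.filter fun u => D ≤ (H.filter fun e => e.2 = u).card)
    rw [← hT] at b3
    omega
  set H' := H.filter fun e => e.1 ∉ T ∧ e.2 ∉ T with hH'
  have hsub : H' ⊆ H := filter_subset _ _
  have hout' : ∀ u, (H'.filter fun e => e.1 = u).card ≤ D := fun u => by
    by_cases hu : u ∈ T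
    · rw [filter_eq_empty_iff.2 fun e he h => (mem_filter.1 he).2.1 (h ▸ hu)]; simp
    · have b1 : ¬ D ≤ (H.filter fun e => e.1 = u).card := fun h =>
        hu (mem_union_left _ (mem_filter.2 ⟨mem_univ _, h⟩))
      have b2 := card_le_card (filter_subset_filter (fun e : V × V => e.1 = u) hsub)
      omega
  have hin' : ∀ u, (H'.filter fun e => e.2 = u).card ≤ D := fun u => by
    by_cases hu : u ∈ T
    · rw [filter_eq_empty_iff.2 fun e he h => (mem_filter.1 he).2.2 (h ▸ hu)]; simp
    · have b1 : ¬ D ≤ (H.filter fun e => e.2 = u).card := fun h =>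
        hu (mem_union_right _ (mem_filter.2 ⟨mem_univ _, h⟩))
      have b2 := card_le_card (filter_subset_filter (fun e : V × V => e.2 = u) hsub)
      omega
  obtain ⟨c, c', hc⟩ := colourings H' hD ((card_le_card hsub).trans hH) hout' hin'
  set H2 := H'.filter fun e => ∃ e' ∈ H', e' ≠ e ∧ c e'.1 = c e.1 ∧ c' e'.2 = c' e.2 with hH2
  have hsub2 : H2 ⊆ H := (filter_subset _ _).trans hsub
  have hc2 : (H2.card : ℝ) ≤ H.card / 2 := by
    have : (H'.card : ℝ) ≤ H.card := by exact_mod_cast card_le_card hsub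
    linarith
  have hlt : H2.card < n := by
    have : (H2.card : ℝ) < H.card := by linarith
    rw [← hn]; exact_mod_cast this
  obtain ⟨κ, iκ, w, hκ, hw⟩ := ih _ hlt H2 rfl
    (fun u => (card_le_card (filter_subset_filter _ hsub2)).trans (hout u))
    (fun u => (card_le_card (filter_subset_filter _ hsub2)).trans (hin u))
  refine ⟨T ⊕ (Fin (8 * D) ⊕ Fin (8 * D)) ⊕ κ, inferInstance,
    fun v => Sum.elim (fun t => if v = t.1 then 1 else 0)
      (Sum.elim (Sum.elim (fun i => if c v = i then 1 else 0) (fun j => if c' v = j then 1 else 0)) (w v)),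
    ?_, fun ω hω h1 h2 h3 => ?_⟩
  · simp only [Fintype.card_sum, Fintype.card_coe, Fintype.card_fin]
    push_cast
    have b1 : (T.card : ℝ) ≤ 2 * D := by exact_mod_cast hTc
    have b2 : √(H2.card : ℝ) ≤ 23 / 32 * s := by
      rw [Real.sqrt_le_iff]
      exact ⟨by linarith, by nlinarith⟩
    linarith
  have s1 : ∀ e, e ∉ H' → ω e = 0 := by
    rintro ⟨u, v⟩ he
    by_cases heH : (u, v) ∈ H
    swap
    · exact hω _ heH
    by_cases hu : u ∈ T
    · refine vand ha ((H.filter fun e => e.1 = u).image Prod.snd) (card_image_le.trans (hout u))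
        (fun v => ω (u, v)) (fun v' hv' => hω _ fun h => hv' ?_) (fun j => ?_) v
      · exact mem_image.2 ⟨(u, v'), mem_filter.2 ⟨h, rfl⟩, rfl⟩
      · have := h2 (Sum.inl ⟨u, hu⟩) j
        simpa [Fintype.sum_prod_type, sum_comm (γ := V)] using this
    · have hv : v ∈ T := by
        by_contra hv
        exact he (mem_filter.2 ⟨heH, hu, hv⟩)
      refine vand ha ((H.filter fun e => e.2 = v).image Prod.fst) (card_image_le.trans (hin v))
        (fun u => ω (u, v)) (fun u' hu' => hω _ fun h => hu' ?_) (fun j => ?_) u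
      · exact mem_image.2 ⟨(u', v), mem_filter.2 ⟨h, rfl⟩, rfl⟩
      · have := h1 j (Sum.inl ⟨v, hv⟩)
        simpa [Fintype.sum_prod_type] using this
  have s2 : ∀ e, e ∉ H2 → ω e = 0 := by
    intro e he
    by_cases heH : e ∈ H'
    swap
    · exact s1 _ heH
    have := h3 (Sum.inr (Sum.inl (Sum.inl (c e.1)))) (Sum.inr (Sum.inl (Sum.inr (c' e.2))))
    simp only [Sum.elim_inr, Sum.elim_inl] at this
    rw [sum_eq_single e] at this
    · simpa using this
    · intro e' _ he'
      by_cases b0 : e' ∈ H'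
      · by_cases b1 : c e'.1 = c e.1
        · by_cases b2 : c' e'.2 = c' e.2
          · exact absurd (mem_filter.2 ⟨heH, e', b0, he', b1, b2⟩) he
          · rw [if_neg b2, mul_zero]
        · rw [if_neg b1, mul_zero, zero_mul]
      · rw [s1 _ b0, zero_mul, zero_mul]
    · intro hh
      exact absurd (mem_univ _) hh
  exact hw ω s2 (fun i j => h1 i (Sum.inr (Sum.inr j))) (fun i j => h2 (Sum.inr (Sum.inr i)) j)
    (fun i j => h3 (Sum.inr (Sum.inr i)) (Sum.inr (Sum.inr j)))

/-- the tensors indexed by H are independent -/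
def Works (H : Finset (V × V)) {k : ℕ} (x : V → Fin k → ℝ) : Prop :=
  ∀ ω : V × V → ℝ, (∀ e, e ∉ H → ω e = 0) →
    (∀ i j, ∑ e : V × V, ω e * x e.1 i * x e.2 j = 0) → ∀ e, ω e = 0

lemma works_iff (H : Finset (V × V)) {k : ℕ} (x : V → Fin k → ℝ) :
    Works H x ↔ LinearIndependent ℝ
      (fun e : H => fun p : Fin k × Fin k => x e.1.1 p.1 * x e.1.2 p.2) := by
  rw [Fintype.linearIndependent_iff]
  constructor
  · intro h g hg e
    have := h (fun e => if he : e ∈ H then g ⟨e, he⟩ else 0) (fun e he => dif_neg he) (fun i j => by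
      have h1 := congrFun hg (i, j)
      simp only [Finset.sum_apply, Pi.smul_apply, smul_eq_mul, Pi.zero_apply] at h1
      rw [← sum_subset (subset_univ H) (fun e _ he => by simp [he]), ← sum_coe_sort H]
      refine Eq.trans ?_ h1
      refine sum_congr rfl fun e _ => ?_
      simp only [e.2, dif_pos, mul_assoc]) e.1
    simpa using this
  · intro h ω hω h0 e
    by_cases he : e ∈ H
    · refine h (fun e => ω e.1) (funext fun p => ?_) ⟨e, he⟩
      simp only [Finset.sum_apply, Pi.smul_apply, smul_eq_mul, Pi.zero_apply]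
      rw [← h0 p.1 p.2, ← sum_subset (subset_univ H) (fun e _ he => by simp [hω e he]),
        ← sum_coe_sort H]
      exact sum_congr rfl fun e _ => (mul_assoc _ _ _).symm
    · exact hω e he

omit [DecidableEq V] in
lemma works_scale {H : Finset (V × V)} {k : ℕ} {x : V → Fin k → ℝ} (h : Works H x) (c : V → ℝ)
    (hc : ∀ u, c u ≠ 0) : Works H (fun u => c u • x u) := by
  intro ω hω h0 e
  have := h (fun e => ω e * (c e.1 * c e.2)) (fun e he => by rw [hω e he, zero_mul]) (fun i j => by
    rw [← h0 i j]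
    refine sum_congr rfl fun e _ => ?_
    simp only [Pi.smul_apply, smul_eq_mul]; ring) e
  exact (mul_eq_zero.1 this).resolve_right (mul_ne_zero (hc _) (hc _))

lemma fix_sum {H : Finset (V × V)} {k : ℕ} {x : V → Fin k → ℝ} (h : Works H x) (V₁ : Finset V)
    (h₁ : V₁ = ∅ ∨ k < V₁.card) :
    ∃ x' : V → Fin k → ℝ, Works H x' ∧ ∑ u ∈ V₁, x' u = 0 ∧ ∀ u, u ∉ V₁ → x' u = x u := by
  rcases h₁ with h₁ | h₁
  · exact ⟨x, h, by rw [h₁, sum_empty], fun _ _ => rfl⟩
  have hdep : ¬ LinearIndependent ℝ (fun u : V₁ => x u.1) := fun hli => by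
    have := hli.fintype_card_le_finrank
    simp only [Fintype.card_coe, Module.finrank_fintype_fun_eq_card, Fintype.card_fin] at this
    omega
  obtain ⟨g, hg, u0, hu0⟩ := Fintype.not_linearIndependent_iff.1 hdep
  let μ : V → ℝ := fun u => if hu : u ∈ V₁ then g ⟨u, hu⟩ else 0
  have hμ : ∑ u ∈ V₁, μ u • x u = 0 := by
    rw [← hg, ← sum_coe_sort V₁]
    exact sum_congr rfl fun u _ => by simp [μ]
  have hμ0 : μ u0.1 ≠ 0 := by simpa [μ] using hu0
  let s : Fin k → ℝ := ∑ u ∈ V₁.erase u0.1, x u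
  let y : ℝ → V → Fin k → ℝ := fun t u => x u - (if u = u0.1 then t / μ u0.1 else 0) • s
  have hy : Continuous fun t : ℝ =>
      (fun e : H => fun p : Fin k × Fin k => y t e.1.1 p.1 * y t e.1.2 p.2) := by
    have hc : ∀ u i, Continuous fun t : ℝ => y t u i := fun u i => by
      simp only [y, Pi.sub_apply, Pi.smul_apply, smul_eq_mul]
      split_ifs <;> fun_prop
    exact continuous_pi fun e => continuous_pi fun p => (hc _ _).mul (hc _ _)
  have hy0 : y 0 = x := by
    funext u
    simp [y]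
  have ev1 : ∀ᶠ t in nhds (0 : ℝ), Works H (y t) := by
    have h0 := (works_iff H (y 0)).1 (hy0 ▸ h)
    have := (hy.tendsto 0).eventually h0.eventually
    exact this.mono fun t ht => (works_iff H (y t)).2 ht
  have ev2 : ∀ᶠ t in nhdsWithin (0 : ℝ) {0}ᶜ, ∀ u, μ u + t ≠ 0 := by
    rw [Filter.eventually_all]
    intro u
    by_cases hu : μ u = 0
    · filter_upwards [self_mem_nhdsWithin] with t ht
      rw [hu, zero_add]; exact ht
    · refine Filter.Eventually.filter_mono nhdsWithin_le_nhds ?_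
      have hc : Continuous fun t : ℝ => μ u + t := by fun_prop
      exact hc.continuousAt.eventually_ne (by simpa using hu)
  obtain ⟨t, ht1, ht2⟩ := ((ev1.filter_mono nhdsWithin_le_nhds).and ev2).exists
  let c : V → ℝ := fun u => if u ∈ V₁ then (if u = u0.1 then μ u else μ u + t) else 1
  have hc : ∀ u, c u ≠ 0 := fun u => by
    simp only [c]
    split_ifs with b1 b2
    · rw [b2]; exact hμ0
    · exact ht2 u
    · exact one_ne_zero
  refine ⟨fun u => c u • y t u, works_scale ht1 c hc, ?_, fun u hu => ?_⟩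
  · rw [← add_sum_erase _ _ u0.2] at hμ ⊢
    have e1 : c u0.1 • y t u0.1 = μ u0.1 • x u0.1 - t • s := by
      simp only [c, y, u0.2, if_true, smul_sub, smul_smul]
      rw [mul_div_cancel₀ _ hμ0]
    have e2 : ∑ u ∈ V₁.erase u0.1, c u • y t u = ∑ u ∈ V₁.erase u0.1, μ u • x u + t • s := by
      simp only [s]
      rw [smul_sum, ← sum_add_distrib]
      refine sum_congr rfl fun u hu => ?_
      obtain ⟨b1, b2⟩ := mem_erase.1 hu
      simp only [c, y, b1, b2, if_true, if_false, zero_smul, sub_zero, add_smul]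
    rw [e1, e2, ← hμ]
    abel
  · have b1 : u ≠ u0.1 := fun e => hu (e ▸ u0.2)
    simp [c, y, hu, b1]

end Ten

open Ten in
/-- few ordered pairs with small degrees have independent tensors
`x u ⊗ x v`, and `x` can be chosen with sum zero on given disjoint large sets. -/
theorem tensor_indep (V : Type) [Fintype V] [DecidableEq V] (H : Finset (V × V)) (k0 k : ℕ)
    (hout : ∀ u, (H.filter fun e => e.1 = u).card ≤ k0)
    (hin : ∀ u, (H.filter fun e => e.2 = u).card ≤ k0)
    (hk : (k0 : ℝ) + 128 * Real.sqrt H.card ≤ k)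
    (V₁ V₂ : Finset V) (hd : Disjoint V₁ V₂)
    (h₁ : V₁ = ∅ ∨ k < V₁.card) (h₂ : V₂ = ∅ ∨ k < V₂.card) :
    ∃ x : V → Fin k → ℝ, (∑ u ∈ V₁, x u = 0) ∧ (∑ u ∈ V₂, x u = 0) ∧
      ∀ ω : V × V → ℝ, (∀ e, e ∉ H → ω e = 0) →
        (∀ i j, ∑ e : V × V, ω e * x e.1 i * x e.2 j = 0) → ∀ e, ω e = 0 := by
  let a : V → ℝ := fun v => ((Fintype.equivFin V v : ℕ) : ℝ)
  have ha : Function.Injective a := fun u v h =>
    (Fintype.equivFin V).injective (Fin.ext (Nat.cast_injective (R := ℝ) h))
  obtain ⟨κ, iκ, w, hκ, hw⟩ := core ha k0 H.card H rfl hout hin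
  have hcard : Fintype.card (Fin k0 ⊕ κ) ≤ Fintype.card (Fin k) := by
    simp only [Fintype.card_sum, Fintype.card_fin]
    have : ((k0 + Fintype.card κ : ℕ) : ℝ) ≤ k := by push_cast; linarith
    exact_mod_cast this
  obtain ⟨ι⟩ := Function.Embedding.nonempty_of_card_le hcard
  let z : V → Fin k0 ⊕ κ → ℝ := fun v => Sum.elim (fun i => a v ^ (i : ℕ)) (w v)
  let x : V → Fin k → ℝ := fun v => Function.extend ι (z v) 0
  have hx : ∀ v b, x v (ι b) = z v b := fun v b => ι.injective.extend_apply _ _ _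
  have h0 : Works H x := fun ω hω h => by
    refine hw ω hω (fun i j => ?_) (fun i j => ?_) (fun i j => ?_)
    · simpa [hx, z] using h (ι (Sum.inl i)) (ι (Sum.inr j))
    · simpa [hx, z] using h (ι (Sum.inr i)) (ι (Sum.inl j))
    · simpa [hx, z] using h (ι (Sum.inr i)) (ι (Sum.inr j))
  obtain ⟨x1, b1, b2, _⟩ := fix_sum h0 V₁ h₁
  obtain ⟨x2, c1, c2, c3⟩ := fix_sum b1 V₂ h₂
  refine ⟨x2, ?_, c2, c1⟩
  rw [← b2]
  exact sum_congr rfl fun u hu => c3 u (disjoint_left.1 hd hu)

set_option linter.unusedVariables false in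
/-- a configuration orthogonal to `x`, with dual vectors. -/
theorem exists_gale (V : Type) [Fintype V] [DecidableEq V] (V₀ : Finset V) (k d : ℕ)
    (x : V → Fin k → ℝ) (hx : ∑ u ∈ V₀, x u = 0) (h : k + d + 1 ≤ V₀.card) :
    ∃ (p : V → Fin d → ℝ) (φ : Option (Fin d) → V → ℝ),
      (∀ i j, ∑ u ∈ V₀, x u j * p u i = 0) ∧
      (∀ a b : Option (Fin d), ∑ u ∈ V₀, φ a u * (b.elim 1 (p u)) = if a = b then 1 else 0) := by
  let L : (V₀ → ℝ) →ₗ[ℝ] (Option (Fin k) → ℝ) :=
    Matrix.mulVecLin (Matrix.of fun (j : Option (Fin k)) (u : V₀) => j.elim 1 (x u.1))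
  have hL : ∀ y j, L y j = ∑ u : V₀, j.elim 1 (x u.1) * y u := fun y j => by
    simp [L, Matrix.mulVec, dotProduct]
  have hdim : Module.finrank ℝ (Fin d → ℝ) ≤ Module.finrank ℝ (LinearMap.ker L) := by
    have h1 := L.finrank_range_add_finrank_ker
    have h2 := Submodule.finrank_le (LinearMap.range L)
    simp only [Module.finrank_fintype_fun_eq_card, Fintype.card_coe, Fintype.card_option,
      Fintype.card_fin] at h1 h2 ⊢
    omega
  obtain ⟨f, hf⟩ := finrank_le_iff_exists_linearMap.1 hdim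
  let F : (Fin d → ℝ) →ₗ[ℝ] (V₀ → ℝ) := (LinearMap.ker L).subtype ∘ₗ f
  have hF : Function.Injective F := (LinearMap.ker L).injective_subtype.comp hf
  obtain ⟨G, hG⟩ := F.exists_leftInverse_of_injective (LinearMap.ker_eq_bot.2 hF)
  have hGF : ∀ c, G (F c) = c := fun c => by simpa using LinearMap.congr_fun hG c
  have hker : ∀ c j, ∑ u : V₀, Option.elim j 1 (x u.1) * F c u = 0 := fun c j => by
    rw [← hL]
    exact congrFun (LinearMap.mem_ker.1 (f c).2) j
  have hGy : ∀ (y : V₀ → ℝ) i, ∑ u : V₀, G (Pi.single u 1) i * y u = G y i := fun y i => by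
    have h2 : y = ∑ u, y u • (Pi.single u 1 : V₀ → ℝ) := by
      ext u
      simp [Finset.sum_apply, Pi.single_apply]
    conv_rhs => rw [h2, map_sum]
    simp only [map_smul, Finset.sum_apply, Pi.smul_apply, smul_eq_mul]
    exact sum_congr rfl fun u _ => mul_comm _ _
  have hN : (0 : ℝ) < V₀.card := by
    have : 0 < V₀.card := by omega
    exact_mod_cast this
  refine ⟨fun u i => if hu : u ∈ V₀ then F (Pi.single i 1) ⟨u, hu⟩ else 0,
    fun a u => a.elim (1 / (V₀.card : ℝ)) fun i =>
      (if hu : u ∈ V₀ then G (Pi.single ⟨u, hu⟩ 1) i else 0) - G 1 i / (V₀.card : ℝ), ?_, ?_⟩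
  · intro i j
    rw [← hker (Pi.single i 1) (some j), ← sum_coe_sort V₀]
    exact sum_congr rfl fun u _ => by simp
  · intro a b
    rw [← sum_coe_sort V₀]
    have hs : ∀ j, ∑ u : V₀, F (Pi.single j 1) u = 0 := fun j => by
      simpa using hker (Pi.single j 1) none
    rcases a with _ | i <;> rcases b with _ | j
    · simp only [Option.elim, mul_one, sum_const, card_univ, Fintype.card_coe, nsmul_eq_mul, if_true]
      field_simp
    · simp only [Option.elim, coe_mem, dif_pos, Subtype.coe_eta]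
      rw [← mul_sum, hs, mul_zero, if_neg (by simp)]
    · simp only [Option.elim, coe_mem, dif_pos, Subtype.coe_eta, mul_one, sum_sub_distrib, sum_const,
        card_univ, Fintype.card_coe, nsmul_eq_mul]
      have := hGy 1 i
      simp only [Pi.one_apply, mul_one] at this
      rw [this, if_neg (by simp)]
      field_simp
      ring
    · simp only [Option.elim, coe_mem, dif_pos, Subtype.coe_eta, sub_mul, sum_sub_distrib]
      rw [hGy, ← mul_sum, hs, hGF, mul_zero, sub_zero, Pi.single_apply]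
      simp

end Pool.Agent.P.MP_2d96df_co
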