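import Pool.Agent.P.MP_2d96df_co.Prob

/-! Rank function of a finite family of vectors. -/

namespace Pool.Agent.P.MP_2d96df_co

open Finset Module Submodule

variable {ι : Type*} [DecidableEq ι] {W : Type*} [AddCommGroup W] [Module ℝ W]

/-- span of the vectors indexed by `X` -/
def sp (v : ι → W) (X : Finset ι) : Submodule ℝ W := span ℝ (v '' (X : Set ι))

/-- rank of the vectors indexed by `X` -/
noncomputable def rk (v : ι → W) (X : Finset ι) : ℕ := finrank ℝ (sp v X)

instance (v : ι → W) (X : Finset ι) : FiniteDimensional ℝ (sp v X) :=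
  FiniteDimensional.span_of_finite ℝ (X.finite_toSet.image v)

omit [DecidableEq ι] in
lemma mem_sp (v : ι → W) {X : Finset ι} {e : ι} (h : e ∈ X) : v e ∈ sp v X :=
  subset_span ⟨e, h, rfl⟩

omit [DecidableEq ι] in
lemma sp_mono (v : ι → W) {X Y : Finset ι} (h : X ⊆ Y) : sp v X ≤ sp v Y :=
  span_mono (Set.image_mono (by exact_mod_cast h))

omit [DecidableEq ι] in
lemma sp_le {v : ι → W} {X : Finset ι} {U : Submodule ℝ W} :
    sp v X ≤ U ↔ ∀ e ∈ X, v e ∈ U := by
  simp [sp, span_le, Set.subset_def]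

omit [DecidableEq ι] in
@[simp] lemma sp_empty (v : ι → W) : sp v ∅ = ⊥ := by simp [sp]

lemma sp_union (v : ι → W) (X Y : Finset ι) : sp v (X ∪ Y) = sp v X ⊔ sp v Y := by
  simp [sp, Set.image_union, span_union]

lemma sp_insert (v : ι → W) (e : ι) (X : Finset ι) :
    sp v (insert e X) = (ℝ ∙ v e) ⊔ sp v X := by
  simp [sp, Set.image_insert_eq, span_insert]

omit [DecidableEq ι] in
@[simp] lemma rk_empty (v : ι → W) : rk v ∅ = 0 := by simp [rk]

omit [DecidableEq ι] in
lemma rk_mono (v : ι → W) {X Y : Finset ι} (h : X ⊆ Y) : rk v X ≤ rk v Y :=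
  Submodule.finrank_mono (sp_mono v h)

omit [DecidableEq ι] in
lemma rk_le_of_forall_mem {v : ι → W} {X Y : Finset ι} (h : ∀ e ∈ X, v e ∈ sp v Y) :
    rk v X ≤ rk v Y := Submodule.finrank_mono (sp_le.2 h)

lemma finrank_span_sup_of_notMem {U : Submodule ℝ W} [FiniteDimensional ℝ U] {w : W}
    (h : w ∉ U) : finrank ℝ ((ℝ ∙ w) ⊔ U : Submodule ℝ W) = finrank ℝ U + 1 := by
  have hw : w ≠ 0 := fun h0 => h (h0 ▸ U.zero_mem)
  have h1 := Submodule.finrank_sup_add_finrank_inf_eq (ℝ ∙ w) U
  have h2 : (ℝ ∙ w) ⊓ U = ⊥ := by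
    rw [← disjoint_iff]; exact (Submodule.disjoint_span_singleton' hw).2 h |>.symm
  rw [h2, finrank_bot, finrank_span_singleton hw] at h1
  omega

lemma rk_insert_of_mem {v : ι → W} {e : ι} {X : Finset ι} (h : v e ∈ sp v X) :
    rk v (insert e X) = rk v X := by
  unfold rk
  rw [sp_insert, sup_eq_right.2 ((Submodule.span_singleton_le_iff_mem _ _).2 h)]

lemma rk_insert_of_notMem {v : ι → W} {e : ι} {X : Finset ι} (h : v e ∉ sp v X) :
    rk v (insert e X) = rk v X + 1 := by
  unfold rk
  rw [sp_insert, finrank_span_sup_of_notMem h]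

lemma rk_insert_le (v : ι → W) (e : ι) (X : Finset ι) : rk v (insert e X) ≤ rk v X + 1 := by
  by_cases h : v e ∈ sp v X
  · rw [rk_insert_of_mem h]; omega
  · rw [rk_insert_of_notMem h]

lemma mem_sp_iff_rk {v : ι → W} {e : ι} {X : Finset ι} :
    v e ∈ sp v X ↔ rk v (insert e X) = rk v X := by
  refine ⟨rk_insert_of_mem, fun h => ?_⟩
  by_contra h'
  rw [rk_insert_of_notMem h'] at h; omega

lemma rk_union_le (v : ι → W) (X Y : Finset ι) : rk v (X ∪ Y) ≤ rk v X + Y.card := by
  induction Y using Finset.induction_on with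
  | empty => simp
  | insert e Y he ih =>
    rw [Finset.union_insert, Finset.card_insert_of_notMem he]
    have := rk_insert_le v e (X ∪ Y); omega

lemma rk_le_card (v : ι → W) (X : Finset ι) : rk v X ≤ X.card := by
  simpa using rk_union_le v ∅ X

lemma rk_submod (v : ι → W) (X Y : Finset ι) :
    rk v (X ∪ Y) + rk v (X ∩ Y) ≤ rk v X + rk v Y := by
  have h1 := Submodule.finrank_sup_add_finrank_inf_eq (sp v X) (sp v Y)
  have h2 : rk v (X ∩ Y) ≤ finrank ℝ (sp v X ⊓ sp v Y : Submodule ℝ W) :=
    Submodule.finrank_mono (le_inf (sp_mono v Finset.inter_subset_left)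
      (sp_mono v Finset.inter_subset_right))
  unfold rk at *
  rw [sp_union]; omega

open Classical in
/-- the rank of `X` is at most the rank of `Y` plus the number of vectors outside the span -/
lemma rk_le_add_card_filter (v : ι → W) (X Y : Finset ι) :
    rk v X ≤ rk v Y + (X.filter fun e => v e ∉ sp v Y).card := by
  refine le_trans (rk_le_of_forall_mem (Y := Y ∪ X.filter fun e => v e ∉ sp v Y) ?_)
    (rk_union_le v _ _)
  intro e he
  by_cases h : v e ∈ sp v Y
  · exact sp_mono v Finset.subset_union_left h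
  · exact mem_sp v (Finset.mem_union_right _ (Finset.mem_filter.2 ⟨he, h⟩))

/-- adding bridges raises the rank -/
lemma rk_union_bridges (v : ι → W) (Y Z B : Finset ι) (hZ : Z ⊆ Y) (hB : B ⊆ Y)
    (hd : Disjoint Z B) (hb : ∀ e ∈ B, v e ∉ sp v (Y.erase e)) :
    rk v (Z ∪ B) = rk v Z + B.card := by
  induction B using Finset.induction_on with
  | empty => simp
  | insert e B he ih =>
    have hB' : B ⊆ Y := fun a ha => hB (Finset.mem_insert_of_mem ha)
    have hd' : Disjoint Z B := hd.mono_right (Finset.subset_insert _ _)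
    have heZ : e ∉ Z := fun h => Finset.disjoint_left.1 hd h (Finset.mem_insert_self _ _)
    rw [Finset.union_insert, Finset.card_insert_of_notMem he, rk_insert_of_notMem,
      ih hB' hd' fun a ha => hb a (Finset.mem_insert_of_mem ha)]
    · ring
    · refine fun h => hb e (Finset.mem_insert_self _ _) (sp_mono v ?_ h)
      intro a ha
      rw [Finset.mem_erase]
      rcases Finset.mem_union.1 ha with h | h
      · exact ⟨fun h' => heZ (h' ▸ h), hZ h⟩
      · exact ⟨fun h' => he (h' ▸ h), hB' h⟩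

omit [DecidableEq ι] in
lemma rk_eq_card_iff (v : ι → W) (X : Finset ι) :
    rk v X = X.card ↔ LinearIndependent ℝ (fun e : X => v e) := by
  rw [linearIndependent_iff_card_eq_finrank_span, Fintype.card_coe]
  have : Set.range (fun e : X => v e) = v '' (X : Set ι) := by
    ext w; simp
  unfold rk sp Set.finrank
  rw [this]; exact eq_comm

omit [DecidableEq ι] in
/-- a dependent family has a non-trivial linear relation -/
lemma exists_dep {v : ι → W} {X : Finset ι} (h : rk v X ≠ X.card) :
    ∃ ω : ι → ℝ, (∑ e ∈ X, ω e • v e = 0) ∧ (∀ e, e ∉ X → ω e = 0) ∧ ∃ e ∈ X, ω e ≠ 0 := by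
  classical
  rw [Ne, rk_eq_card_iff, Fintype.not_linearIndependent_iff] at h
  obtain ⟨g, hg, e, he⟩ := h
  refine ⟨fun a => if h : a ∈ X then g ⟨a, h⟩ else 0, ?_, fun a ha => by simp [ha],
    e, e.2, by simpa using he⟩
  rw [← hg, ← Finset.sum_coe_sort]
  exact Finset.sum_congr rfl fun a _ => by simp

omit [DecidableEq ι] in
lemma rk_eq_card_of_forall {v : ι → W} {X : Finset ι}
    (h : ∀ ω : ι → ℝ, (∑ e ∈ X, ω e • v e = 0) → (∀ e, e ∉ X → ω e = 0) → ∀ e ∈ X, ω e = 0) :
    rk v X = X.card := by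
  by_contra h'
  obtain ⟨ω, h1, h2, e, he, h3⟩ := exists_dep h'
  exact h3 (h ω h1 h2 e he)

/-- an element in the support of a relation is in the span of the others -/
lemma mem_sp_erase_of_dep {v : ι → W} {X : Finset ι} {ω : ι → ℝ}
    (h : ∑ e ∈ X, ω e • v e = 0) {e : ι} (he : e ∈ X) (h0 : ω e ≠ 0) :
    v e ∈ sp v (X.erase e) := by
  rw [← Finset.add_sum_erase _ _ he] at h
  have h1 : ω e • v e ∈ sp v (X.erase e) := by
    rw [eq_neg_of_add_eq_zero_left h]
    exact neg_mem (sum_mem fun a ha => smul_mem _ _ (mem_sp v ha))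
  exact (Submodule.smul_mem_iff _ h0).1 h1

/-- every family contains an independent subfamily of full rank -/
lemma exists_basis (v : ι → W) (X : Finset ι) :
    ∃ B ⊆ X, rk v B = B.card ∧ B.card = rk v X := by
  induction X using Finset.induction_on with
  | empty => exact ⟨∅, by simp⟩
  | insert e X he ih =>
    obtain ⟨B, hB, h1, h2⟩ := ih
    by_cases h : v e ∈ sp v X
    · exact ⟨B, hB.trans (Finset.subset_insert _ _), h1, by rw [rk_insert_of_mem h, h2]⟩
    · have heB : e ∉ B := fun h' => he (hB h')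
      refine ⟨insert e B, Finset.insert_subset_insert _ hB, ?_, ?_⟩
      · rw [rk_insert_of_notMem fun h' => h (sp_mono v hB h'),
          Finset.card_insert_of_notMem heB, h1]
      · rw [rk_insert_of_notMem h, Finset.card_insert_of_notMem heB, h2]

/-- subsets of independent sets are independent -/
lemma rk_eq_card_of_subset {v : ι → W} {X Y : Finset ι} (h : rk v Y = Y.card) (hX : X ⊆ Y) :
    rk v X = X.card := by
  have h1 := rk_union_le v X (Y \ X)
  rw [Finset.union_sdiff_of_subset hX, Finset.card_sdiff_of_subset hX] at h1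
  have := rk_le_card v X
  have := Finset.card_le_card hX
  omega

end Pool.Agent.P.MP_2d96df_co
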